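import Mathlib

set_option autoImplicit false

/-!
# Nonexpanding maps for a family of distances, classes of bounded size: cycles and tails
-/

namespace Pool.Agent.K3h68.UP

open Finset

/-- The number of the elements `x` of `K` such that `x` and `x + 1` have given absolute values is
at most `B`. -/
def ClsB {K : Type*} [Field K] {V : Type*} (av : V → AbsoluteValue K ℝ) (B : ℕ) : Prop :=
  ∀ E : Finset K, (∀ x ∈ E, x ≠ 0 ∧ x + 1 ≠ 0) →
    (∀ x ∈ E, ∀ y ∈ E, ∀ v, av v x = av v y ∧ av v (x + 1) = av v (y + 1)) → E.card ≤ B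

/-- The set of rational points of the projective line over `K`, with brackets `c` and weights `N` at
the places `v` of `V`. -/
structure Sys (K : Type*) [Field K] (V : Type*) (av : V → AbsoluteValue K ℝ) (X : Type*) where
  /-- brackets -/
  c : X → X → K
  c_zero : ∀ x y, c x y = 0 ↔ x = y
  c_symm : ∀ x y, c y x = - c x y
  pl : ∀ a b e g, c a b * c e g - c a e * c b g + c a g * c b e = 0
  /-- weights -/
  N : V → X → ℝ
  N_pos : ∀ p x, 0 < N p x
  ultra : ∀ (p : V) x y z, av p (c x z) / (N p x * N p z) ≤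
      max (av p (c x y) / (N p x * N p y)) (av p (c y z) / (N p y * N p z))

variable {K : Type*} [Field K] {V : Type*} {av : V → AbsoluteValue K ℝ} {X : Type*} {B : ℕ}
  (S : Sys K V av X)

/-- the distance -/
noncomputable def Sys.δ (p : V) (x y : X) : ℝ :=
  av p (S.c x y) / (S.N p x * S.N p y)

lemma Sys.ultra' (p : V) (x y z : X) :
    S.δ p x z ≤ max (S.δ p x y) (S.δ p y z) := S.ultra p x y z

lemma Sys.symm (p : V) (x y : X) : S.δ p x y = S.δ p y x := by
  unfold Sys.δ
  rw [S.c_symm y x, AbsoluteValue.map_neg, mul_comm (S.N p x)]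

lemma Sys.nonneg (p : V) (x y : X) : 0 ≤ S.δ p x y := by
  unfold Sys.δ
  have h1 := S.N_pos p x
  have h2 := S.N_pos p y
  have h3 : (0 : ℝ) ≤ av p (S.c x y) := (av p).nonneg _
  positivity

lemma Sys.self (p : V) (x : X) : S.δ p x x = 0 := by
  unfold Sys.δ
  rw [(S.c_zero x x).mpr rfl]
  simp

lemma Sys.pos (p : V) {x y : X} (h : x ≠ y) : 0 < S.δ p x y := by
  unfold Sys.δ
  have h1 := S.N_pos p x
  have h2 := S.N_pos p y
  have h3 : S.c x y ≠ 0 := fun h0 => h ((S.c_zero x y).mp h0)
  have h4 : (0 : ℝ) < av p (S.c x y) := (av p).pos h3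
  positivity

lemma Sys.ne_of_pos {p : V} {x y : X} (h : 0 < S.δ p x y) : x ≠ y := by
  rintro rfl
  rw [S.self] at h
  exact lt_irrefl _ h

lemma Sys.norm_eq (p : V) (x y : X) :
    av p (S.c x y) = S.δ p x y * (S.N p x * S.N p y) := by
  unfold Sys.δ
  have h1 := S.N_pos p x
  have h2 := S.N_pos p y
  field_simp

lemma Sys.c_ne {x y : X} (h : x ≠ y) : S.c x y ≠ 0 := fun h0 => h ((S.c_zero _ _).mp h0)

/-- the larger of two different sides -/
lemma Sys.eq_of_lt (p : V) {x y z : X} (h : S.δ p x y < S.δ p y z) : S.δ p x z = S.δ p y z := by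
  apply le_antisymm
  · exact (S.ultra' p x y z).trans (max_le h.le le_rfl)
  · have h1 := S.ultra' p y x z
    rw [S.symm p y x] at h1
    rcases le_max_iff.1 h1 with h2 | h2
    · exact absurd h (not_lt.2 h2)
    · exact h2

/-- the coordinate of `x` with respect to three points -/
noncomputable def Sys.co (a b e x : X) : K := -(S.c a e * S.c b x) / (S.c a x * S.c b e)

lemma Sys.co_add {a b e x : X} (hax : x ≠ a) (hbe : b ≠ e) :
    S.co a b e x + 1 = -(S.c a b * S.c e x) / (S.c a x * S.c b e) := by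
  unfold Sys.co
  have h1 : S.c a x ≠ 0 := S.c_ne hax.symm
  have h2 : S.c b e ≠ 0 := S.c_ne hbe
  have h3 := S.pl a b e x
  field_simp
  linear_combination h3

lemma Sys.co_inj {a b e x y : X} (hab : a ≠ b) (hae : a ≠ e) (hbe : b ≠ e) (hx : x ≠ a) (hy : y ≠ a)
    (h : S.co a b e x = S.co a b e y) : x = y := by
  unfold Sys.co at h
  have h1 : S.c a x ≠ 0 := S.c_ne hx.symm
  have h2 : S.c b e ≠ 0 := S.c_ne hbe
  have h3 : S.c a y ≠ 0 := S.c_ne hy.symm
  have h4 : S.c a e ≠ 0 := S.c_ne hae
  have h5 : S.c a b ≠ 0 := S.c_ne hab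
  rw [div_eq_div_iff (mul_ne_zero h1 h2) (mul_ne_zero h3 h2)] at h
  have h6 : S.c b x * S.c a y = S.c b y * S.c a x := by
    have h7 : S.c a e * S.c b e ≠ 0 := mul_ne_zero h4 h2
    apply mul_left_cancel₀ h7
    linear_combination -h
  have h8 := S.pl a b x y
  have h9 : S.c a b * S.c x y = 0 := by linear_combination h8 - h6
  exact (S.c_zero x y).1 ((mul_eq_zero.1 h9).resolve_left h5)

lemma Sys.av_co (p : V) (a b e x : X) :
    av p (S.co a b e x) = S.δ p a e * S.δ p b x / (S.δ p a x * S.δ p b e) := by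
  unfold Sys.co
  rw [map_div₀, (av p).map_neg, map_mul, map_mul, S.norm_eq, S.norm_eq, S.norm_eq, S.norm_eq]
  have h1 := S.N_pos p a
  have h2 := S.N_pos p b
  have h3 := S.N_pos p e
  have h4 := S.N_pos p x
  rw [show S.δ p a e * (S.N p a * S.N p e) * (S.δ p b x * (S.N p b * S.N p x)) =
    (S.δ p a e * S.δ p b x) * (S.N p a * S.N p b * S.N p e * S.N p x) by ring,
    show S.δ p a x * (S.N p a * S.N p x) * (S.δ p b e * (S.N p b * S.N p e)) =
    (S.δ p a x * S.δ p b e) * (S.N p a * S.N p b * S.N p e * S.N p x) by ring]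
  exact mul_div_mul_right _ _ (by positivity)

lemma Sys.av_co_add (p : V) {a b e x : X} (hax : x ≠ a) (hbe : b ≠ e) :
    av p (S.co a b e x + 1) = S.δ p a b * S.δ p e x / (S.δ p a x * S.δ p b e) := by
  rw [S.co_add hax hbe]
  rw [map_div₀, (av p).map_neg, map_mul, map_mul, S.norm_eq, S.norm_eq, S.norm_eq, S.norm_eq]
  have h1 := S.N_pos p a
  have h2 := S.N_pos p b
  have h3 := S.N_pos p e
  have h4 := S.N_pos p x
  rw [show S.δ p a b * (S.N p a * S.N p b) * (S.δ p e x * (S.N p e * S.N p x)) =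
    (S.δ p a b * S.δ p e x) * (S.N p a * S.N p b * S.N p e * S.N p x) by ring,
    show S.δ p a x * (S.N p a * S.N p x) * (S.δ p b e * (S.N p b * S.N p e)) =
    (S.δ p a x * S.δ p b e) * (S.N p a * S.N p b * S.N p e * S.N p x) by ring]
  exact mul_div_mul_right _ _ (by positivity)

/-- **The points whose distances from three points have given ratios** are at most `B`. -/
theorem Sys.three (hB : ClsB av B) {a b e : X} (hab : a ≠ b) (hae : a ≠ e) (hbe : b ≠ e) (T : Finset X)
    (hT : ∀ x ∈ T, x ≠ a ∧ x ≠ b ∧ x ≠ e)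
    (h : ∀ x ∈ T, ∀ y ∈ T, ∀ p, S.δ p a x * S.δ p b y = S.δ p a y * S.δ p b x ∧
      S.δ p a x * S.δ p e y = S.δ p a y * S.δ p e x) : T.card ≤ B := by
  classical
  have hinj : Set.InjOn (S.co a b e) (T : Set X) := by
    intro x hx y hy hxy
    exact S.co_inj hab hae hbe (hT x hx).1 (hT y hy).1 hxy
  rw [← Finset.card_image_of_injOn hinj]
  apply hB
  · intro z hz
    obtain ⟨x, hx, rfl⟩ := Finset.mem_image.1 hz
    obtain ⟨h1, h2, h3⟩ := hT x hx
    refine ⟨?_, ?_⟩
    · unfold Sys.co
      exact div_ne_zero (neg_ne_zero.2 (mul_ne_zero (S.c_ne hae) (S.c_ne h2.symm)))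
        (mul_ne_zero (S.c_ne h1.symm) (S.c_ne hbe))
    · rw [S.co_add h1 hbe]
      exact div_ne_zero (neg_ne_zero.2 (mul_ne_zero (S.c_ne hab) (S.c_ne h3.symm)))
        (mul_ne_zero (S.c_ne h1.symm) (S.c_ne hbe))
  · intro z hz z' hz' p
    obtain ⟨x, hx, rfl⟩ := Finset.mem_image.1 hz
    obtain ⟨y, hy, rfl⟩ := Finset.mem_image.1 hz'
    obtain ⟨h1, h2, h3⟩ := hT x hx
    obtain ⟨g1, g2, g3⟩ := hT y hy
    obtain ⟨k1, k2⟩ := h x hx y hy p
    have hax := S.pos p h1.symm
    have hay := S.pos p g1.symm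
    have hbe' := S.pos p hbe
    rw [S.av_co, S.av_co, S.av_co_add p h1 hbe, S.av_co_add p g1 hbe,
      div_eq_div_iff (by positivity) (by positivity), div_eq_div_iff (by positivity) (by positivity)]
    constructor
    · linear_combination (-(S.δ p a e * S.δ p b e)) * k1
    · linear_combination (-(S.δ p a b * S.δ p b e)) * k2

/-- the special case of equal distances -/
theorem Sys.three_eq (hB : ClsB av B) {a b e : X} (hab : a ≠ b) (hae : a ≠ e) (hbe : b ≠ e) (T : Finset X)
    (hT : ∀ x ∈ T, x ≠ a ∧ x ≠ b ∧ x ≠ e)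
    (h : ∀ x ∈ T, ∀ p, S.δ p a x = S.δ p b x ∧ S.δ p a x = S.δ p e x) : T.card ≤ B := by
  refine S.three hB hab hae hbe T hT fun x hx y hy p => ?_
  obtain ⟨h1, h2⟩ := h x hx p
  obtain ⟨g1, g2⟩ := h y hy p
  rw [← h1, ← h2, ← g1, ← g2]
  exact ⟨by ring, by ring⟩

/-- `f` does not increase any of the distances -/
def Sys.NonExp (f : X → X) : Prop :=
  ∀ (p : V) x y, S.δ p (f x) (f y) ≤ S.δ p x y

variable {S}

lemma Sys.NonExp.iterate {f : X → X} (hf : S.NonExp f) (n : ℕ) : S.NonExp (f^[n]) := by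
  induction n with
  | zero => intro p x y; exact le_refl _
  | succ n ih =>
    intro p x y
    rw [Function.iterate_succ_apply', Function.iterate_succ_apply']
    exact (hf p _ _).trans (ih p x y)

/-! ### Tails -/

/-- the distances along a backward orbit of a fixed point -/
lemma chain_dist {f : X → X} (hf : S.NonExp f) (R : ℕ → X) (k : ℕ) (h0 : f (R 0) = R 0)
    (hs : ∀ j < k, f (R (j + 1)) = R j) (p : V) :
    ∀ i j, i < j → j ≤ k → S.δ p (R i) (R j) = S.δ p (R 0) (R j) := by
  have mono1 : ∀ j < k, S.δ p (R 0) (R j) ≤ S.δ p (R 0) (R (j + 1)) := by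
    intro j hj
    have h := hf p (R 0) (R (j + 1))
    rwa [h0, hs j hj] at h
  have mono : ∀ j i, i ≤ j → j ≤ k → S.δ p (R 0) (R i) ≤ S.δ p (R 0) (R j) := by
    intro j
    induction j with
    | zero => intro i hi _; rw [Nat.le_zero.1 hi]
    | succ j ih =>
      intro i hi hj
      rcases Nat.lt_or_ge i (j + 1) with h | h
      · exact (ih i (by omega) (by omega)).trans (mono1 j (by omega))
      · rw [show i = j + 1 by omega]
  intro i
  induction i with
  | zero => intro j _ _; rfl
  | succ i ih =>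
    intro j hij hj
    have h1 := mono j (i + 1) hij.le hj
    apply le_antisymm
    · refine (S.ultra' p (R (i + 1)) (R 0) (R j)).trans (max_le ?_ le_rfl)
      rw [S.symm]
      exact h1
    · rcases lt_or_eq_of_le h1 with h2 | h2
      · have h3 := S.ultra' p (R 0) (R (i + 1)) (R j)
        rcases le_max_iff.1 h3 with h4 | h4
        · exact absurd h2 (not_lt.2 h4)
        · exact h4
      · obtain ⟨m, rfl⟩ : ∃ m, j = m + 1 := ⟨j - 1, by omega⟩
        have h3 := hf p (R (i + 1)) (R (m + 1))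
        rw [hs i (by omega), hs m (by omega), ih m (by omega) (by omega)] at h3
        refine le_trans ?_ h3
        rw [← h2]
        exact mono m (i + 1) (by omega) (by omega)

/-- **Tails ending in a fixed point have length at most `B + 2`.** -/
theorem tail (hB : ClsB av B) {f : X → X} (hf : S.NonExp f) (y : X) (m : ℕ)
    (hm : f (f^[m] y) = f^[m] y) : f (f^[B + 2] y) = f^[B + 2] y := by
  classical
  have hex : ∃ m, f (f^[m] y) = f^[m] y := ⟨m, hm⟩
  set k := Nat.find hex with hk
  have hfix : f (f^[k] y) = f^[k] y := Nat.find_spec hex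
  have hmin : ∀ j < k, f (f^[j] y) ≠ f^[j] y := fun j hj => Nat.find_min hex hj
  have hkB : k ≤ B + 2 := by
    by_contra hcon
    rw [not_le] at hcon
    let R : ℕ → X := fun j => f^[k - j] y
    have hR0 : f (R 0) = R 0 := by
      show f (f^[k - 0] y) = f^[k - 0] y
      rw [Nat.sub_zero]
      exact hfix
    have hRs : ∀ j < k, f (R (j + 1)) = R j := by
      intro j hj
      show f (f^[k - (j + 1)] y) = f^[k - j] y
      rw [← Function.iterate_succ_apply' f, show (k - (j + 1)).succ = k - j by omega]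
    have hRit : ∀ i j, i ≤ j → j ≤ k → f^[i] (R j) = R (j - i) := by
      intro i j hij hj
      show f^[i] (f^[k - j] y) = f^[k - (j - i)] y
      rw [← Function.iterate_add_apply]
      congr 2
      omega
    have hRne : ∀ i j, i < j → j ≤ k → R i ≠ R j := by
      intro i j hij hj h
      have h1 := hRit i i le_rfl (by omega)
      have h2 := hRit i j hij.le hj
      rw [← h, h1, Nat.sub_self] at h2
      have h3 : f (R (j - i)) = R (j - i) := by rw [← h2]; exact hR0
      exact hmin (k - (j - i)) (by omega) h3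
    have hd := chain_dist hf R k hR0 hRs
    let T : Finset X := (Finset.Icc 3 k).image R
    have hTc : T.card = k - 2 := by
      rw [Finset.card_image_of_injOn, Nat.card_Icc]
      · omega
      · intro i hi j hj hij
        rw [Finset.coe_Icc, Set.mem_Icc] at hi hj
        rcases lt_trichotomy i j with h | h | h
        · exact absurd hij (hRne i j h hj.2)
        · exact h
        · exact absurd hij.symm (hRne j i h hi.2)
    have h1 := S.three_eq hB (hRne 0 1 (by omega) (by omega)) (hRne 0 2 (by omega) (by omega))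
      (hRne 1 2 (by omega) (by omega)) T (by
        intro x hx
        obtain ⟨j, hj, rfl⟩ := Finset.mem_image.1 hx
        rw [Finset.mem_Icc] at hj
        exact ⟨(hRne 0 j (by omega) hj.2).symm, (hRne 1 j (by omega) hj.2).symm,
          (hRne 2 j (by omega) hj.2).symm⟩) (by
        intro x hx p
        obtain ⟨j, hj, rfl⟩ := Finset.mem_image.1 hx
        rw [Finset.mem_Icc] at hj
        rw [hd p 1 j (by omega) hj.2, hd p 2 j (by omega) hj.2]
        exact ⟨rfl, rfl⟩)
    omega
  obtain ⟨r, hr⟩ := Nat.exists_eq_add_of_le hkB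
  have h1 : f^[B + 2] y = f^[k] y := by
    rw [hr, Nat.add_comm, Function.iterate_add_apply]
    exact Function.iterate_fixed hfix r
  rw [h1]
  exact hfix

end Pool.Agent.K3h68.UP
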