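import Mathlib
import Pool.Agent.H892.PGR.Loc

set_option autoImplicit false

/-!
# Local theory: the difference quotient of a map given by integral binary forms

For a self-map `Ψ` of `L²` given by binary forms with integral coefficients,
`br (Ψ u) (Ψ v) = br u v * H u v` with `H` integral and Lipschitz on the unit ball.
-/

namespace Pool.Agent.K3h68.UP

open MvPolynomial
open Pool.Agent.H892.PGR

variable {L : Type*} [Field L] (w : AbsoluteValue L ℝ)

/-- integral and Lipschitz on the unit ball -/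
def Li (H : (Fin 2 → L) → (Fin 2 → L) → L) : Prop :=
  ∀ u v u' v', nm w u ≤ 1 → nm w v ≤ 1 → nm w u' ≤ 1 → nm w v' ≤ 1 →
    w (H u v) ≤ 1 ∧ w (H u v - H u' v') ≤ max (nm w (u - u')) (nm w (v - v'))

/-- self-maps of the unit ball with an integral Lipschitz difference quotient -/
def Gd (Ψ : (Fin 2 → L) → (Fin 2 → L)) : Prop :=
  (∀ u, nm w u ≤ 1 → nm w (Ψ u) ≤ 1) ∧
  (∀ u u', nm w u ≤ 1 → nm w u' ≤ 1 → nm w (Ψ u - Ψ u') ≤ nm w (u - u')) ∧
  ∃ H, Li w H ∧ ∀ u v, br (Ψ u) (Ψ v) = br u v * H u v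

lemma nm_nonneg (u : Fin 2 → L) : 0 ≤ nm w u := (w.nonneg _).trans (le_max_left _ _)

lemma nm_sub_comm (u v : Fin 2 → L) : nm w (u - v) = nm w (v - u) := by
  unfold nm
  simp only [Pi.sub_apply]
  rw [w.map_sub, w.map_sub (u 1)]

lemma le_nm (u : Fin 2 → L) (i : Fin 2) : w (u i) ≤ nm w u := by
  fin_cases i
  · exact le_max_left _ _
  · exact le_max_right _ _

variable {w}

lemma Li.mul {H H' : (Fin 2 → L) → (Fin 2 → L) → L} (hna : ∀ x y : L, w (x + y) ≤ max (w x) (w y))
    (h : Li w H) (h' : Li w H') : Li w (fun u v => H u v * H' u v) := by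
  intro u v u' v' hu hv hu' hv'
  obtain ⟨a1, a2⟩ := h u v u' v' hu hv hu' hv'
  obtain ⟨b1, b2⟩ := h' u v u' v' hu hv hu' hv'
  obtain ⟨a3, -⟩ := h u' v' u' v' hu' hv' hu' hv'
  refine ⟨by rw [map_mul]; exact mul_le_one₀ a1 (w.nonneg _) b1, ?_⟩
  have e : H u v * H' u v - H u' v' * H' u' v' =
      (H u v - H u' v') * H' u v + H u' v' * (H' u v - H' u' v') := by ring
  rw [e]
  refine (hna _ _).trans (max_le ?_ ?_)
  · rw [map_mul]
    calc _ ≤ w (H u v - H u' v') * 1 := mul_le_mul_of_nonneg_left b1 (w.nonneg _)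
      _ ≤ _ := by rw [mul_one]; exact a2
  · rw [map_mul]
    calc _ ≤ 1 * w (H' u v - H' u' v') := mul_le_mul_of_nonneg_right a3 (w.nonneg _)
      _ ≤ _ := by rw [one_mul]; exact b2

lemma Li.add {H H' : (Fin 2 → L) → (Fin 2 → L) → L} (hna : ∀ x y : L, w (x + y) ≤ max (w x) (w y))
    (h : Li w H) (h' : Li w H') : Li w (fun u v => H u v + H' u v) := by
  intro u v u' v' hu hv hu' hv'
  obtain ⟨a1, a2⟩ := h u v u' v' hu hv hu' hv'
  obtain ⟨b1, b2⟩ := h' u v u' v' hu hv hu' hv'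
  refine ⟨(hna _ _).trans (max_le a1 b1), ?_⟩
  have e : H u v + H' u v - (H u' v' + H' u' v') =
      (H u v - H u' v') + (H' u v - H' u' v') := by ring
  rw [e]
  exact (hna _ _).trans (max_le a2 b2)

lemma Li.const {c : L} (hc : w c ≤ 1) : Li w (fun _ _ => c) := by
  intro u v u' v' _ _ _ _
  refine ⟨hc, ?_⟩
  rw [sub_self, map_zero]
  exact (nm_nonneg w _).trans (le_max_left _ _)

lemma Li.neg {H : (Fin 2 → L) → (Fin 2 → L) → L} (h : Li w H) : Li w (fun u v => - H u v) := by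
  intro u v u' v' hu hv hu' hv'
  obtain ⟨a1, a2⟩ := h u v u' v' hu hv hu' hv'
  refine ⟨by rw [w.map_neg]; exact a1, ?_⟩
  rw [show - H u v - - H u' v' = -(H u v - H u' v') by ring, w.map_neg]
  exact a2

lemma Li.fst (i : Fin 2) : Li w (fun u _ => u i) := by
  intro u v u' v' hu _ _ _
  exact ⟨(le_nm w u i).trans hu, (le_nm w (u - u') i).trans (le_max_left _ _)⟩

lemma Li.snd (i : Fin 2) : Li w (fun _ v => v i) := by
  intro u v u' v' _ hv _ _
  exact ⟨(le_nm w v i).trans hv, (le_nm w (v - v') i).trans (le_max_right _ _)⟩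

lemma Li.pow {H : (Fin 2 → L) → (Fin 2 → L) → L} (hna : ∀ x y : L, w (x + y) ≤ max (w x) (w y))
    (h : Li w H) (k : ℕ) : Li w (fun u v => H u v ^ k) := by
  induction k with
  | zero =>
    simp only [pow_zero]
    exact Li.const (by rw [map_one])
  | succ k ih =>
    simp only [pow_succ]
    exact ih.mul hna h

lemma Li.sum {ι : Type*} (s : Finset ι) {H : ι → (Fin 2 → L) → (Fin 2 → L) → L}
    (hna : ∀ x y : L, w (x + y) ≤ max (w x) (w y))
    (h : ∀ i ∈ s, Li w (H i)) : Li w (fun u v => ∑ i ∈ s, H i u v) := by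
  classical
  induction s using Finset.induction_on with
  | empty =>
    simp only [Finset.sum_empty]
    exact Li.const (by rw [map_zero]; exact zero_le_one)
  | insert a s ha ih =>
    simp only [Finset.sum_insert ha]
    exact (h a (Finset.mem_insert_self a s)).add hna
      (ih fun i hi => h i (Finset.mem_insert_of_mem hi))

/-- one monomial of the difference quotient -/
lemma mono_H (hna : ∀ x y : L, w (x + y) ≤ max (w x) (w y)) {m s0 s1 t0 t1 : ℕ}
    (hs : s0 + s1 = m) (ht : t0 + t1 = m) :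
    ∃ H : (Fin 2 → L) → (Fin 2 → L) → L, Li w H ∧ ∀ u v : Fin 2 → L,
      u 0 ^ s0 * u 1 ^ s1 * (v 0 ^ t0 * v 1 ^ t1) - v 0 ^ s0 * v 1 ^ s1 * (u 0 ^ t0 * u 1 ^ t1) =
        br u v * H u v := by
  have gs : ∀ (a b : L) (r : ℕ), a ^ r - b ^ r =
      (a - b) * ∑ i ∈ Finset.range r, a ^ i * b ^ (r - 1 - i) := by
    intro a b r
    rw [Commute.mul_geom_sum₂ (Commute.all a b)]
  rcases le_total t0 s0 with h | h
  · obtain ⟨r, rfl⟩ := Nat.exists_eq_add_of_le h
    have ht1 : t1 = s1 + r := by omega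
    subst ht1
    refine ⟨fun u v => ((u 0 * v 0) ^ t0 * (u 1 * v 1) ^ s1) *
      ∑ i ∈ Finset.range r, (u 0 * v 1) ^ i * (u 1 * v 0) ^ (r - 1 - i), ?_, ?_⟩
    · exact ((((Li.fst 0).mul hna (Li.snd 0)).pow hna _).mul hna
        (((Li.fst 1).mul hna (Li.snd 1)).pow hna _)).mul hna (Li.sum _ hna fun i _ =>
          ((((Li.fst 0).mul hna (Li.snd 1)).pow hna _).mul hna
            (((Li.fst 1).mul hna (Li.snd 0)).pow hna _)))
    · intro u v
      have e : u 0 ^ (t0 + r) * u 1 ^ s1 * (v 0 ^ t0 * v 1 ^ (s1 + r)) -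
          v 0 ^ (t0 + r) * v 1 ^ s1 * (u 0 ^ t0 * u 1 ^ (s1 + r)) =
          ((u 0 * v 0) ^ t0 * (u 1 * v 1) ^ s1) * ((u 0 * v 1) ^ r - (u 1 * v 0) ^ r) := by
        ring
      rw [e, gs]
      unfold br
      ring
  · obtain ⟨r, rfl⟩ := Nat.exists_eq_add_of_le h
    have hs1 : s1 = t1 + r := by omega
    subst hs1
    refine ⟨fun u v => -(((u 0 * v 0) ^ s0 * (u 1 * v 1) ^ t1) *
      ∑ i ∈ Finset.range r, (u 0 * v 1) ^ i * (u 1 * v 0) ^ (r - 1 - i)), ?_, ?_⟩
    · exact (((((Li.fst 0).mul hna (Li.snd 0)).pow hna _).mul hna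
        (((Li.fst 1).mul hna (Li.snd 1)).pow hna _)).mul hna (Li.sum _ hna fun i _ =>
          ((((Li.fst 0).mul hna (Li.snd 1)).pow hna _).mul hna
            (((Li.fst 1).mul hna (Li.snd 0)).pow hna _)))).neg
    · intro u v
      have e : u 0 ^ s0 * u 1 ^ (t1 + r) * (v 0 ^ (s0 + r) * v 1 ^ t1) -
          v 0 ^ s0 * v 1 ^ (t1 + r) * (u 0 ^ (s0 + r) * u 1 ^ t1) =
          -(((u 0 * v 0) ^ s0 * (u 1 * v 1) ^ t1) * ((u 0 * v 1) ^ r - (u 1 * v 0) ^ r)) := by
        ring
      rw [e, gs]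
      unfold br
      ring

/-- an integral form is Lipschitz -/
lemma form_Li (hna : ∀ x y : L, w (x + y) ≤ max (w x) (w y)) {F : MvPolynomial (Fin 2) L}
    (hFi : ∀ s, w (F.coeff s) ≤ 1) : Li w (fun u _ => eval u F) := by
  have e : (fun (u : Fin 2 → L) (_ : Fin 2 → L) => eval u F) = fun u _ =>
      ∑ s ∈ F.support, F.coeff s * (u 0 ^ s 0 * u 1 ^ s 1) := by
    funext u _
    rw [eval_eq']
    simp only [Fin.prod_univ_two]
  rw [e]
  exact Li.sum _ hna fun s _ => (Li.const (hFi s)).mul hna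
    (((Li.fst 0).pow hna _).mul hna ((Li.fst 1).pow hna _))

/-- **the map given by integral forms** -/
theorem gd_phi (hna : ∀ x y : L, w (x + y) ≤ max (w x) (w y)) {F G : MvPolynomial (Fin 2) L}
    {m : ℕ} (hF : F.IsHomogeneous m) (hG : G.IsHomogeneous m) (hFi : ∀ s, w (F.coeff s) ≤ 1)
    (hGi : ∀ s, w (G.coeff s) ≤ 1) : Gd w (Phi F G) := by
  classical
  have hFL := form_Li hna hFi
  have hGL := form_Li hna hGi
  refine ⟨?_, ?_, ?_⟩
  · intro u hu
    exact max_le (hFL u u u u hu hu hu hu).1 (hGL u u u u hu hu hu hu).1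
  · intro u u' hu hu'
    refine max_le ?_ ?_
    · have h := (hFL u u u' u' hu hu hu' hu').2
      rw [max_self] at h
      exact h
    · have h := (hGL u u u' u' hu hu hu' hu').2
      rw [max_self] at h
      exact h
  · have hdeg : ∀ {H : MvPolynomial (Fin 2) L}, H.IsHomogeneous m → ∀ s ∈ H.support,
        s 0 + s 1 = m := by
      intro H hH s hs
      have h1 := hH (mem_support_iff.mp hs)
      rw [← h1]
      simp [Finsupp.weight_apply, Finsupp.sum_fintype, Fin.sum_univ_two]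
    have hch : ∀ s t : Fin 2 →₀ ℕ, ∃ H : (Fin 2 → L) → (Fin 2 → L) → L,
        (s ∈ F.support → t ∈ G.support → Li w H ∧ ∀ u v : Fin 2 → L,
        u 0 ^ s 0 * u 1 ^ s 1 * (v 0 ^ t 0 * v 1 ^ t 1) -
          v 0 ^ s 0 * v 1 ^ s 1 * (u 0 ^ t 0 * u 1 ^ t 1) = br u v * H u v) := by
      intro s t
      by_cases hs : s ∈ F.support
      · by_cases ht : t ∈ G.support
        · obtain ⟨H, h1, h2⟩ := mono_H hna (hdeg hF s hs) (hdeg hG t ht)
          exact ⟨H, fun _ _ => ⟨h1, h2⟩⟩
        · exact ⟨fun _ _ => 0, fun _ h => absurd h ht⟩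
      · exact ⟨fun _ _ => 0, fun h => absurd h hs⟩
    choose H hH using hch
    refine ⟨fun u v => ∑ s ∈ F.support, ∑ t ∈ G.support,
      F.coeff s * G.coeff t * H s t u v, ?_, ?_⟩
    · refine Li.sum _ hna fun s hs => Li.sum _ hna fun t ht => ?_
      have h1 : Li w (fun _ _ => F.coeff s * G.coeff t) := by
        apply Li.const
        rw [map_mul]
        exact mul_le_one₀ (hFi s) (w.nonneg _) (hGi t)
      exact h1.mul hna (hH s t hs ht).1
    · intro u v
      have e1 : br (Phi F G u) (Phi F G v) = eval u F * eval v G - eval v F * eval u G := by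
        unfold br Phi
        simp; ring
      rw [e1, eval_eq', eval_eq', eval_eq', eval_eq', Finset.sum_mul_sum, Finset.sum_mul_sum,
        ← Finset.sum_sub_distrib, Finset.mul_sum]
      apply Finset.sum_congr rfl
      intro s hs
      rw [← Finset.sum_sub_distrib, Finset.mul_sum]
      apply Finset.sum_congr rfl
      intro t ht
      have h2 := (hH s t hs ht).2 u v
      simp only [Fin.prod_univ_two]
      linear_combination (F.coeff s * G.coeff t) * h2

lemma Gd.comp {Ψ Ψ' : (Fin 2 → L) → (Fin 2 → L)}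
    (hna : ∀ x y : L, w (x + y) ≤ max (w x) (w y)) (h : Gd w Ψ) (h' : Gd w Ψ') :
    Gd w (fun u => Ψ' (Ψ u)) := by
  obtain ⟨a1, a2, H, a3, a4⟩ := h
  obtain ⟨b1, b2, H', b3, b4⟩ := h'
  refine ⟨fun u hu => b1 _ (a1 _ hu), fun u u' hu hu' =>
    (b2 _ _ (a1 _ hu) (a1 _ hu')).trans (a2 _ _ hu hu'), fun u v => H' (Ψ u) (Ψ v) * H u v, ?_, ?_⟩
  · refine Li.mul hna ?_ a3
    intro u v u' v' hu hv hu' hv'
    obtain ⟨c1, c2⟩ := b3 (Ψ u) (Ψ v) (Ψ u') (Ψ v') (a1 _ hu) (a1 _ hv) (a1 _ hu') (a1 _ hv')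
    exact ⟨c1, c2.trans (max_le_max (a2 _ _ hu hu') (a2 _ _ hv hv'))⟩
  · intro u v
    rw [b4, a4]
    ring

lemma Gd.id : Gd w (fun u => u) := by
  refine ⟨fun u hu => hu, fun u u' _ _ => le_refl _, fun _ _ => 1, Li.const (by rw [map_one]), ?_⟩
  intro u v
  rw [mul_one]

lemma Gd.iterate {Ψ : (Fin 2 → L) → (Fin 2 → L)}
    (hna : ∀ x y : L, w (x + y) ≤ max (w x) (w y)) (h : Gd w Ψ) (n : ℕ) : Gd w (Ψ^[n]) := by
  induction n with
  | zero => exact Gd.id
  | succ n ih =>
    have := ih.comp hna h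
    rw [Function.iterate_succ']
    exact this

/-- scaling a vector close to `v` -/
lemma scale_close (hna : ∀ x y : L, w (x + y) ≤ max (w x) (w y)) {v z : Fin 2 → L}
    (hv : nm w v = 1) (hz : nm w z = 1) (h : w (br v z) < 1) :
    ∃ c : L, w c = 1 ∧ nm w (v - c • z) ≤ w (br v z) := by
  have hsub : ∀ x y : L, w x = 1 → w y < 1 → w (x - y) = 1 := by
    intro x y hx hy
    apply le_antisymm
    · rw [sub_eq_add_neg]
      refine (hna _ _).trans (max_le hx.le ?_)
      rw [w.map_neg]; exact hy.le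
    · by_contra hcon
      rw [not_le] at hcon
      have h1 := hna (x - y) y
      rw [sub_add_cancel, hx] at h1
      exact absurd h1 (not_le.2 (max_lt hcon hy))
  have key : ∀ i j : Fin 2, i ≠ j → w (v i) = 1 →
      ∃ c : L, w c = 1 ∧ nm w (v - c • z) ≤ w (br v z) := by
    intro i j hij hi
    have hbr : w (br v z) = w (v i * z j - v j * z i) := by
      unfold br
      fin_cases i <;> fin_cases j
      · exact absurd rfl hij
      · rfl
      · show w (v 0 * z 1 - v 1 * z 0) = w (v 1 * z 0 - v 0 * z 1)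
        rw [← w.map_neg]
        congr 1
        ring
      · exact absurd rfl hij
    have hnm : ∀ u : Fin 2 → L, nm w u = max (w (u i)) (w (u j)) := by
      intro u
      unfold nm
      fin_cases i <;> fin_cases j
      · exact absurd rfl hij
      · rfl
      · exact max_comm _ _
      · exact absurd rfl hij
    have hzi : w (z i) = 1 := by
      by_contra hne
      have h1 : w (z i) ≤ 1 := (le_nm w z i).trans hz.le
      have h2 : w (z i) < 1 := lt_of_le_of_ne h1 hne
      have h3 : w (z j) = 1 := by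
        have h4 := hnm z
        rw [hz] at h4
        rcases max_choice (w (z i)) (w (z j)) with h5 | h5
        · rw [h5] at h4; exact absurd h4.symm hne
        · rw [h5] at h4; exact h4.symm
      have h4 : w (v i * z j - v j * z i) = 1 := by
        apply hsub
        · rw [map_mul, hi, h3, one_mul]
        · rw [map_mul]
          have h5 : w (v j) ≤ 1 := (le_nm w v j).trans hv.le
          calc w (v j) * w (z i) ≤ 1 * w (z i) := mul_le_mul_of_nonneg_right h5 (w.nonneg _)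
            _ < 1 := by rw [one_mul]; exact h2
      rw [hbr, h4] at h
      exact lt_irrefl _ h
    have hz0 : z i ≠ 0 := by
      intro h0
      rw [h0, map_zero] at hzi
      exact zero_ne_one hzi
    refine ⟨v i / z i, by rw [map_div₀, hi, hzi, div_one], ?_⟩
    rw [hnm, hbr]
    apply max_le
    · rw [Pi.sub_apply, Pi.smul_apply, smul_eq_mul, div_mul_cancel₀ _ hz0, sub_self, map_zero]
      exact w.nonneg _
    · rw [Pi.sub_apply, Pi.smul_apply, smul_eq_mul]
      have e : v i * z j - v j * z i = -(z i * (v j - v i / z i * z j)) := by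
        field_simp
        ring
      rw [e, w.map_neg, map_mul, hzi, one_mul]
  rcases max_choice (w (v 0)) (w (v 1)) with h5 | h5
  · exact key 0 1 (by decide) (by
      have : nm w v = w (v 0) := h5
      rw [← this]; exact hv)
  · exact key 1 0 (by decide) (by
      have : nm w v = w (v 1) := h5
      rw [← this]; exact hv)

/-- scaling a vector to a unit vector -/
lemma scale_unit {u : Fin 2 → L} (hu : u ≠ 0) : ∃ c : L, c ≠ 0 ∧ nm w (c • u) = 1 := by
  have h := nm_pos w hu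
  rcases le_total (w (u 0)) (w (u 1)) with h1 | h1
  · have h2 : nm w u = w (u 1) := max_eq_right h1
    have h3 : u 1 ≠ 0 := by
      intro h0; rw [h2, h0, map_zero] at h; exact lt_irrefl _ h
    refine ⟨(u 1)⁻¹, inv_ne_zero h3, ?_⟩
    rw [nm_smul, h2, map_inv₀]
    exact inv_mul_cancel₀ (w.ne_zero h3)
  · have h2 : nm w u = w (u 0) := max_eq_left h1
    have h3 : u 0 ≠ 0 := by
      intro h0; rw [h2, h0, map_zero] at h; exact lt_irrefl _ h
    refine ⟨(u 0)⁻¹, inv_ne_zero h3, ?_⟩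
    rw [nm_smul, h2, map_inv₀]
    exact inv_mul_cancel₀ (w.ne_zero h3)

lemma dL_unit {u v : Fin 2 → L} (hu : nm w u = 1) (hv : nm w v = 1) :
    dL w u v = w (br u v) := by
  unfold dL
  rw [hu, hv, mul_one, div_one]

lemma br_le_nm (hna : ∀ x y : L, w (x + y) ≤ max (w x) (w y)) (u v : Fin 2 → L) :
    w (br u v) ≤ nm w u * nm w v := by
  unfold br
  rw [sub_eq_add_neg]
  refine (hna _ _).trans (max_le ?_ ?_)
  · rw [map_mul]
    exact mul_le_mul (le_nm w u 0) (le_nm w v 1) (w.nonneg _) (nm_nonneg w _)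
  · rw [w.map_neg, map_mul]
    exact mul_le_mul (le_nm w u 1) (le_nm w v 0) (w.nonneg _) (nm_nonneg w _)

/-- distances are at most one -/
lemma dL_le_one (hna : ∀ x y : L, w (x + y) ≤ max (w x) (w y)) {u v : Fin 2 → L} (hu : u ≠ 0)
    (hv : v ≠ 0) : dL w u v ≤ 1 := by
  unfold dL
  have h1 := nm_pos w hu
  have h2 := nm_pos w hv
  rw [div_le_one (by positivity)]
  exact br_le_nm hna u v

/-- **Rigidity**: if the distance of `u` and `v` is preserved, so is that of `u` and any `z` close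
to `v`. -/
theorem rig_unit (hna : ∀ x y : L, w (x + y) ≤ max (w x) (w y)) {Ψ : (Fin 2 → L) → (Fin 2 → L)}
    (hΨ : Gd w Ψ) {m : ℕ} (hom : ∀ (c : L) u, Ψ (c • u) = c ^ m • Ψ u) {u v z : Fin 2 → L}
    (hu : nm w u = 1) (hv : nm w v = 1) (hz : nm w z = 1) (hvz : w (br v z) < 1)
    (h0 : 0 < w (br u v)) (h : w (br (Ψ u) (Ψ v)) = w (br u v)) :
    w (br (Ψ u) (Ψ z)) = w (br u z) := by
  obtain ⟨-, -, H, hH, hb⟩ := hΨ
  obtain ⟨c, hc, hcz⟩ := scale_close hna hv hz hvz
  have hcz1 : nm w (c • z) = 1 := by rw [nm_smul, hc, hz, one_mul]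
  have h1 : w (H u v) = 1 := by
    rw [hb, map_mul] at h
    exact mul_left_cancel₀ h0.ne' (by rw [h, mul_one])
  obtain ⟨h2, h3⟩ := hH u v u (c • z) hu.le hv.le hu.le hcz1.le
  have h4 : w (H u v - H u (c • z)) < 1 := by
    refine lt_of_le_of_lt h3 (max_lt ?_ (lt_of_le_of_lt hcz hvz))
    rw [sub_self]
    unfold nm
    simp
  have h5 : w (H u (c • z)) = 1 := by
    apply le_antisymm (hH u (c • z) u v hu.le hcz1.le hu.le hv.le).1
    by_contra hcon
    rw [not_le] at hcon
    have h6 := hna (H u v - H u (c • z)) (H u (c • z))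
    rw [sub_add_cancel, h1] at h6
    exact absurd h6 (not_le.2 (max_lt h4 hcon))
  have h6 := hb u (c • z)
  have hbr : ∀ a b : Fin 2 → L, ∀ e : L, br a (e • b) = e * br a b := by
    intro a b e
    have := br_smul 1 e a b
    rwa [one_smul, one_mul] at this
  rw [hom, hbr, hbr] at h6
  have h7 : w (c ^ m * br (Ψ u) (Ψ z)) = w (c * br u z * H u (c • z)) := by rw [h6]
  rw [map_mul, map_mul, map_mul, map_pow, hc, h5, one_pow, one_mul, one_mul, mul_one] at h7
  exact h7

end Pool.Agent.K3h68.UP
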