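import Mathlib
import Pool.Agent.H892.PGK.Glob
import Pool.Agent.K3h68.UP.Loc
import Pool.Agent.K3h68.UP.Abs

set_option autoImplicit false

/-!
# From potentially good reduction to distances on the rational points
-/

namespace Pool.Agent.K3h68.UP

open MvPolynomial
open Pool.Agent.H892.PGR
open Pool.Agent.H892.PGK (PotGood PP fX fX_mk br_zero_iff)

section loc

variable {L : Type*} [Field L] {w : AbsoluteValue L ℝ}

/-- rigidity for the chordal distance -/
theorem dL_rig (hna : ∀ x y : L, w (x + y) ≤ max (w x) (w y))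
    {F G : MvPolynomial (Fin 2) L} {m : ℕ} (hF : F.IsHomogeneous m)
    (hG : G.IsHomogeneous m) (hFi : ∀ s, w (F.coeff s) ≤ 1) (hGi : ∀ s, w (G.coeff s) ≤ 1)
    (hR : ∀ u : Fin 2 → L, nm w u = 1 → nm w (Phi F G u) = 1)
    {u v z : Fin 2 → L} (hu : u ≠ 0) (hv : v ≠ 0) (hz : z ≠ 0) (hvz : dL w v z < 1)
    (h0 : 0 < dL w u v) (h : dL w (Phi F G u) (Phi F G v) = dL w u v) :
    dL w (Phi F G u) (Phi F G z) = dL w u z := by
  obtain ⟨a, ha, hau⟩ := scale_unit (w := w) hu
  obtain ⟨b, hb, hbv⟩ := scale_unit (w := w) hv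
  obtain ⟨c, hc, hcz⟩ := scale_unit (w := w) hz
  rw [← dL_smul w ha hb u v, dL_unit hau hbv] at h0
  rw [← dL_smul w hb hc v z, dL_unit hbv hcz] at hvz
  rw [← dL_smul w ha hb u v, dL_unit hau hbv,
    ← dL_smul w (pow_ne_zero m ha) (pow_ne_zero m hb) (Phi F G u),
    ← phi_smul hF hG, ← phi_smul hF hG, dL_unit (hR _ hau) (hR _ hbv)] at h
  rw [← dL_smul w ha hc u z, dL_unit hau hcz,
    ← dL_smul w (pow_ne_zero m ha) (pow_ne_zero m hc) (Phi F G u),
    ← phi_smul hF hG, ← phi_smul hF hG, dL_unit (hR _ hau) (hR _ hcz)]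
  exact rig_unit hna (gd_phi hna hF hG hFi hGi) (fun e x => phi_smul hF hG e x) hau hbv hcz hvz
    h0 h

end loc

variable {K : Type} [Field K]

/-- the data at one place -/
structure LD (a : AbsoluteValue K ℝ) (f : PP K → PP K) (N : PP K → ℝ) : Prop where
  N_pos : ∀ x, 0 < N x
  ultra : ∀ x y z : PP K, a (br x.rep z.rep) / (N x * N z) ≤
        max (a (br x.rep y.rep) / (N x * N y))
          (a (br y.rep z.rep) / (N y * N z))
  nonexp : ∀ x y : PP K, a (br (f x).rep (f y).rep) / (N (f x) * N (f y)) ≤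
        a (br x.rep y.rep) / (N x * N y)
  le_one : ∀ x y : PP K, a (br x.rep y.rep) / (N x * N y) ≤ 1
  rig : ∀ x y z : PP K, a (br y.rep z.rep) / (N y * N z) < 1 →
    0 < a (br x.rep y.rep) / (N x * N y) →
    a (br (f x).rep (f y).rep) / (N (f x) * N (f y)) = a (br x.rep y.rep) / (N x * N y) →
    a (br (f x).rep (f z).rep) / (N (f x) * N (f z)) = a (br x.rep z.rep) / (N x * N z)

/-- the data at one place, from potentially good reduction -/
lemma exists_ld {F G : MvPolynomial (Fin 2) K} {d : ℕ} {a : AbsoluteValue K ℝ}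
    (h : ∀ v : Fin 2 → K, v ≠ 0 → Phi F G v ≠ 0) (hp : PotGood a F G d) :
    ∃ N : PP K → ℝ, LD a (fX F G h) N := by
  obtain ⟨L, _, _, w, A, c, F₁, G₁, hna, hw, hA, hc, hF₁, hG₁, hFi, hGi, hR, hconj⟩ := hp
  let ι : (Fin 2 → K) → (Fin 2 → L) := fun v i => algebraMap K L (v i)
  have hι : ∀ v, v ≠ 0 → ι v ≠ 0 := by
    intro v hv h0
    apply hv
    ext i
    have : algebraMap K L (v i) = 0 := congrFun h0 i
    exact (map_eq_zero _).mp this
  let B : PP K → (Fin 2 → L) := fun x => A.mulVec (ι x.rep)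
  have hA0 : ∀ u : Fin 2 → L, u ≠ 0 → A.mulVec u ≠ 0 := by
    intro u hu h0
    exact hu (Matrix.eq_zero_of_mulVec_eq_zero hA h0)
  have hB : ∀ x, B x ≠ 0 := fun x => hA0 _ (hι _ x.rep_nonzero)
  have hD : 0 < w A.det := w.pos hA
  have hbrA : ∀ u v : Fin 2 → L, br (A.mulVec u) (A.mulVec v) = A.det * br u v := by
    intro u v
    unfold br
    rw [Matrix.det_fin_two]
    simp only [Matrix.mulVec, dotProduct, Fin.sum_univ_two]
    ring
  have hbrι : ∀ u v : Fin 2 → K, br (ι u) (ι v) = algebraMap K L (br u v) := by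
    intro u v
    unfold br
    simp only [ι, map_sub, map_mul]
  have hδ : ∀ x y : PP K, a (br x.rep y.rep) /
      (nm w (B x) / Real.sqrt (w A.det) * (nm w (B y) / Real.sqrt (w A.det))) =
        dL w (B x) (B y) := by
    intro x y
    unfold dL
    simp only [B]
    rw [hbrA, hbrι, map_mul, hw]
    have h1 := nm_pos w (hB x)
    have h2 := nm_pos w (hB y)
    simp only [B] at h1 h2
    have h3 : Real.sqrt (w A.det) * Real.sqrt (w A.det) = w A.det := Real.mul_self_sqrt hD.le
    have h4 : 0 < Real.sqrt (w A.det) := Real.sqrt_pos.mpr hD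
    rw [div_mul_div_comm, h3]
    field_simp
  have hrep : ∀ x : PP K, ∃ μ : L, μ ≠ 0 ∧ B (fX F G h x) = μ • Phi F₁ G₁ (B x) := by
    intro x
    obtain ⟨b, ha⟩ := Projectivization.exists_smul_eq_mk_rep K (Phi F G x.rep)
      (h _ x.rep_nonzero)
    refine ⟨algebraMap K L (b : K) * c,
      mul_ne_zero ((map_ne_zero (algebraMap K L)).mpr b.ne_zero) hc, ?_⟩
    have h1 : (fX F G h x).rep = (b : K) • Phi F G x.rep := by
      unfold fX
      rw [← ha]; rfl
    have h2 : ι ((b : K) • Phi F G x.rep) = algebraMap K L (b : K) •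
        Phi (F.map (algebraMap K L)) (G.map (algebraMap K L)) (ι x.rep) := by
      have hev : ∀ H : MvPolynomial (Fin 2) K,
          algebraMap K L (eval x.rep H) = eval (ι x.rep) (H.map (algebraMap K L)) := by
        intro H
        rw [eval_map]
        exact eval₂_comp (algebraMap K L) x.rep H
      ext i
      fin_cases i
      · change algebraMap K L ((b : K) * eval x.rep F) = algebraMap K L (b : K) *
          eval (ι x.rep) (F.map (algebraMap K L))
        rw [map_mul, hev]
      · change algebraMap K L ((b : K) * eval x.rep G) = algebraMap K L (b : K) *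
          eval (ι x.rep) (G.map (algebraMap K L))
        rw [map_mul, hev]
    simp only [B]
    rw [h1, h2, Matrix.mulVec_smul, hconj, smul_smul]
  have hfx : ∀ x y : PP K, dL w (B (fX F G h x)) (B (fX F G h y)) =
      dL w (Phi F₁ G₁ (B x)) (Phi F₁ G₁ (B y)) := by
    intro x y
    obtain ⟨μ, hμ, h1⟩ := hrep x
    obtain ⟨ν, hν, h2⟩ := hrep y
    rw [h1, h2, dL_smul w hμ hν]
  refine ⟨fun x => nm w (B x) / Real.sqrt (w A.det), ?_, ?_, ?_, ?_, ?_⟩
  · intro x
    have h1 := nm_pos w (hB x)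
    have h4 : 0 < Real.sqrt (w A.det) := Real.sqrt_pos.mpr hD
    positivity
  · intro x y z
    rw [hδ, hδ, hδ]
    exact dL_ultra w hna (hB x) (hB y) (hB z)
  · intro x y
    rw [hδ, hδ, hfx]
    exact dL_phi_le w hna hF₁ hG₁ hFi hGi hR (hB x) (hB y)
  · intro x y
    rw [hδ]
    exact dL_le_one hna (hB x) (hB y)
  · intro x y z
    rw [hδ, hδ, hδ, hδ, hδ, hfx, hfx]
    intro h1 h2 h3
    exact dL_rig hna hF₁ hG₁ hFi hGi hR (hB x) (hB y) (hB z) h1 h2 h3

section sys

variable {V : Type*} {av : V → AbsoluteValue K ℝ} {X : Type*}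

/-- distances at most one -/
def Sys.LeOne (S : Sys K V av X) : Prop := ∀ (p : V) x y, S.δ p x y ≤ 1

/-- rigidity -/
def Sys.Rig (S : Sys K V av X) (f : X → X) : Prop :=
  ∀ (p : V) x y z, S.δ p y z < 1 → 0 < S.δ p x y → S.δ p (f x) (f y) = S.δ p x y →
    S.δ p (f x) (f z) = S.δ p x z

end sys

/-- the system of distances -/
theorem exists_sys {V : Type*} (av : V → AbsoluteValue K ℝ)
    {F G : MvPolynomial (Fin 2) K} {d : ℕ}
    (h : ∀ v : Fin 2 → K, v ≠ 0 → Phi F G v ≠ 0) (hp : ∀ v : V, PotGood (av v) F G d) :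
    ∃ S : Sys K V av (PP K), S.NonExp (fX F G h) ∧ S.LeOne ∧ S.Rig (fX F G h) ∧
      ∀ x y, S.c x y = br x.rep y.rep := by
  classical
  choose N hN using fun (v : V) => exists_ld h (hp v)
  refine ⟨{ c := fun x y => br x.rep y.rep
            c_zero := ?_
            c_symm := ?_
            pl := ?_
            N := N
            N_pos := fun v => (hN v).N_pos
            ultra := fun v => (hN v).ultra }, fun v => (hN v).nonexp, fun v => (hN v).le_one,
            fun v => (hN v).rig, fun _ _ => rfl⟩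
  · intro x y
    have := br_zero_iff x.rep_nonzero y.rep_nonzero
    rw [Projectivization.mk_rep, Projectivization.mk_rep] at this
    exact this
  · intro x y
    unfold br; ring
  · intro a b e g
    unfold br; ring

end Pool.Agent.K3h68.UP
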