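import Mathlib
import Pool.Agent.K3h68.UP.Bridge

set_option autoImplicit false

/-!
# Local theory: a return map in an affine coordinate
-/

namespace Pool.Agent.K3h68.UP

open MvPolynomial
open Pool.Agent.H892.PGR
open Pool.Agent.H892.PGK (PotGood PP fX fX_mk br_zero_iff)

section loc

variable {L : Type*} [Field L] {w : AbsoluteValue L ℝ}

/-- the sign in the formula for the bracket of normalised vectors -/
def sgn2 (L : Type*) [Field L] (i : Fin 2) : L := if i = 0 then -1 else 1

lemma br_norm {i j : Fin 2} (hij : i ≠ j) {u v : Fin 2 → L} (hu : u i = 1) (hv : v i = 1) :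
    br u v = sgn2 L i * (u j - v j) := by
  unfold br sgn2
  fin_cases i <;> fin_cases j
  · exact absurd rfl hij
  · have hu' : u 0 = 1 := hu
    have hv' : v 0 = 1 := hv
    rw [hu', hv']
    simp
  · have hu' : u 1 = 1 := hu
    have hv' : v 1 = 1 := hv
    rw [hu', hv']
    simp
  · exact absurd rfl hij

lemma w_sgn2 (i : Fin 2) : w (sgn2 L i) = 1 := by
  unfold sgn2
  split_ifs
  · rw [w.map_neg, map_one]
  · rw [map_one]

lemma sgn2_ne (i : Fin 2) : sgn2 L i ≠ 0 := by
  unfold sgn2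
  split_ifs <;> simp

lemma w_br_norm {i j : Fin 2} (hij : i ≠ j) {u v : Fin 2 → L} (hu : u i = 1) (hv : v i = 1) :
    w (br u v) = w (u j - v j) := by
  rw [br_norm hij hu hv, map_mul, w_sgn2, one_mul]

lemma nm_two {i j : Fin 2} (hij : i ≠ j) (u : Fin 2 → L) : nm w u = max (w (u i)) (w (u j)) := by
  unfold nm
  fin_cases i <;> fin_cases j
  · exact absurd rfl hij
  · rfl
  · exact max_comm _ _
  · exact absurd rfl hij

lemma coord_one (hna : ∀ x y : L, w (x + y) ≤ max (w x) (w y)) {v z : Fin 2 → L} {i : Fin 2}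
    (hv : nm w v = 1) (hz : nm w z = 1) (hi : w (v i) = 1) (h : w (br v z) < 1) :
    w (z i) = 1 := by
  have hsub : ∀ x y : L, w x = 1 → w y < 1 → w (x - y) = 1 := by
    intro x y hx hy
    apply le_antisymm
    · rw [sub_eq_add_neg]
      refine (hna _ _).trans (max_le hx.le ?_)
      rw [w.map_neg]; exact hy.le
    · by_contra hcon
      rw [not_le] at hcon
      have h1 := hna (x - y) y
      rw [sub_add_cancel, hx] at h1
      exact absurd h1 (not_le.2 (max_lt hcon hy))
  obtain ⟨j, hij⟩ : ∃ j : Fin 2, i ≠ j := by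
    fin_cases i
    · exact ⟨1, by decide⟩
    · exact ⟨0, by decide⟩
  have hbr : w (br v z) = w (v i * z j - v j * z i) := by
    unfold br
    fin_cases i <;> fin_cases j
    · exact absurd rfl hij
    · rfl
    · show w (v 0 * z 1 - v 1 * z 0) = w (v 1 * z 0 - v 0 * z 1)
      rw [← w.map_neg]
      congr 1
      ring
    · exact absurd rfl hij
  by_contra hne
  have h1 : w (z i) ≤ 1 := (le_nm w z i).trans hz.le
  have h2 : w (z i) < 1 := lt_of_le_of_ne h1 hne
  have h3 : w (z j) = 1 := by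
    have h4 := nm_two (w := w) hij z
    rw [hz] at h4
    rcases max_choice (w (z i)) (w (z j)) with h5 | h5
    · rw [h5] at h4; exact absurd h4.symm hne
    · rw [h5] at h4; exact h4.symm
  have h4 : w (v i * z j - v j * z i) = 1 := by
    apply hsub
    · rw [map_mul, hi, h3, one_mul]
    · rw [map_mul]
      have h5 : w (v j) ≤ 1 := (le_nm w v j).trans hv.le
      calc w (v j) * w (z i) ≤ 1 * w (z i) := mul_le_mul_of_nonneg_right h5 (w.nonneg _)
        _ < 1 := by rw [one_mul]; exact h2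
  rw [hbr, h4] at h
  exact lt_irrefl _ h

/-- the multiplier of a sequence of normalised vectors -/
theorem aff_seq (hna : ∀ x y : L, w (x + y) ≤ max (w x) (w y)) {Ψ : (Fin 2 → L) → (Fin 2 → L)}
    (hΨ : Gd w Ψ) {i j : Fin 2} (hij : i ≠ j) (U : ℕ → (Fin 2 → L)) (hUi : ∀ k, U k i = 1)
    (hU1 : ∀ k, nm w (U k) = 1) (ha : ∀ k, w (Ψ (U k) i) = 1)
    (hs : ∀ k, U (k + 1) = (Ψ (U k) i)⁻¹ • Ψ (U k)) (hc : ∀ k, w (br (U 0) (U k)) < 1) :
    ∃ lam : L, w lam ≤ 1 ∧ ∀ k l, U k j ≠ U l j →
      w ((U (k + 1) j - U (l + 1) j) - lam * (U k j - U l j)) < w (U k j - U l j) := by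
  obtain ⟨-, hlip, H, hH, hb⟩ := hΨ
  set a : ℕ → L := fun k => Ψ (U k) i with hadef
  have ha0 : ∀ k, a k ≠ 0 := by
    intro k h0
    have h1 : w (a k) = 1 := ha k
    rw [h0, map_zero] at h1
    exact zero_ne_one h1
  have hnmd : ∀ k, nm w (U k - U 0) < 1 := by
    intro k
    rw [nm_two hij, Pi.sub_apply, Pi.sub_apply, hUi, hUi, sub_self, map_zero]
    have h1 := hc k
    rw [w_br_norm hij (hUi 0) (hUi k), w.map_sub] at h1
    exact max_lt zero_lt_one h1
  have had : ∀ k, w (a k - a 0) < 1 := by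
    intro k
    have h1 := hlip (U k) (U 0) (hU1 k).le (hU1 0).le
    have h2 := le_nm w (Ψ (U k) - Ψ (U 0)) i
    exact lt_of_le_of_lt (h2.trans h1) (hnmd k)
  have hHd : ∀ k l, w (H (U k) (U l) - H (U 0) (U 0)) < 1 := by
    intro k l
    have h1 := (hH (U k) (U l) (U 0) (U 0) (hU1 k).le (hU1 l).le (hU1 0).le (hU1 0).le).2
    exact lt_of_le_of_lt h1 (max_lt (hnmd k) (hnmd l))
  have hH0 : w (H (U 0) (U 0)) ≤ 1 :=
    (hH (U 0) (U 0) (U 0) (U 0) (hU1 0).le (hU1 0).le (hU1 0).le (hU1 0).le).1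
  have hwa : ∀ k, w (a k) = 1 := ha
  refine ⟨H (U 0) (U 0) / (a 0 * a 0), ?_, ?_⟩
  · rw [map_div₀, map_mul, hwa, mul_one, div_one]
    exact hH0
  · intro k l hkl
    have hrel : U (k + 1) j - U (l + 1) j =
        (U k j - U l j) * (H (U k) (U l) / (a k * a l)) := by
      have h1 : br (U (k + 1)) (U (l + 1)) =
          br (U k) (U l) * H (U k) (U l) / (a k * a l) := by
        have h2 := br_smul (a k)⁻¹ (a l)⁻¹ (Ψ (U k)) (Ψ (U l))
        rw [← hb, hs k, hs l]
        show br ((a k)⁻¹ • Ψ (U k)) ((a l)⁻¹ • Ψ (U l)) = _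
        rw [h2]
        have e1 := ha0 k
        have e2 := ha0 l
        field_simp
      rw [br_norm hij (hUi _) (hUi _), br_norm hij (hUi _) (hUi _)] at h1
      apply mul_left_cancel₀ (sgn2_ne (L := L) i)
      rw [h1]
      ring
    have hlt : w (H (U k) (U l) / (a k * a l) - H (U 0) (U 0) / (a 0 * a 0)) < 1 := by
      have e : H (U k) (U l) / (a k * a l) - H (U 0) (U 0) / (a 0 * a 0) =
          ((H (U k) (U l) - H (U 0) (U 0)) * (a 0 * a 0) +
            (-(H (U 0) (U 0) * (a 0 * (a k - a 0))) + -(H (U 0) (U 0) * (a k * (a l - a 0))))) /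
            (a k * a l * (a 0 * a 0)) := by
        have e1 := ha0 k
        have e2 := ha0 l
        have e3 := ha0 0
        field_simp
        ring
      rw [e, map_div₀]
      have e2 : w (a k * a l * (a 0 * a 0)) = 1 := by
        rw [map_mul, map_mul, map_mul, hwa, hwa, hwa]; ring
      rw [e2, div_one]
      refine lt_of_le_of_lt (hna _ _) (max_lt ?_ (lt_of_le_of_lt (hna _ _) (max_lt ?_ ?_)))
      · rw [map_mul, map_mul, hwa, mul_one, mul_one]
        exact hHd k l
      · rw [w.map_neg, map_mul, map_mul, hwa, one_mul]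
        calc w (H (U 0) (U 0)) * w (a k - a 0) ≤ 1 * w (a k - a 0) :=
              mul_le_mul_of_nonneg_right hH0 (w.nonneg _)
          _ < 1 := by rw [one_mul]; exact had k
      · rw [w.map_neg, map_mul, map_mul, hwa, one_mul]
        calc w (H (U 0) (U 0)) * w (a l - a 0) ≤ 1 * w (a l - a 0) :=
              mul_le_mul_of_nonneg_right hH0 (w.nonneg _)
          _ < 1 := by rw [one_mul]; exact had l
    rw [hrel, show (U k j - U l j) * (H (U k) (U l) / (a k * a l)) -
      H (U 0) (U 0) / (a 0 * a 0) * (U k j - U l j) =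
      (H (U k) (U l) / (a k * a l) - H (U 0) (U 0) / (a 0 * a 0)) * (U k j - U l j) by ring,
      map_mul]
    have hpos : 0 < w (U k j - U l j) := w.pos (sub_ne_zero.2 hkl)
    calc _ < 1 * w (U k j - U l j) := mul_lt_mul_of_pos_right hlt hpos
      _ = _ := one_mul _

end loc

variable {K : Type} [Field K]

/-- the affine coordinate along the orbit of a return map -/
def AffP (a : AbsoluteValue K ℝ) (δ : PP K → PP K → ℝ) (f : PP K → PP K) : Prop :=
  ∀ (x : PP K) (m : ℕ), δ x (f^[m] x) < 1 →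
    ∃ (L : Type) (_ : Field L) (w : AbsoluteValue L ℝ) (t : ℕ → L) (lam : L),
      (∀ x y : L, w (x + y) ≤ max (w x) (w y)) ∧ (∀ n : ℕ, w (n : L) = a (n : K)) ∧
      w lam ≤ 1 ∧ (∀ i j, w (t i - t j) = δ (f^[m * i] x) (f^[m * j] x)) ∧
      (∀ i j, t i ≠ t j →
        w ((t (i + 1) - t (j + 1)) - lam * (t i - t j)) < w (t i - t j))

/-- the local system at one place, with the affine coordinates -/
theorem exists_local {F G : MvPolynomial (Fin 2) K} {d : ℕ} {a : AbsoluteValue K ℝ}
    (h : ∀ v : Fin 2 → K, v ≠ 0 → Phi F G v ≠ 0) (hp : PotGood a F G d) :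
    ∃ S : Sys K Unit (fun _ => a) (PP K), S.NonExp (fX F G h) ∧ S.LeOne ∧
      AffP a (S.δ ()) (fX F G h) := by
  obtain ⟨L, _, _, w, A, c, F₁, G₁, hna, hw, hA, hc, hF₁, hG₁, hFi, hGi, hR, hconj⟩ := hp
  let ι : (Fin 2 → K) → (Fin 2 → L) := fun v i => algebraMap K L (v i)
  have hι : ∀ v, v ≠ 0 → ι v ≠ 0 := by
    intro v hv h0
    apply hv
    ext i
    have : algebraMap K L (v i) = 0 := congrFun h0 i
    exact (map_eq_zero _).mp this
  let B : PP K → (Fin 2 → L) := fun x => A.mulVec (ι x.rep)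
  have hA0 : ∀ u : Fin 2 → L, u ≠ 0 → A.mulVec u ≠ 0 := by
    intro u hu h0
    exact hu (Matrix.eq_zero_of_mulVec_eq_zero hA h0)
  have hB : ∀ x, B x ≠ 0 := fun x => hA0 _ (hι _ x.rep_nonzero)
  have hD : 0 < w A.det := w.pos hA
  have hbrA : ∀ u v : Fin 2 → L, br (A.mulVec u) (A.mulVec v) = A.det * br u v := by
    intro u v
    unfold br
    rw [Matrix.det_fin_two]
    simp only [Matrix.mulVec, dotProduct, Fin.sum_univ_two]
    ring
  have hbrι : ∀ u v : Fin 2 → K, br (ι u) (ι v) = algebraMap K L (br u v) := by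
    intro u v
    unfold br
    simp only [ι, map_sub, map_mul]
  have hδ : ∀ x y : PP K, a (br x.rep y.rep) /
      (nm w (B x) / Real.sqrt (w A.det) * (nm w (B y) / Real.sqrt (w A.det))) =
        dL w (B x) (B y) := by
    intro x y
    unfold dL
    simp only [B]
    rw [hbrA, hbrι, map_mul, hw]
    have h1 := nm_pos w (hB x)
    have h2 := nm_pos w (hB y)
    simp only [B] at h1 h2
    have h3 : Real.sqrt (w A.det) * Real.sqrt (w A.det) = w A.det := Real.mul_self_sqrt hD.le
    have h4 : 0 < Real.sqrt (w A.det) := Real.sqrt_pos.mpr hD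
    rw [div_mul_div_comm, h3]
    field_simp
  have hrep : ∀ x : PP K, ∃ μ : L, μ ≠ 0 ∧ B (fX F G h x) = μ • Phi F₁ G₁ (B x) := by
    intro x
    obtain ⟨b, ha⟩ := Projectivization.exists_smul_eq_mk_rep K (Phi F G x.rep)
      (h _ x.rep_nonzero)
    refine ⟨algebraMap K L (b : K) * c,
      mul_ne_zero ((map_ne_zero (algebraMap K L)).mpr b.ne_zero) hc, ?_⟩
    have h1 : (fX F G h x).rep = (b : K) • Phi F G x.rep := by
      unfold fX
      rw [← ha]; rfl
    have h2 : ι ((b : K) • Phi F G x.rep) = algebraMap K L (b : K) •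
        Phi (F.map (algebraMap K L)) (G.map (algebraMap K L)) (ι x.rep) := by
      have hev : ∀ H : MvPolynomial (Fin 2) K,
          algebraMap K L (eval x.rep H) = eval (ι x.rep) (H.map (algebraMap K L)) := by
        intro H
        rw [eval_map]
        exact eval₂_comp (algebraMap K L) x.rep H
      ext i
      fin_cases i
      · change algebraMap K L ((b : K) * eval x.rep F) = algebraMap K L (b : K) *
          eval (ι x.rep) (F.map (algebraMap K L))
        rw [map_mul, hev]
      · change algebraMap K L ((b : K) * eval x.rep G) = algebraMap K L (b : K) *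
          eval (ι x.rep) (G.map (algebraMap K L))
        rw [map_mul, hev]
    simp only [B]
    rw [h1, h2, Matrix.mulVec_smul, hconj, smul_smul]
  have hfx : ∀ x y : PP K, dL w (B (fX F G h x)) (B (fX F G h y)) =
      dL w (Phi F₁ G₁ (B x)) (Phi F₁ G₁ (B y)) := by
    intro x y
    obtain ⟨μ, hμ, h1⟩ := hrep x
    obtain ⟨ν, hν, h2⟩ := hrep y
    rw [h1, h2, dL_smul w hμ hν]
  let S : Sys K Unit (fun _ => a) (PP K) :=
    { c := fun x y => br x.rep y.rep
      c_zero := by
        intro x y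
        have := br_zero_iff x.rep_nonzero y.rep_nonzero
        rw [Projectivization.mk_rep, Projectivization.mk_rep] at this
        exact this
      c_symm := by intro x y; unfold br; ring
      pl := by intro a b e g; unfold br; ring
      N := fun _ x => nm w (B x) / Real.sqrt (w A.det)
      N_pos := by
        intro _ x
        have h1 := nm_pos w (hB x)
        have h4 : 0 < Real.sqrt (w A.det) := Real.sqrt_pos.mpr hD
        positivity
      ultra := by
        intro _ x y z
        rw [hδ, hδ, hδ]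
        exact dL_ultra w hna (hB x) (hB y) (hB z) }
  have hSδ : ∀ x y, S.δ () x y = dL w (B x) (B y) := fun x y => hδ x y
  have hne : S.NonExp (fX F G h) := by
    intro p x y
    show S.δ () _ _ ≤ S.δ () _ _
    rw [hSδ, hSδ, hfx]
    exact dL_phi_le w hna hF₁ hG₁ hFi hGi hR (hB x) (hB y)
  refine ⟨S, hne, ?_, ?_⟩
  · intro p x y
    show S.δ () _ _ ≤ 1
    rw [hSδ]
    exact dL_le_one hna (hB x) (hB y)
  · intro x m hm
    set f := fX F G h with hf
    set Ψ : (Fin 2 → L) → (Fin 2 → L) := (Phi F₁ G₁)^[m] with hΨdef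
    have hΨ : Gd w Ψ := (gd_phi hna hF₁ hG₁ hFi hGi).iterate hna m
    have hΨR : ∀ u : Fin 2 → L, nm w u = 1 → nm w (Ψ u) = 1 := by
      have : ∀ k (u : Fin 2 → L), nm w u = 1 → nm w ((Phi F₁ G₁)^[k] u) = 1 := by
        intro k
        induction k with
        | zero => intro u hu; exact hu
        | succ k ih =>
          intro u hu
          rw [Function.iterate_succ_apply']
          exact hR _ (ih u hu)
      exact this m
    have hΨs : ∀ (e : L) (u : Fin 2 → L), e ≠ 0 → ∃ e' : L, e' ≠ 0 ∧ Ψ (e • u) = e' • Ψ u := by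
      have : ∀ k (e : L) (u : Fin 2 → L), e ≠ 0 →
          ∃ e' : L, e' ≠ 0 ∧ (Phi F₁ G₁)^[k] (e • u) = e' • (Phi F₁ G₁)^[k] u := by
        intro k
        induction k with
        | zero => intro e u he; exact ⟨e, he, rfl⟩
        | succ k ih =>
          intro e u he
          obtain ⟨e', he', h1⟩ := ih e u he
          refine ⟨e' ^ d, pow_ne_zero _ he', ?_⟩
          rw [Function.iterate_succ_apply', Function.iterate_succ_apply', h1,
            phi_smul hF₁ hG₁]
      exact this m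
    have hrepm : ∀ y : PP K, ∃ μ : L, μ ≠ 0 ∧ B (f^[m] y) = μ • Ψ (B y) := by
      have : ∀ k (y : PP K), ∃ μ : L, μ ≠ 0 ∧ B (f^[k] y) = μ • (Phi F₁ G₁)^[k] (B y) := by
        intro k
        induction k with
        | zero => intro y; exact ⟨1, one_ne_zero, by rw [one_smul]; rfl⟩
        | succ k ih =>
          intro y
          obtain ⟨μ, hμ, h1⟩ := ih y
          obtain ⟨ν, hν, h2⟩ := hrep (f^[k] y)
          refine ⟨ν * μ ^ d, mul_ne_zero hν (pow_ne_zero _ hμ), ?_⟩
          rw [Function.iterate_succ_apply', Function.iterate_succ_apply', h2, h1,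
            phi_smul hF₁ hG₁, smul_smul]
      exact this m
    -- all points stay in the residue class
    have hδk : ∀ k, S.δ () x (f^[m * k] x) < 1 := by
      intro k
      induction k with
      | zero =>
        rw [Nat.mul_zero, Function.iterate_zero, id, S.self]
        exact zero_lt_one
      | succ k ih =>
        have h1 := S.ultra' () x (f^[m] x) (f^[m * (k + 1)] x)
        have h2 := hne.iterate m () x (f^[m * k] x)
        rw [← Function.iterate_add_apply, show m + m * k = m * (k + 1) by ring] at h2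
        exact lt_of_le_of_lt h1 (max_lt hm (lt_of_le_of_lt h2 ih))
    obtain ⟨c₀, hc₀, hu₀⟩ := scale_unit (w := w) (hB x)
    obtain ⟨i, j, hij, hi⟩ : ∃ i j : Fin 2, i ≠ j ∧ w ((c₀ • B x) i) = 1 := by
      rcases max_choice (w ((c₀ • B x) 0)) (w ((c₀ • B x) 1)) with h5 | h5
      · refine ⟨0, 1, by decide, ?_⟩
        have : nm w (c₀ • B x) = w ((c₀ • B x) 0) := h5
        rw [← this]; exact hu₀
      · refine ⟨1, 0, by decide, ?_⟩
        have : nm w (c₀ • B x) = w ((c₀ • B x) 1) := h5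
        rw [← this]; exact hu₀
    have hi0 : (c₀ • B x) i ≠ 0 := by
      intro h0
      rw [h0, map_zero] at hi
      exact zero_ne_one hi
    let U : ℕ → (Fin 2 → L) := fun k => Nat.rec (((c₀ • B x) i)⁻¹ • (c₀ • B x))
      (fun _ u => (Ψ u i)⁻¹ • Ψ u) k
    have hUs : ∀ k, U (k + 1) = (Ψ (U k) i)⁻¹ • Ψ (U k) := fun k => rfl
    have hinv : ∀ k, U k i = 1 ∧ nm w (U k) = 1 ∧ (∃ μ : L, μ ≠ 0 ∧ B (f^[m * k] x) = μ • U k) ∧
        w (Ψ (U k) i) = 1 := by
      have base : U 0 i = 1 ∧ nm w (U 0) = 1 ∧ (∃ μ : L, μ ≠ 0 ∧ B x = μ • U 0) := by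
        refine ⟨?_, ?_, ?_⟩
        · show ((c₀ • B x) i)⁻¹ * (c₀ • B x) i = 1
          exact inv_mul_cancel₀ hi0
        · show nm w (((c₀ • B x) i)⁻¹ • (c₀ • B x)) = 1
          rw [nm_smul, hu₀, map_inv₀, hi, inv_one, one_mul]
        · refine ⟨c₀⁻¹ * (c₀ • B x) i, mul_ne_zero (inv_ne_zero hc₀) hi0, ?_⟩
          show B x = (c₀⁻¹ * (c₀ • B x) i) • (((c₀ • B x) i)⁻¹ • (c₀ • B x))
          rw [smul_smul, mul_assoc, mul_inv_cancel₀ hi0, mul_one, smul_smul,
            inv_mul_cancel₀ hc₀, one_smul]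
      have step : ∀ k, nm w (U k) = 1 → (∃ μ : L, μ ≠ 0 ∧ B (f^[m * k] x) = μ • U k) →
          w (Ψ (U k) i) = 1 := by
        intro k h1 ⟨μ, hμ, h2⟩
        obtain ⟨ν, hν, h3⟩ := hrepm (f^[m * k] x)
        obtain ⟨e', he', h4⟩ := hΨs μ (U k) hμ
        obtain ⟨b1, b2, μ₀, hμ₀, b3⟩ := base
        have h5 := hδk (k + 1)
        rw [show m * (k + 1) = m + m * k by ring, Function.iterate_add_apply, hSδ, h3, h2, h4,
          smul_smul, b3, dL_smul w hμ₀ (mul_ne_zero hν he'), dL_unit b2 (hΨR _ h1)] at h5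
        exact coord_one hna b2 (hΨR _ h1) (by rw [b1, map_one]) h5
      intro k
      induction k with
      | zero =>
        obtain ⟨b1, b2, b3⟩ := base
        have b3' : ∃ μ : L, μ ≠ 0 ∧ B (f^[m * 0] x) = μ • U 0 := by
          rw [Nat.mul_zero]; exact b3
        exact ⟨b1, b2, b3', step 0 b2 b3'⟩
      | succ k ih =>
        obtain ⟨i1, i2, ⟨μ, hμ, i3⟩, i4⟩ := ih
        have hne0 : Ψ (U k) i ≠ 0 := by
          intro h0
          rw [h0, map_zero] at i4
          exact zero_ne_one i4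
        have a2 : nm w (U (k + 1)) = 1 := by
          rw [hUs, nm_smul, map_inv₀, i4, inv_one, one_mul]
          exact hΨR _ i2
        have a3 : ∃ μ : L, μ ≠ 0 ∧ B (f^[m * (k + 1)] x) = μ • U (k + 1) := by
          obtain ⟨ν, hν, h3⟩ := hrepm (f^[m * k] x)
          obtain ⟨e', he', h4⟩ := hΨs μ (U k) hμ
          refine ⟨ν * e' * Ψ (U k) i, mul_ne_zero (mul_ne_zero hν he') hne0, ?_⟩
          rw [show m * (k + 1) = m + m * k by ring, Function.iterate_add_apply, h3, i3, h4, hUs,
            smul_smul, smul_smul, mul_assoc, mul_inv_cancel₀ hne0, mul_one]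
        refine ⟨?_, a2, a3, step (k + 1) a2 a3⟩
        rw [hUs, Pi.smul_apply, smul_eq_mul]
        exact inv_mul_cancel₀ hne0
    have hdist : ∀ k l, w (br (U k) (U l)) = S.δ () (f^[m * k] x) (f^[m * l] x) := by
      intro k l
      obtain ⟨-, i2, ⟨μ, hμ, i3⟩, -⟩ := hinv k
      obtain ⟨-, j2, ⟨ν, hν, j3⟩, -⟩ := hinv l
      rw [hSδ, i3, j3, dL_smul w hμ hν, dL_unit i2 j2]
    have hc0 : ∀ k, w (br (U 0) (U k)) < 1 := by
      intro k
      rw [hdist, Nat.mul_zero]
      exact hδk k
    obtain ⟨lam, hl1, hl2⟩ := aff_seq hna hΨ hij U (fun k => (hinv k).1)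
      (fun k => (hinv k).2.1) (fun k => (hinv k).2.2.2) hUs hc0
    refine ⟨L, inferInstance, w, fun k => U k j, lam, hna, ?_, hl1, ?_, hl2⟩
    · intro n
      rw [← hw, map_natCast (algebraMap K L)]
    · intro k l
      rw [← hdist, w_br_norm hij (hinv k).1 (hinv l).1]

end Pool.Agent.K3h68.UP
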