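import Mathlib
import Pool.Agent.TH876.Light

set_option autoImplicit false

/-!
# Points with the same absolute values outside `S`: a uniform count

The number of `x` in a number field `K` of degree `n` such that `x` and `x + 1` have given absolute
values at all finite places outside of `S` is at most `C ^ (|S| + 1)`, with `C` depending only on `n`.
(For absolute values `1` this is the theorem of Evertse on the unit equation, in the form of
`Pool.Agent.TH876.Light`.)
-/

namespace Pool.Agent.K3h68.UP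

open NumberField IsDedekindDomain Finset Pool.Agent.H691R3 Pool.Agent.TH876.Pade
open Pool.Agent.TH876.Loc

variable {K : Type} [Field K] [NumberField K]

/-- the same absolute values outside `S` -/
def Same (S : Finset (Pr K)) (x y : K) : Prop :=
  ∀ v : Pr K, v ∉ S → fv v x = fv v y ∧ fv v (x + 1) = fv v (y + 1)

lemma fv_L_same {x y : K} {v : Pr K} (h : fv v x = fv v y ∧ fv v (x + 1) = fv v (y + 1)) (i : Fin 3) :
    fv v (L i x) = fv v (L i y) := by
  fin_cases i
  · exact h.1
  · rfl
  · show fv v (-x - 1) = fv v (-y - 1)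
    have e1 : -x - 1 = -(x + 1) := by ring
    have e2 : -y - 1 = -(y + 1) := by ring
    rw [e1, e2, (fv v).map_neg, (fv v).map_neg]
    exact h.2

lemma lg_same {x y : K} {v : Pr K} (h : fv v x = fv v y ∧ fv v (x + 1) = fv v (y + 1)) (i : Fin 3) :
    lg (Sum.inr v : Pl K) (L i x) = lg (Sum.inr v : Pl K) (L i y) := by
  show 1 * Real.log (fv v (L i x)) = 1 * Real.log (fv v (L i y))
  rw [fv_L_same h i]

lemma mx_same {x y : K} {v : Pr K} (h : fv v x = fv v y ∧ fv v (x + 1) = fv v (y + 1)) :
    mx (Sum.inr v : Pl K) x = mx (Sum.inr v : Pl K) y := by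
  unfold mx M
  have h0 : av (Sum.inr v : Pl K) (L 0 x) = av (Sum.inr v : Pl K) (L 0 y) := fv_L_same h 0
  have h1 : av (Sum.inr v : Pl K) (L 1 x) = av (Sum.inr v : Pl K) (L 1 y) := fv_L_same h 1
  have h2 : av (Sum.inr v : Pl K) (L 2 x) = av (Sum.inr v : Pl K) (L 2 y) := fv_L_same h 2
  rw [h0, h1, h2]

lemma gd_same {x y : K} {v : Pr K} (h : fv v x = fv v y ∧ fv v (x + 1) = fv v (y + 1)) :
    gd (Sum.inr v : Pl K) x = gd (Sum.inr v : Pl K) y := by
  unfold gd df
  exact Finset.sum_congr rfl fun i _ => by rw [mx_same h, lg_same h i]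

lemma out_same {S : Finset (Pr K)} {x y : K} (hx : Pt x) (hy : Pt y) (h : Same S x y) :
    out S x = out S y := by
  classical
  rw [← out_eq S hx (V := sp x ∪ sp y) Finset.subset_union_left,
    ← out_eq S hy (V := sp x ∪ sp y) Finset.subset_union_right]
  refine Finset.sum_congr rfl fun v hv => ?_
  rw [Finset.mem_sdiff] at hv
  exact gd_same (h v hv.2)

lemma out_le (S : Finset (Pr K)) {x : K} (hx : Pt x) : out S x ≤ 3 * hgt x := by
  classical
  unfold out
  rw [← sum_gd hx (Finset.Subset.refl (sp x)), sum_Spl]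
  have h1 : 0 ≤ ∑ w : InfinitePlace K, gd (Sum.inl w : Pl K) x :=
    Finset.sum_nonneg fun w _ => gd_nonneg _ hx
  have h2 : ∑ v ∈ sp x \ S, gd (Sum.inr v : Pl K) x ≤ ∑ v ∈ sp x, gd (Sum.inr v : Pl K) x :=
    Finset.sum_le_sum_of_subset_of_nonneg Finset.sdiff_subset fun v _ _ => gd_nonneg _ hx
  linarith

/-- the gap principle for two points of one cell with the same absolute values outside `S` -/
theorem gap {S : Finset (Pr K)} {x y : K} (hx : Pt x) (hy : Pt y) (hxy : x ≠ y) (hs : Same S x y)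
    (h0 : 0 < hgt x) (hk : hgt x ≤ hgt y) (ε : ℝ)
    (hcell : ∀ v ∈ Spl S, ∀ i, df v i x / hgt x ≤ df v i y / hgt y + ε) :
    2 * hgt x ≤ 2 * (dK K * Real.log 2) + (1 + (Spl S).card * ε) * hgt y := by
  classical
  have hD : Dl 0 x y ≠ 0 := by
    rw [Dl_zero]
    exact sub_ne_zero.2 hxy
  have hy0 : 0 < hgt y := lt_of_lt_of_le h0 hk
  set V : Finset (Pr K) := (sp x ∪ sp y) ∪ ((fv_support_finite hD).toFinset ∪ S) with hV
  have hVx : sp x ⊆ V := Finset.subset_union_left.trans Finset.subset_union_left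
  have hVy : sp y ⊆ V := Finset.subset_union_right.trans Finset.subset_union_left
  have hVS : S ⊆ V := Finset.subset_union_right.trans Finset.subset_union_right
  have hVD : ∀ v, v ∉ V → fv v (Dl 0 x y) = 1 := by
    intro v hv
    by_contra h
    apply hv
    rw [hV]
    refine Finset.mem_union_right _ (Finset.mem_union_left _ ?_)
    rw [Set.Finite.mem_toFinset]
    exact h
  set q : Pl K → ℝ := fun v => mx v y - mx v x + (if v ∈ Spl S then ε * hgt y else 0) with hq
  have hqv : ∀ v, ∀ i, lg v (L i y) - (2 * 0 + 1 : ℕ) * lg v (L i x) ≤ q v := by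
    intro v i
    have e1 : lg v (L i y) = mx v y - df v i y := by unfold df; ring
    have e2 : lg v (L i x) = mx v x - df v i x := by unfold df; ring
    rw [hq]
    simp only
    split_ifs with hv
    · rw [e1, e2]
      have h1 := hcell v hv i
      have h2 : df v i x * hgt y ≤ (df v i y + ε * hgt y) * hgt x := by
        rw [div_add' _ _ _ hy0.ne', div_le_div_iff₀ h0 hy0] at h1
        linarith
      have d1 := df_nonneg v i hx
      have h3 : df v i x * hgt x ≤ df v i x * hgt y := mul_le_mul_of_nonneg_left hk d1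
      have h4 : df v i x ≤ df v i y + ε * hgt y :=
        le_of_mul_le_mul_right (h3.trans h2) h0
      push_cast
      linarith
    · rcases v with w | v
      · exact absurd (inl_mem_Spl S w) hv
      · rw [inr_mem_Spl] at hv
        rw [lg_same (hs v hv) i, mx_same (hs v hv)]
        push_cast
        linarith
  have hsum := Finset.sum_le_sum (s := Spl V) fun v _ => local_ineq v 0 hx hy hD (q v) (hqv v)
  rw [Finset.sum_add_distrib, sum_lg hD hVD, ← Finset.mul_sum, hgt_eq hx hVx,
    Finset.sum_add_distrib, Finset.sum_add_distrib, ← Finset.mul_sum, sum_cv, ← Finset.mul_sum,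
    Finset.sum_comm (s := Spl V), Fin.sum_univ_three, sum_lgL hx hVx, sum_lgL hx hVx,
    sum_lgL hx hVx] at hsum
  have hqsum : ∑ v ∈ Spl V, q v = hgt y - hgt x + (Spl S).card * (ε * hgt y) := by
    rw [hq]
    simp only
    rw [Finset.sum_add_distrib, Finset.sum_sub_distrib, hgt_eq hx hVx,
      hgt_eq hy hVy, Finset.sum_ite, Finset.sum_const_zero, add_zero, Finset.sum_const, nsmul_eq_mul]
    congr 3
    rw [Finset.filter_mem_eq_inter]
    rw [Finset.inter_eq_right.2 (Spl_mono hVS)]
  rw [hqsum] at hsum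
  push_cast at hsum
  nlinarith

/-- **The number of points with given absolute values outside `S`, uniformly in the field.** -/
theorem class_count (n : ℕ) :
    ∃ C : ℝ, 1 ≤ C ∧ ∀ (K : Type) [Field K] [NumberField K], Module.finrank ℚ K = n →
      ∀ (S : Finset (Pr K)) (E : Finset K),
      (∀ x ∈ E, Pt x) → (∀ x ∈ E, ∀ y ∈ E, Same S x y) → (E.card : ℝ) ≤ C ^ (S.card + 1) := by
  classical
  obtain ⟨C1, hC1, hlight⟩ := light_count n (1 / 4) (by norm_num)
  have hlog2 : 0 ≤ Real.log 2 := Real.log_nonneg (by norm_num)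
  set H0 : ℝ := 8 * ((n : ℝ) * Real.log 2) + 1 with hH0
  have hH0pos : 0 < H0 := by positivity
  obtain ⟨R, hR⟩ := pow_unbounded_of_one_lt (12 : ℝ) (by norm_num : (1 : ℝ) < 4 / 3)
  obtain ⟨c0, hc0, hsmall⟩ := northcott_uniform n H0
  set A : ℝ := 2 ^ (3 * (8 + 1)) with hA
  have hA1 : 1 ≤ A := one_le_pow₀ (by norm_num)
  set B : ℝ := R * A ^ n with hB
  have hB0 : 0 ≤ B := by positivity
  have hBc : 1 ≤ (B + c0 + 1) * A := by
    have : 1 ≤ B + c0 + 1 := by linarith
    nlinarith
  refine ⟨C1 + (B + c0 + 1) * A, by linarith, ?_⟩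
  intro K _ _ hn S E hE hS
  -- the light points
  have hE1 : ((E.filter fun x => out S x ≤ 1 / 4 * hgt x).card : ℝ) ≤ C1 ^ (S.card + 1) := by
    refine hlight K hn S _ fun x hx => ?_
    rw [Finset.mem_filter] at hx
    exact ⟨hE x hx.1, hx.2⟩
  set E' := E.filter fun x => ¬ out S x ≤ 1 / 4 * hgt x with hE'
  have hdn : dK K = n := by
    unfold dK
    rw [← hn, ← InfinitePlace.sum_mult_eq]
    push_cast
    rfl
  set r := Fintype.card (InfinitePlace K) with hr
  have hr0 : 0 < r := by
    rw [hr]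
    exact Fintype.card_pos
  have hrn : r ≤ n := by
    rw [hr, ← hn, ← InfinitePlace.sum_mult_eq, ← Finset.card_univ, Finset.card_eq_sum_ones]
    exact Finset.sum_le_sum fun w _ => InfinitePlace.mult_pos
  set t := (Spl S).card with ht
  have htr : t = r + S.card := card_Spl S
  have ht0 : 0 < t := by omega
  set D := 8 * t with hD
  have hD0 : 0 < D := Nat.mul_pos (by norm_num) ht0
  set El := E'.filter (fun x => H0 ≤ hgt x) with hEl
  have hcell : ∀ c ∈ El.image (col (Spl S) D), (El.filter (fun x => col (Spl S) D x = c)).card ≤ R := by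
    intro c _
    set F := El.filter (fun x => col (Spl S) D x = c) with hF
    have hFE : ∀ x ∈ F, x ∈ E ∧ hgt x < 4 * out S x ∧ H0 ≤ hgt x ∧ col (Spl S) D x = c := by
      intro x hx
      rw [hF, Finset.mem_filter, hEl, Finset.mem_filter, hE', Finset.mem_filter] at hx
      obtain ⟨⟨⟨h1, h1'⟩, h2⟩, h3⟩ := hx
      rw [not_le] at h1'
      exact ⟨h1, by linarith, h2, h3⟩
    have hε : (0 : ℝ) ≤ 1 / D := by positivity
    have htε : (t : ℝ) * (1 / D) = 1 / 8 := by
      have ht0' : (0 : ℝ) < t := by exact_mod_cast ht0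
      rw [hD]; push_cast; field_simp
    by_cases hne : F.Nonempty
    swap
    · rw [Finset.not_nonempty_iff_eq_empty.1 hne]; simp
    obtain ⟨x, hx, y, hy, h1, _⟩ := chain hgt F (by
      intro x hx y hy hxy hle
      obtain ⟨a1, a2, a3, a4⟩ := hFE x hx
      obtain ⟨b1, b2, b3, b4⟩ := hFE y hy
      have ha0 : 0 < hgt x := lt_of_lt_of_le hH0pos a3
      have h2 := gap (hE x a1) (hE y b1) hxy (hS x a1 y b1) ha0 hle (1 / D)
        (fun v hv i => col_close hD0 (hE y b1) (a4.trans b4.symm) v hv i)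
      rw [← ht, htε, hdn] at h2
      rw [hH0] at a3
      linarith) hne
    obtain ⟨a1, a2, a3, a4⟩ := hFE x hx
    obtain ⟨b1, b2, b3, b4⟩ := hFE y hy
    have ha0 : 0 < hgt x := lt_of_lt_of_le hH0pos a3
    have h2 : hgt y < 12 * hgt x := by
      have h3 := out_same (hE x a1) (hE y b1) (hS x a1 y b1)
      have h4 := out_le S (hE x a1)
      rw [← h3] at b2
      linarith
    have h3 : (4 / 3 : ℝ) ^ (F.card - 1) < (4 / 3 : ℝ) ^ R := by
      have h4 : (4 / 3 : ℝ) ^ (F.card - 1) * hgt x < 12 * hgt x := lt_of_le_of_lt h1 h2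
      exact lt_trans (lt_of_mul_lt_mul_right h4 ha0.le) hR
    have h5 := (pow_lt_pow_iff_right₀ (by norm_num : (1 : ℝ) < 4 / 3)).1 h3
    omega
  have hEl1 : El.card ≤ R * (El.image (col (Spl S) D)).card :=
    Finset.card_le_mul_card_image El R hcell
  have hEl2 : ((El.image (col (Spl S) D)).card : ℝ) ≤ A ^ t := by
    have h1 := count_fun (3 * D) (El.image (col (Spl S) D)) (by
      intro f hf
      obtain ⟨x, hx, rfl⟩ := Finset.mem_image.1 hf
      rw [hEl, Finset.mem_filter, hE', Finset.mem_filter] at hx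
      exact col_sum S (hE x hx.1.1) (lt_of_lt_of_le hH0pos hx.2))
    refine h1.trans (le_of_eq ?_)
    rw [hA, ← pow_mul]
    congr 1
    rw [Fintype.card_prod, Fintype.card_coe, Fintype.card_fin, ← ht, hD]
    ring
  have hEs : ((E'.filter (fun x => ¬ H0 ≤ hgt x)).card : ℝ) ≤ c0 := by
    refine hsmall K hn _ ?_
    intro x hx
    rw [Finset.mem_filter, hE', Finset.mem_filter] at hx
    exact ⟨hE x hx.1.1, not_le.1 hx.2⟩
  have htot : (E'.card : ℝ) = El.card + (E'.filter (fun x => ¬ H0 ≤ hgt x)).card := by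
    have := Finset.card_filter_add_card_filter_not (s := E') (fun x => H0 ≤ hgt x)
    rw [← this]
    push_cast
    rfl
  have hl : (El.card : ℝ) ≤ B * A ^ S.card := by
    calc (El.card : ℝ) ≤ R * ((El.image (col (Spl S) D)).card : ℝ) := by exact_mod_cast hEl1
      _ ≤ R * A ^ t := mul_le_mul_of_nonneg_left hEl2 (Nat.cast_nonneg _)
      _ ≤ R * A ^ (n + S.card) :=
          mul_le_mul_of_nonneg_left (pow_le_pow_right₀ hA1 (by omega)) (Nat.cast_nonneg _)
      _ = B * A ^ S.card := by rw [pow_add, hB]; ring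
  have hE2 : (E'.card : ℝ) ≤ ((B + c0 + 1) * A) ^ (S.card + 1) :=
    final_real S.card hA1 hB0 hc0 (by rw [htot]; linarith) hl
  have hEE : (E.card : ℝ) = (E.filter fun x => out S x ≤ 1 / 4 * hgt x).card + E'.card := by
    have := Finset.card_filter_add_card_filter_not (s := E) (fun x => out S x ≤ 1 / 4 * hgt x)
    rw [← this]
    push_cast
    rfl
  have h9 : C1 ^ (S.card + 1) + ((B + c0 + 1) * A) ^ (S.card + 1) ≤
      (C1 + (B + c0 + 1) * A) ^ (S.card + 1) :=
    pow_add_pow_le (by linarith) (by linarith) (Nat.succ_ne_zero _)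
  calc (E.card : ℝ) = (E.filter fun x => out S x ≤ 1 / 4 * hgt x).card + E'.card := hEE
    _ ≤ C1 ^ (S.card + 1) + ((B + c0 + 1) * A) ^ (S.card + 1) := add_le_add hE1 hE2
    _ ≤ _ := h9

end Pool.Agent.K3h68.UP
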