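import Mathlib
import Pool.Agent.K3h68.UP.Bridge

set_option autoImplicit false

/-!
# Strictly preperiodic points: shadows, levels and counting
-/

namespace Pool.Agent.K3h68.UP

open Function Finset

section dyn

variable {X : Type*} {f : X → X}

/-- `O` is the periodic point whose orbit agrees eventually with that of `x` -/
def Sh (f : X → X) (x O : X) : Prop := O ∈ periodicPts f ∧ ∃ k, f^[k] x = f^[k] O

/-- `x` enters its cycle after exactly `k` steps -/
def Lev (f : X → X) (x : X) (k : ℕ) : Prop :=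
  f^[k] x ∈ periodicPts f ∧ ∀ j < k, f^[j] x ∉ periodicPts f

/-- strictly preperiodic points -/
def TailPt (f : X → X) (x : X) : Prop :=
  x ∉ periodicPts f ∧ ∃ k, f^[k] x ∈ periodicPts f

lemma per_iter {x : X} (hx : x ∈ periodicPts f) (k : ℕ) : f^[k] x ∈ periodicPts f := by
  obtain ⟨n, hn, h⟩ := mem_periodicPts.1 hx
  refine mem_periodicPts.2 ⟨n, hn, ?_⟩
  exact h.apply_iterate k

lemma per_inj {x y : X} (hx : x ∈ periodicPts f) (hy : y ∈ periodicPts f) (k : ℕ)
    (h : f^[k] x = f^[k] y) : x = y := by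
  obtain ⟨n, hn, hx'⟩ := mem_periodicPts.1 hx
  obtain ⟨m, hm, hy'⟩ := mem_periodicPts.1 hy
  have h1 : f^[n * m * k] x = x := by
    have := (hx'.mul_const m).mul_const k
    exact this
  have h2 : f^[n * m * k] y = y := by
    have := (hy'.const_mul n).mul_const k
    exact this
  have hle : k ≤ n * m * k := Nat.le_mul_of_pos_left k (by positivity)
  obtain ⟨r, hr⟩ := Nat.exists_eq_add_of_le hle
  rw [hr, Nat.add_comm, iterate_add_apply] at h1 h2
  rw [← h1, h, h2]

lemma Sh.uniq {x O O' : X} (h : Sh f x O) (h' : Sh f x O') : O = O' := by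
  obtain ⟨h1, k, hk⟩ := h
  obtain ⟨h2, l, hl⟩ := h'
  apply per_inj h1 h2 (l + k)
  rw [iterate_add_apply, ← hk, ← iterate_add_apply, Nat.add_comm, iterate_add_apply, hl,
    ← iterate_add_apply]

lemma Sh.iter {x O : X} (h : Sh f x O) (j : ℕ) : Sh f (f^[j] x) (f^[j] O) := by
  obtain ⟨h1, k, hk⟩ := h
  refine ⟨per_iter h1 j, k, ?_⟩
  rw [← iterate_add_apply, ← iterate_add_apply, Nat.add_comm, iterate_add_apply, hk,
    iterate_add_apply]

lemma Sh.self {x : X} (h : x ∈ periodicPts f) : Sh f x x := ⟨h, 0, rfl⟩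

lemma exists_sh {x : X} {k : ℕ} (h : f^[k] x ∈ periodicPts f) : ∃ O, Sh f x O := by
  obtain ⟨n, hn, hp⟩ := mem_periodicPts.1 h
  have hle : k ≤ n * k := Nat.le_mul_of_pos_left k hn
  obtain ⟨r, hr⟩ := Nat.exists_eq_add_of_le hle
  refine ⟨f^[n * k] x, ?_, k, ?_⟩
  · rw [hr, Nat.add_comm, iterate_add_apply]
    exact per_iter h r
  · rw [← iterate_add_apply, Nat.add_comm, iterate_add_apply]
    exact ((hp.mul_const k).eq).symm

lemma exists_lev {x : X} {k : ℕ} (h : f^[k] x ∈ periodicPts f) : ∃ l, Lev f x l := by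
  classical
  have hex : ∃ k, f^[k] x ∈ periodicPts f := ⟨k, h⟩
  exact ⟨Nat.find hex, Nat.find_spec hex, fun j hj => Nat.find_min hex hj⟩

lemma Lev.uniq {x : X} {k l : ℕ} (h : Lev f x k) (h' : Lev f x l) : k = l := by
  rcases lt_trichotomy k l with h1 | h1 | h1
  · exact absurd h.1 (h'.2 k h1)
  · exact h1
  · exact absurd h'.1 (h.2 l h1)

lemma Lev.iter {x : X} {k : ℕ} (h : Lev f x k) {j : ℕ} (hj : j ≤ k) :
    Lev f (f^[j] x) (k - j) := by
  refine ⟨?_, ?_⟩
  · rw [← iterate_add_apply, Nat.sub_add_cancel hj]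
    exact h.1
  · intro i hi
    rw [← iterate_add_apply]
    exact h.2 _ (by omega)

lemma Lev.per {x : X} {k : ℕ} (h : Lev f x k) {j : ℕ} (hj : k ≤ j) :
    f^[j] x ∈ periodicPts f := by
  obtain ⟨r, rfl⟩ := Nat.exists_eq_add_of_le hj
  rw [Nat.add_comm, iterate_add_apply]
  exact per_iter h.1 r

lemma Lev.pos {x : X} {k : ℕ} (h : Lev f x k) (hx : x ∉ periodicPts f) : 0 < k := by
  rcases Nat.eq_zero_or_pos k with h0 | h0
  · rw [h0] at h
    exact absurd h.1 hx
  · exact h0

lemma Lev.not_per {x : X} {k : ℕ} (h : Lev f x k) (hk : 0 < k) : x ∉ periodicPts f := h.2 0 hk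

/-- at the entry the point agrees with its shadow -/
lemma Lev.eq_sh {x O : X} {k : ℕ} (h : Lev f x k) (hO : Sh f x O) : f^[k] x = f^[k] O :=
  (Sh.self h.1).uniq (hO.iter k)

lemma TailPt.lev {x : X} (h : TailPt f x) : ∃ k, 0 < k ∧ Lev f x k := by
  obtain ⟨h1, k, hk⟩ := h
  obtain ⟨l, hl⟩ := exists_lev hk
  exact ⟨l, hl.pos h1, hl⟩

lemma TailPt.sh {x : X} (h : TailPt f x) : ∃ O, Sh f x O := by
  obtain ⟨h1, k, hk⟩ := h
  exact exists_sh hk

end dyn

section main

variable {K : Type} [Field K] {V : Type*} {av : V → AbsoluteValue K ℝ} {X : Type*}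
  {S : Sys K V av X} {f : X → X} {B : ℕ}

/-- `f` preserves the distances of periodic points -/
lemma iso (hf : S.NonExp f) {x y : X} (hx : x ∈ periodicPts f) (hy : y ∈ periodicPts f) (p : V) :
    S.δ p (f x) (f y) = S.δ p x y := by
  apply le_antisymm (hf p x y)
  obtain ⟨n, hn, hx'⟩ := mem_periodicPts.1 hx
  obtain ⟨m, hm, hy'⟩ := mem_periodicPts.1 hy
  have h1 : f^[n * m] x = x := hx'.mul_const m
  have h2 : f^[n * m] y = y := hy'.const_mul n
  have hpos : 0 < n * m := Nat.mul_pos hn hm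
  obtain ⟨r, hr⟩ : ∃ r, n * m = r + 1 := ⟨n * m - 1, by omega⟩
  rw [hr, iterate_succ_apply] at h1 h2
  have h3 := hf.iterate r p (f x) (f y)
  rwa [h1, h2] at h3

lemma iso_iter (hf : S.NonExp f) {x y : X} (hx : x ∈ periodicPts f) (hy : y ∈ periodicPts f)
    (p : V) (k : ℕ) : S.δ p (f^[k] x) (f^[k] y) = S.δ p x y := by
  induction k with
  | zero => rfl
  | succ k ih =>
    rw [iterate_succ_apply', iterate_succ_apply', iso hf (per_iter hx k) (per_iter hy k), ih]

/-- **A strictly preperiodic point has distance one from each periodic point but its shadow.** -/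
theorem dist_per (hf : S.NonExp f) (h1 : S.LeOne) (hr : S.Rig f) {R R' Q : X}
    (hR : R ∉ periodicPts f) (hR' : Sh f R R') (hQ : Q ∈ periodicPts f) (hne : Q ≠ R') (p : V) :
    S.δ p R Q = 1 := by
  apply le_antisymm (h1 p R Q)
  by_contra hcon
  rw [not_le] at hcon
  have key : ∀ k, S.δ p (f^[k] R') (f^[k] R) = S.δ p R' R ∧ S.δ p (f^[k] Q) (f^[k] R) < 1 := by
    intro k
    induction k with
    | zero =>
      refine ⟨rfl, ?_⟩
      rw [S.symm] at hcon
      exact hcon
    | succ k ih =>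
      obtain ⟨i1, i2⟩ := ih
      have h2 : f^[k] R' ≠ f^[k] Q := fun h => hne (per_inj hR'.1 hQ k h).symm
      have h3 := hr p (f^[k] R') (f^[k] Q) (f^[k] R) i2 (S.pos p h2)
        (iso hf (per_iter hR'.1 k) (per_iter hQ k) p)
      rw [iterate_succ_apply', iterate_succ_apply', iterate_succ_apply', h3]
      exact ⟨i1, lt_of_le_of_lt (hf p _ _) i2⟩
  obtain ⟨hp, k, hk⟩ := hR'
  have h2 := (key k).1
  rw [hk, S.self] at h2
  have h3 : R' ≠ R := by
    rintro rfl
    exact hR hp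
  exact absurd h2.symm (S.pos p h3).ne'

/-- **Two strictly preperiodic points with different shadows and different levels have distance
one.** -/
theorem dist_tail (hf : S.NonExp f) (h1 : S.LeOne) (hr : S.Rig f) {Y Z Y' Z' : X} {a b : ℕ}
    (hY : Lev f Y a) (hZ : Lev f Z b) (hY' : Sh f Y Y') (hZ' : Sh f Z Z') (hne : Y' ≠ Z')
    (hab : a ≠ b) (p : V) : S.δ p Y Z = 1 := by
  have key : ∀ {Y Z Y' Z' : X} {a b : ℕ}, Lev f Y a → Lev f Z b → Sh f Y Y' → Sh f Z Z' →
      Y' ≠ Z' → b < a → S.δ p Y Z = 1 := by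
    intro Y Z Y' Z' a b hY hZ hY' hZ' hne hab
    apply le_antisymm (h1 p Y Z)
    have h2 := hf.iterate b p Y Z
    refine le_trans ?_ h2
    rw [dist_per hf h1 hr (hY.2 b hab) (hY'.iter b) hZ.1 ?_ p]
    intro h
    rw [hZ.eq_sh hZ'] at h
    exact hne (per_inj hZ'.1 hY'.1 b h).symm
  rcases Nat.lt_or_gt_of_ne hab with h | h
  · rw [S.symm]
    exact key hZ hY hZ' hY' hne.symm h
  · exact key hY hZ hY' hZ' hne h

/-- **Four periodic points**: at most `4 * B` strictly preperiodic points -/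
theorem tails_four (hB : ClsB av B) (hf : S.NonExp f) (h1 : S.LeOne) (hr : S.Rig f)
    (A : Fin 4 → X) (hA : Function.Injective A) (hper : ∀ i, A i ∈ periodicPts f)
    (T : Finset X) (hT : ∀ x ∈ T, TailPt f x) : T.card ≤ 4 * B := by
  classical
  -- for each `i` the points whose shadow is none of the others
  let Ti : Fin 4 → Finset X := fun i => T.filter (fun x => ∀ j, j ≠ i → ¬ Sh f x (A j))
  have hcov : T ⊆ Finset.univ.biUnion Ti := by
    intro x hx
    rw [Finset.mem_biUnion]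
    by_cases h : ∃ i, Sh f x (A i)
    · obtain ⟨i, hi⟩ := h
      refine ⟨i, Finset.mem_univ i, Finset.mem_filter.2 ⟨hx, fun j hj hsh => ?_⟩⟩
      exact hj (hA (hsh.uniq hi))
    · refine ⟨0, Finset.mem_univ _, Finset.mem_filter.2 ⟨hx, fun j _ hsh => h ⟨j, hsh⟩⟩⟩
  have hb : ∀ i, (Ti i).card ≤ B := by
    intro i
    obtain ⟨a, b, c, ha, hb', hc, hab, hac, hbc⟩ : ∃ a b c : Fin 4, a ≠ i ∧ b ≠ i ∧ c ≠ i ∧
        a ≠ b ∧ a ≠ c ∧ b ≠ c := by
      fin_cases i
      · exact ⟨1, 2, 3, by decide, by decide, by decide, by decide, by decide, by decide⟩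
      · exact ⟨0, 2, 3, by decide, by decide, by decide, by decide, by decide, by decide⟩
      · exact ⟨0, 1, 3, by decide, by decide, by decide, by decide, by decide, by decide⟩
      · exact ⟨0, 1, 2, by decide, by decide, by decide, by decide, by decide, by decide⟩
    have hd : ∀ j, j ≠ i → ∀ x ∈ Ti i, ∀ p, S.δ p (A j) x = 1 := by
      intro j hj x hx p
      obtain ⟨hx1, hx2⟩ := Finset.mem_filter.1 hx
      obtain ⟨O, hO⟩ := (hT x hx1).sh
      rw [S.symm]
      refine dist_per hf h1 hr (hT x hx1).1 hO (hper j) ?_ p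
      rintro rfl
      exact hx2 j hj hO
    have hne : ∀ j, ∀ x ∈ Ti i, x ≠ A j := by
      intro j x hx h
      exact (hT x (Finset.mem_filter.1 hx).1).1 (h ▸ hper j)
    refine S.three_eq hB (hA.ne hab) (hA.ne hac) (hA.ne hbc) (Ti i)
      (fun x hx => ⟨hne a x hx, hne b x hx, hne c x hx⟩) fun x hx p => ?_
    rw [hd a ha x hx p, hd b hb' x hx p, hd c hc x hx p]
    exact ⟨rfl, rfl⟩
  calc T.card ≤ (Finset.univ.biUnion Ti).card := Finset.card_le_card hcov
    _ ≤ ∑ i, (Ti i).card := Finset.card_biUnion_le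
    _ ≤ ∑ _i : Fin 4, B := Finset.sum_le_sum fun i _ => hb i
    _ = 4 * B := by simp

/-- **Three strictly preperiodic points**: at most `B + 3` periodic points -/
theorem per_three (hB : ClsB av B) (hf : S.NonExp f) (h1 : S.LeOne) (hr : S.Rig f)
    {R₁ R₂ R₃ : X} (h₁ : TailPt f R₁) (h₂ : TailPt f R₂) (h₃ : TailPt f R₃) (h12 : R₁ ≠ R₂)
    (h13 : R₁ ≠ R₃) (h23 : R₂ ≠ R₃) (P : Finset X) (hP : ∀ x ∈ P, x ∈ periodicPts f) :
    P.card ≤ B + 3 := by
  classical
  obtain ⟨O₁, hO₁⟩ := h₁.sh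
  obtain ⟨O₂, hO₂⟩ := h₂.sh
  obtain ⟨O₃, hO₃⟩ := h₃.sh
  have hsplit : P ⊆ (P \ {O₁, O₂, O₃}) ∪ {O₁, O₂, O₃} := by
    intro x hx
    by_cases h : x ∈ ({O₁, O₂, O₃} : Finset X)
    · exact Finset.mem_union_right _ h
    · exact Finset.mem_union_left _ (Finset.mem_sdiff.2 ⟨hx, h⟩)
  have hc : (P \ {O₁, O₂, O₃}).card ≤ B := by
    refine S.three_eq hB h12 h13 h23 _ (fun x hx => ?_) fun x hx p => ?_
    · have hx' := hP x (Finset.mem_sdiff.1 hx).1
      exact ⟨fun h => h₁.1 (h ▸ hx'), fun h => h₂.1 (h ▸ hx'), fun h => h₃.1 (h ▸ hx')⟩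
    · obtain ⟨hx1, hx2⟩ := Finset.mem_sdiff.1 hx
      have hx' := hP x hx1
      simp only [Finset.mem_insert, Finset.mem_singleton, not_or] at hx2
      rw [dist_per hf h1 hr h₁.1 hO₁ hx' hx2.1 p, dist_per hf h1 hr h₂.1 hO₂ hx' hx2.2.1 p,
        dist_per hf h1 hr h₃.1 hO₃ hx' hx2.2.2 p]
      exact ⟨rfl, rfl⟩
  calc P.card ≤ ((P \ {O₁, O₂, O₃}) ∪ {O₁, O₂, O₃}).card := Finset.card_le_card hsplit
    _ ≤ (P \ {O₁, O₂, O₃}).card + ({O₁, O₂, O₃} : Finset X).card := Finset.card_union_le _ _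
    _ ≤ B + 3 := Nat.add_le_add hc Finset.card_le_three

/-- the points of `T` which are mapped to one point by a map with fibres of size at most `d` -/
lemma fib_iter {d : ℕ} (fib : ∀ (y : X) (T : Finset X), (∀ x ∈ T, f x = y) → T.card ≤ d) (k : ℕ) :
    ∀ (y : X) (T : Finset X), (∀ x ∈ T, f^[k] x = y) → T.card ≤ d ^ k := by
  classical
  induction k with
  | zero =>
    intro y T hT
    rw [pow_zero, Finset.card_le_one]
    intro a ha b hb
    rw [show a = y from hT a ha, show b = y from hT b hb]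
  | succ k ih =>
    intro y T hT
    have h1 : (T.image f).card ≤ d ^ k := by
      apply ih y
      intro z hz
      obtain ⟨x, hx, rfl⟩ := Finset.mem_image.1 hz
      rw [← iterate_succ_apply]
      exact hT x hx
    have h2 := Finset.card_le_mul_card_image (f := f) T d (fun z _ => fib z _ fun x hx =>
      (Finset.mem_filter.1 hx).2)
    calc T.card ≤ d * (T.image f).card := h2
      _ ≤ d * d ^ k := Nat.mul_le_mul_left _ h1
      _ = d ^ (k + 1) := by rw [pow_succ, mul_comm]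

/-- **Tails over a fixed point.** -/
theorem tails_fixed (hB : ClsB av B) (hf : S.NonExp f) {d : ℕ}
    (fib : ∀ (y : X) (T : Finset X), (∀ x ∈ T, f x = y) → T.card ≤ d) {O : X} (hO : f O = O)
    (T : Finset X) (hT : ∀ x ∈ T, TailPt f x ∧ Sh f x O) : T.card ≤ (B + 1) * d ^ 2 := by
  classical
  choose! l hl using fun (x : X) (hx : x ∈ T) => (hT x hx).1.lev
  have hOk : ∀ k, f^[k] O = O := fun k => iterate_fixed hO k
  -- level at most two
  let T₁ := T.filter (fun x => l x ≤ 2)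
  let T₂ := T.filter (fun x => ¬ l x ≤ 2)
  have hT₁ : T₁.card ≤ d ^ 2 := by
    apply fib_iter fib 2 O
    intro x hx
    obtain ⟨hx1, hx2⟩ := Finset.mem_filter.1 hx
    obtain ⟨h0, h1⟩ := hl x hx1
    have h2 := h1.eq_sh (hT x hx1).2
    rw [hOk] at h2
    obtain ⟨r, hr⟩ := Nat.exists_eq_add_of_le hx2
    rw [hr, Nat.add_comm, iterate_add_apply, h2, hOk]
  have hT₂ : T₂.card ≤ B * (T₂.image (fun x => f^[l x - 2] x)).card := by
    apply Finset.card_le_mul_card_image
    intro W hW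
    obtain ⟨x₀, hx₀, hxW⟩ := Finset.mem_image.1 hW
    obtain ⟨hx₀1, hx₀2⟩ := Finset.mem_filter.1 hx₀
    obtain ⟨h0, h1⟩ := hl x₀ hx₀1
    have hWlev : Lev f W 2 := by
      have := h1.iter (j := l x₀ - 2) (by omega)
      rw [show l x₀ - (l x₀ - 2) = 2 by omega] at this
      rw [← hxW]
      exact this
    have hWO : f^[2] W = O := by
      rw [← hxW, ← iterate_add_apply, show 2 + (l x₀ - 2) = l x₀ by omega,
        h1.eq_sh (hT x₀ hx₀1).2, hOk]
    have hfW : f W ∉ periodicPts f := hWlev.2 1 (by norm_num)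
    have hW0 : W ∉ periodicPts f := hWlev.2 0 (by norm_num)
    have hOper : O ∈ periodicPts f := (hT x₀ hx₀1).2.1
    have hne1 : O ≠ f W := fun h => hfW (h ▸ hOper)
    have hne2 : O ≠ W := fun h => hW0 (h ▸ hOper)
    have hne3 : f W ≠ W := by
      intro h
      apply hne1
      have h2 : f^[2] W = f W := by
        show f (f W) = f W
        rw [h]
        exact h
      rw [← hWO, h2]
    -- distances
    have hd : ∀ x ∈ T₂.filter (fun x => f^[l x - 2] x = W), ∀ p,
        (x ≠ O ∧ x ≠ f W ∧ x ≠ W) ∧ S.δ p O x = S.δ p (f W) x ∧ S.δ p O x = S.δ p W x := by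
      intro x hx p
      obtain ⟨hx1, hx2⟩ := Finset.mem_filter.1 hx
      obtain ⟨hx3, hx4⟩ := Finset.mem_filter.1 hx1
      obtain ⟨g0, g1⟩ := hl x hx3
      have hlx : 3 ≤ l x := by omega
      have hR0 : f^[l x] x = O := by rw [g1.eq_sh (hT x hx3).2, hOk]
      have hR1 : f^[l x - 1] x = f W := by
        rw [← hx2, ← iterate_succ_apply' f]
        congr 2
        omega
      have hc := chain_dist (S := S) hf (fun j => f^[l x - j] x) (l x)
        (by
          show f (f^[l x - 0] x) = f^[l x - 0] x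
          rw [Nat.sub_zero, hR0, hO])
        (by
          intro j hj
          show f (f^[l x - (j + 1)] x) = f^[l x - j] x
          rw [← iterate_succ_apply' f, show (l x - (j + 1)).succ = l x - j by omega]) p
      have hc1 := hc 1 (l x) (by omega) le_rfl
      have hc2 := hc 2 (l x) (by omega) le_rfl
      simp only [Nat.sub_self, Nat.sub_zero, iterate_zero, id_eq] at hc1 hc2
      rw [hR0, hR1] at hc1
      rw [hR0, hx2] at hc2
      have hxper := (hT x hx3).1.1
      refine ⟨⟨fun h => hxper (h ▸ hOper), ?_, ?_⟩, hc1.symm, hc2.symm⟩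
      · rintro rfl
        have h2 : Lev f (f W) 1 := hWlev.iter (j := 1) (by norm_num)
        have := g1.uniq h2
        omega
      · rintro rfl
        have := g1.uniq hWlev
        omega
    rcases (T₂.filter (fun x => f^[l x - 2] x = W)).eq_empty_or_nonempty with he | ⟨x₁, hx₁⟩
    · rw [he, Finset.card_empty]
      exact Nat.zero_le _
    · by_cases hV : Nonempty V
      · obtain ⟨p₀⟩ := hV
        exact S.three_eq hB hne1 hne2 hne3 _ (fun x hx => (hd x hx p₀).1)
          (fun x hx p => (hd x hx p).2)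
      · -- no places: all of `K` is one class
        refine S.three_eq hB hne1 hne2 hne3 _ (fun x hx => ?_)
          (fun x hx p => absurd ⟨p⟩ hV)
        obtain ⟨hx1, hx2⟩ := Finset.mem_filter.1 hx
        obtain ⟨hx3, hx4⟩ := Finset.mem_filter.1 hx1
        obtain ⟨g0, g1⟩ := hl x hx3
        have hxper := (hT x hx3).1.1
        refine ⟨fun h => hxper (h ▸ hOper), ?_, ?_⟩
        · rintro rfl
          have h2 : Lev f (f W) 1 := hWlev.iter (j := 1) (by norm_num)
          have := g1.uniq h2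
          omega
        · rintro rfl
          have := g1.uniq hWlev
          omega
  have hIm : (T₂.image (fun x => f^[l x - 2] x)).card ≤ d ^ 2 := by
    apply fib_iter fib 2 O
    intro W hW
    obtain ⟨x, hx, rfl⟩ := Finset.mem_image.1 hW
    obtain ⟨hx1, hx2⟩ := Finset.mem_filter.1 hx
    obtain ⟨h0, h1⟩ := hl x hx1
    rw [← iterate_add_apply, show 2 + (l x - 2) = l x by omega, h1.eq_sh (hT x hx1).2, hOk]
  calc T.card = T₁.card + T₂.card := (Finset.card_filter_add_card_filter_not _).symm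
    _ ≤ d ^ 2 + B * d ^ 2 := Nat.add_le_add hT₁ (hT₂.trans (Nat.mul_le_mul_left _ hIm))
    _ = (B + 1) * d ^ 2 := by ring

/-- **Tails over a cycle of length at least two.** -/
theorem tails_cycle (hB : ClsB av B) (hf : S.NonExp f) (h1 : S.LeOne) (hr : S.Rig f) {d : ℕ}
    (fib : ∀ (y : X) (T : Finset X), (∀ x ∈ T, f x = y) → T.card ≤ d) {O : X} (hO : f O ≠ O)
    (T : Finset X) (hT : ∀ x ∈ T, TailPt f x ∧ Sh f x O) : T.card ≤ B + 2 * d := by
  classical
  choose! l hl using fun (x : X) (hx : x ∈ T) => (hT x hx).1.lev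
  -- the strictly preperiodic points with another shadow
  let E : X → ℕ → Prop := fun U k => 0 < k ∧ Lev f U k ∧ ¬ Sh f U O
  have hfE : ∀ x ∈ T, 2 ≤ l x → E (f x) (l x - 1) := by
    intro x hx h2
    obtain ⟨g0, g1⟩ := hl x hx
    refine ⟨by omega, g1.iter (j := 1) (by omega), ?_⟩
    intro hsh
    exact hO (((hT x hx).2.iter 1).uniq hsh)
  have hlev1 : (T.filter (fun x => l x = 1)).card ≤ d := by
    apply fib (f O)
    intro x hx
    obtain ⟨hx1, hx2⟩ := Finset.mem_filter.1 hx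
    have h2 := (hl x hx1).2.eq_sh (hT x hx1).2
    rw [hx2] at h2
    exact h2
  by_cases hE : ∃ b, ∃ U₁ U₂ k₁ k₂, U₁ ≠ U₂ ∧ E U₁ k₁ ∧ E U₂ k₂ ∧ k₁ ≤ b ∧ k₂ ≤ b
  · set b := Nat.find hE with hb
    obtain ⟨U₁, U₂, k₁, k₂, hU, hE1, hE2, hk1, hk2⟩ := Nat.find_spec hE
    have hmin : ∀ U₁ U₂ k₁ k₂, E U₁ k₁ → E U₂ k₂ → k₁ < b → k₂ < b → U₁ = U₂ := by
      intro V₁ V₂ m₁ m₂ e1 e2 hm1 hm2
      by_contra hne
      exact Nat.find_min hE (m := b - 1) (by omega)
        ⟨V₁, V₂, m₁, m₂, hne, e1, e2, by omega, by omega⟩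
    -- high level
    have hhigh : (T.filter (fun x => b < l x)).card ≤ B := by
      obtain ⟨a1, a2, a3⟩ := hE1
      obtain ⟨b1, b2, b3⟩ := hE2
      have a4 := a2.not_per a1
      have b4 := b2.not_per b1
      obtain ⟨O₁, hO₁⟩ := exists_sh a2.1
      obtain ⟨O₂, hO₂⟩ := exists_sh b2.1
      have c1 : O₁ ≠ U₁ := by rintro rfl; exact a4 hO₁.1
      have c2 : O₁ ≠ U₂ := by rintro rfl; exact b4 hO₁.1
      have c3 : O₁ ≠ O := by rintro rfl; exact a3 hO₁
      have c4 : O₂ ≠ O := by rintro rfl; exact b3 hO₂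
      refine S.three_eq hB c1 c2 hU _ (fun x hx => ?_) fun x hx p => ?_
      · obtain ⟨hx1, hx2⟩ := Finset.mem_filter.1 hx
        refine ⟨?_, ?_, ?_⟩
        · rintro rfl
          exact (hT _ hx1).1.1 hO₁.1
        · rintro rfl
          exact a3 (hT _ hx1).2
        · rintro rfl
          exact b3 (hT _ hx1).2
      · obtain ⟨hx1, hx2⟩ := Finset.mem_filter.1 hx
        have e1 : S.δ p O₁ x = 1 := by
          rw [S.symm]
          exact dist_per hf h1 hr (hT x hx1).1.1 (hT x hx1).2 hO₁.1 c3 p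
        have e2 : S.δ p U₁ x = 1 := dist_tail hf h1 hr a2 (hl x hx1).2 hO₁ (hT x hx1).2 c3
          (by omega) p
        have e3 : S.δ p U₂ x = 1 := dist_tail hf h1 hr b2 (hl x hx1).2 hO₂ (hT x hx1).2 c4
          (by omega) p
        rw [e1, e2, e3]
        exact ⟨rfl, rfl⟩
    -- low level
    have hlow : (T.filter (fun x => 2 ≤ l x ∧ l x ≤ b)).card ≤ d := by
      rcases (T.filter (fun x => 2 ≤ l x ∧ l x ≤ b)).eq_empty_or_nonempty with he | ⟨x₀, hx₀⟩
      · rw [he, Finset.card_empty]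
        exact Nat.zero_le _
      · obtain ⟨y1, y2, y3⟩ := Finset.mem_filter.1 hx₀
        apply fib (f x₀)
        intro x hx
        obtain ⟨z1, z2, z3⟩ := Finset.mem_filter.1 hx
        exact hmin _ _ _ _ (hfE x z1 z2) (hfE x₀ y1 y2) (by omega) (by omega)
    have hcov : T ⊆ (T.filter (fun x => b < l x) ∪ T.filter (fun x => 2 ≤ l x ∧ l x ≤ b)) ∪
        T.filter (fun x => l x = 1) := by
      intro x hx
      have := (hl x hx).1
      simp only [Finset.mem_union, Finset.mem_filter]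
      by_cases c1 : b < l x
      · exact Or.inl (Or.inl ⟨hx, c1⟩)
      · by_cases c2 : 2 ≤ l x
        · exact Or.inl (Or.inr ⟨hx, c2, by omega⟩)
        · exact Or.inr ⟨hx, by omega⟩
    have h3 := Finset.card_le_card hcov
    have h4 := Finset.card_union_le (T.filter (fun x => b < l x) ∪
      T.filter (fun x => 2 ≤ l x ∧ l x ≤ b)) (T.filter (fun x => l x = 1))
    have h5 := Finset.card_union_le (T.filter (fun x => b < l x))
      (T.filter (fun x => 2 ≤ l x ∧ l x ≤ b))
    omega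
  · have hmin : ∀ U₁ U₂ k₁ k₂, E U₁ k₁ → E U₂ k₂ → U₁ = U₂ := by
      intro V₁ V₂ m₁ m₂ e1 e2
      by_contra hne
      exact hE ⟨max m₁ m₂, V₁, V₂, m₁, m₂, hne, e1, e2, le_max_left _ _, le_max_right _ _⟩
    have hlow : (T.filter (fun x => 2 ≤ l x)).card ≤ d := by
      rcases (T.filter (fun x => 2 ≤ l x)).eq_empty_or_nonempty with he | ⟨x₀, hx₀⟩
      · rw [he, Finset.card_empty]
        exact Nat.zero_le _
      · obtain ⟨y1, y2⟩ := Finset.mem_filter.1 hx₀
        apply fib (f x₀)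
        intro x hx
        obtain ⟨z1, z2⟩ := Finset.mem_filter.1 hx
        exact hmin _ _ _ _ (hfE x z1 z2) (hfE x₀ y1 y2)
    have hcov : T ⊆ T.filter (fun x => 2 ≤ l x) ∪ T.filter (fun x => l x = 1) := by
      intro x hx
      have := (hl x hx).1
      simp only [Finset.mem_union, Finset.mem_filter]
      by_cases c2 : 2 ≤ l x
      · exact Or.inl ⟨hx, c2⟩
      · exact Or.inr ⟨hx, by omega⟩
    have h3 := Finset.card_le_card hcov
    have h4 := Finset.card_union_le (T.filter (fun x => 2 ≤ l x)) (T.filter (fun x => l x = 1))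
    omega

/-- **The number of strictly preperiodic points.** -/
theorem tails_card (hB : ClsB av B) (hf : S.NonExp f) (h1 : S.LeOne) (hr : S.Rig f) {d : ℕ}
    (hd : 2 ≤ d) (fib : ∀ (y : X) (T : Finset X), (∀ x ∈ T, f x = y) → T.card ≤ d)
    (T : Finset X) (hT : ∀ x ∈ T, TailPt f x) : T.card ≤ 3 * (B + 1) * d ^ 2 := by
  classical
  have hd2 : 4 ≤ d ^ 2 := by nlinarith
  have hmul : (B + 1) * 4 ≤ (B + 1) * d ^ 2 := Nat.mul_le_mul_left _ hd2
  by_cases hP : ∃ A : Fin 4 → X, Function.Injective A ∧ ∀ i, A i ∈ periodicPts f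
  · obtain ⟨A, hA, hper⟩ := hP
    have h2 := tails_four hB hf h1 hr A hA hper T hT
    calc T.card ≤ 4 * B := h2
      _ ≤ 3 * ((B + 1) * 4) := by omega
      _ ≤ 3 * ((B + 1) * d ^ 2) := Nat.mul_le_mul_left _ hmul
      _ = 3 * (B + 1) * d ^ 2 := by ring
  · choose! O hO using fun (x : X) (hx : x ∈ T) => (hT x hx).sh
    have hIm : (T.image O).card ≤ 3 := by
      by_contra hcon
      rw [not_le] at hcon
      obtain ⟨P, hPs, hPc⟩ := Finset.exists_subset_card_eq hcon
      have hPc : P.card = 4 := hPc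
      apply hP
      refine ⟨fun i => ((P.equivFinOfCardEq hPc).symm i : X), ?_, ?_⟩
      · intro i j hij
        exact (P.equivFinOfCardEq hPc).symm.injective (Subtype.ext hij)
      · intro i
        have h2 := hPs ((P.equivFinOfCardEq hPc).symm i).2
        obtain ⟨x, hx, hxe⟩ := Finset.mem_image.1 h2
        show (((P.equivFinOfCardEq hPc).symm i : P) : X) ∈ periodicPts f
        rw [← hxe]
        exact (hO x hx).1
    have h2 : T.card ≤ ((B + 1) * d ^ 2) * (T.image O).card := by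
      apply Finset.card_le_mul_card_image
      intro Q hQ
      by_cases hfix : f Q = Q
      · apply tails_fixed hB hf fib hfix
        intro x hx
        obtain ⟨hx1, hx2⟩ := Finset.mem_filter.1 hx
        exact ⟨hT x hx1, hx2 ▸ hO x hx1⟩
      · have h3 := tails_cycle hB hf h1 hr fib hfix (T.filter (fun x => O x = Q)) (by
          intro x hx
          obtain ⟨hx1, hx2⟩ := Finset.mem_filter.1 hx
          exact ⟨hT x hx1, hx2 ▸ hO x hx1⟩)
        refine h3.trans ?_
        nlinarith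
    calc T.card ≤ ((B + 1) * d ^ 2) * (T.image O).card := h2
      _ ≤ ((B + 1) * d ^ 2) * 3 := Nat.mul_le_mul_left _ hIm
      _ = 3 * (B + 1) * d ^ 2 := by ring

/-- **The number of strictly preperiodic points over cycles of length at least two.** -/
theorem tails_card_cycle (hB : ClsB av B) (hf : S.NonExp f) (h1 : S.LeOne) (hr : S.Rig f) {d : ℕ}
    (fib : ∀ (y : X) (T : Finset X), (∀ x ∈ T, f x = y) → T.card ≤ d)
    (T : Finset X) (hT : ∀ x ∈ T, TailPt f x ∧ ∀ k, f (f^[k] x) ≠ f^[k] x) :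
    T.card ≤ 4 * B + 6 * d := by
  classical
  by_cases hP : ∃ A : Fin 4 → X, Function.Injective A ∧ ∀ i, A i ∈ periodicPts f
  · obtain ⟨A, hA, hper⟩ := hP
    have h2 := tails_four hB hf h1 hr A hA hper T fun x hx => (hT x hx).1
    omega
  · choose! O hO using fun (x : X) (hx : x ∈ T) => (hT x hx).1.sh
    have hIm : (T.image O).card ≤ 3 := by
      by_contra hcon
      rw [not_le] at hcon
      obtain ⟨P, hPs, hPc⟩ := Finset.exists_subset_card_eq hcon
      have hPc : P.card = 4 := hPc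
      apply hP
      refine ⟨fun i => ((P.equivFinOfCardEq hPc).symm i : X), ?_, ?_⟩
      · intro i j hij
        exact (P.equivFinOfCardEq hPc).symm.injective (Subtype.ext hij)
      · intro i
        have h2 := hPs ((P.equivFinOfCardEq hPc).symm i).2
        obtain ⟨x, hx, hxe⟩ := Finset.mem_image.1 h2
        show (((P.equivFinOfCardEq hPc).symm i : P) : X) ∈ periodicPts f
        rw [← hxe]
        exact (hO x hx).1
    have h2 : T.card ≤ (B + 2 * d) * (T.image O).card := by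
      apply Finset.card_le_mul_card_image
      intro Q hQ
      obtain ⟨x₀, hx₀, hxQ⟩ := Finset.mem_image.1 hQ
      have hfix : f Q ≠ Q := by
        intro hfix
        obtain ⟨h3, k, hk⟩ := hO x₀ hx₀
        rw [hxQ, iterate_fixed hfix k] at hk
        apply (hT x₀ hx₀).2 k
        rw [hk, hfix]
      apply tails_cycle hB hf h1 hr fib hfix
      intro x hx
      obtain ⟨hx1, hx2⟩ := Finset.mem_filter.1 hx
      exact ⟨(hT x hx1).1, hx2 ▸ hO x hx1⟩
    calc T.card ≤ (B + 2 * d) * (T.image O).card := h2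
      _ ≤ (B + 2 * d) * 3 := Nat.mul_le_mul_left _ hIm
      _ ≤ 4 * B + 6 * d := by omega

end main

end Pool.Agent.K3h68.UP
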