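import Mathlib
import Pool.Agent.H892.PGK.Count
import Pool.Agent.K3h68.UP.Tails

set_option autoImplicit false

/-!
# Fibres, and the number of periodic points
-/

namespace Pool.Agent.K3h68.UP

open MvPolynomial Function
open Pool.Agent.H892.PGR (br Phi br_smul)
open Pool.Agent.H892.PGK (PotGood PP fX fX_mk br_zero_iff uni uni_aeval uni_eq uni_deg uni_coeff
  hom_scale it it_hom it_eval aev phiK_rat nz_iter nz_rat PhiK count hdeg cop_uni)

variable {K : Type} [Field K]

lemma uni_ne_zero {H : MvPolynomial (Fin 2) K} {N : ℕ} (hH : H.IsHomogeneous N)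
    {v : Fin 2 → K} (hv : eval v H ≠ 0) : uni H ≠ 0 := by
  intro h0
  apply hv
  by_cases h1 : v 1 = 0
  · have e : v = v 0 • (![1, 0] : Fin 2 → K) := by
      ext i
      fin_cases i
      · simp
      · simp [h1]
    have h2 : eval (![1, 0] : Fin 2 → K) H = 0 := by
      rw [← uni_coeff hH, h0, Polynomial.coeff_zero]
    have h3 : eval (v 0 • (![1, 0] : Fin 2 → K)) H = v 0 ^ N * eval ![1, 0] H := by
      rw [eval_eq', eval_eq', Finset.mul_sum]
      apply Finset.sum_congr rfl
      intro s hs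
      have h2 := hdeg hH s hs
      simp only [Fin.prod_univ_two, Pi.smul_apply, smul_eq_mul]
      rw [← h2]
      ring
    rw [e, h3, h2, mul_zero]
  · rw [hom_scale hH h1, h0, Polynomial.eval_zero, mul_zero]

/-- a nonzero binary form of degree `N` has at most `N` zeros on the projective line -/
theorem zeros_le {H : MvPolynomial (Fin 2) K} {N : ℕ} (hH : H.IsHomogeneous N)
    (h0 : uni H ≠ 0) (T : Finset (PP K)) (hT : ∀ x ∈ T, eval x.rep H = 0) : T.card ≤ N := by
  classical
  let τ : PP K → Option K := fun x => if x.rep 1 = 0 then none else some (x.rep 0 / x.rep 1)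
  have hτ : Function.Injective τ := by
    intro x y hxy
    have hb : br x.rep y.rep = 0 := by
      unfold br
      simp only [τ] at hxy
      by_cases h1 : x.rep 1 = 0
      · by_cases h2 : y.rep 1 = 0
        · rw [h1, h2]; ring
        · rw [if_pos h1, if_neg h2] at hxy
          exact absurd hxy (by simp)
      · by_cases h2 : y.rep 1 = 0
        · rw [if_neg h1, if_pos h2] at hxy
          exact absurd hxy (by simp)
        · rw [if_neg h1, if_neg h2] at hxy
          have := Option.some.inj hxy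
          field_simp at this
          linear_combination this
    have := (br_zero_iff x.rep_nonzero y.rep_nonzero).mp hb
    rwa [Projectivization.mk_rep, Projectivization.mk_rep] at this
  have hroot : ∀ x ∈ T, x.rep 1 ≠ 0 → x.rep 0 / x.rep 1 ∈ (uni H).roots.toFinset := by
    intro x hx h1
    rw [Multiset.mem_toFinset, Polynomial.mem_roots h0, Polynomial.IsRoot.def]
    have h2 := hT x hx
    rw [hom_scale hH h1] at h2
    exact (mul_eq_zero.1 h2).resolve_left (pow_ne_zero _ h1)
  have hroots : (uni H).roots.toFinset.card ≤ (uni H).natDegree :=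
    (Multiset.toFinset_card_le _).trans (Polynomial.card_roots' _)
  rw [← Finset.card_image_of_injective T hτ]
  by_cases hinf : ∃ x ∈ T, x.rep 1 = 0
  · obtain ⟨x, hx, hx1⟩ := hinf
    have h2 : eval (![1, 0] : Fin 2 → K) H = 0 := by
      have hx0 : x.rep 0 ≠ 0 := by
        intro h
        apply x.rep_nonzero
        ext i
        fin_cases i
        · exact h
        · exact hx1
      have e : x.rep = x.rep 0 • (![1, 0] : Fin 2 → K) := by
        ext i
        fin_cases i
        · simp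
        · simp [hx1]
      have h3 : eval (x.rep 0 • (![1, 0] : Fin 2 → K)) H = x.rep 0 ^ N * eval ![1, 0] H := by
        rw [eval_eq', eval_eq', Finset.mul_sum]
        apply Finset.sum_congr rfl
        intro s hs
        have h2 := hdeg hH s hs
        simp only [Fin.prod_univ_two, Pi.smul_apply, smul_eq_mul]
        rw [← h2]
        ring
      have h4 := hT x hx
      rw [e, h3] at h4
      exact (mul_eq_zero.1 h4).resolve_left (pow_ne_zero _ hx0)
    have h3 : (uni H).coeff N = 0 := by rw [uni_coeff hH, h2]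
    have h4 : (uni H).natDegree < N := by
      apply lt_of_le_of_ne (uni_deg hH)
      intro h
      rw [← h] at h3
      exact h0 (Polynomial.leadingCoeff_eq_zero.1 h3)
    have hsub : T.image τ ⊆ insert none ((uni H).roots.toFinset.image some) := by
      intro o ho
      obtain ⟨y, hy, rfl⟩ := Finset.mem_image.mp ho
      by_cases h1 : y.rep 1 = 0
      · have : τ y = none := if_pos h1
        rw [this]; exact Finset.mem_insert_self _ _
      · have : τ y = some (y.rep 0 / y.rep 1) := if_neg h1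
        rw [this]
        exact Finset.mem_insert_of_mem (Finset.mem_image_of_mem _ (hroot y hy h1))
    calc _ ≤ (insert none ((uni H).roots.toFinset.image some)).card := Finset.card_le_card hsub
      _ ≤ ((uni H).roots.toFinset.image some).card + 1 := Finset.card_insert_le _ _
      _ ≤ (uni H).roots.toFinset.card + 1 := Nat.add_le_add_right Finset.card_image_le 1
      _ ≤ (uni H).natDegree + 1 := Nat.add_le_add_right hroots 1
      _ ≤ N := h4
  · push Not at hinf
    have hsub : T.image τ ⊆ (uni H).roots.toFinset.image some := by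
      intro o ho
      obtain ⟨y, hy, rfl⟩ := Finset.mem_image.mp ho
      have : τ y = some (y.rep 0 / y.rep 1) := if_neg (hinf y hy)
      rw [this]
      exact Finset.mem_image_of_mem _ (hroot y hy (hinf y hy))
    calc _ ≤ ((uni H).roots.toFinset.image some).card := Finset.card_le_card hsub
      _ ≤ (uni H).roots.toFinset.card := Finset.card_image_le
      _ ≤ (uni H).natDegree := hroots
      _ ≤ N := uni_deg hH

variable {F G : MvPolynomial (Fin 2) K} {d : ℕ}

lemma iter_rep (hF : F.IsHomogeneous d) (hG : G.IsHomogeneous d)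
    (h0 : ∀ v : Fin 2 → K, v ≠ 0 → Phi F G v ≠ 0) (v : Fin 2 → K) (hv : v ≠ 0) (k : ℕ) :
    ∃ hk : (Phi F G)^[k] v ≠ 0, (fX F G h0)^[k] (Projectivization.mk K v hv) =
      Projectivization.mk K ((Phi F G)^[k] v) hk := by
  induction k with
  | zero => exact ⟨hv, rfl⟩
  | succ k ih =>
    obtain ⟨hk, ih⟩ := ih
    have e : (Phi F G)^[k + 1] v = Phi F G ((Phi F G)^[k] v) :=
      Function.iterate_succ_apply' _ _ _
    refine ⟨by rw [e]; exact h0 _ hk, ?_⟩
    rw [Function.iterate_succ_apply', ih, fX_mk hF hG h0 _ hk]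
    simp only [e]

lemma rep_iter (hF : F.IsHomogeneous d) (hG : G.IsHomogeneous d)
    (h0 : ∀ v : Fin 2 → K, v ≠ 0 → Phi F G v ≠ 0) (y : PP K) (k : ℕ) :
    ∃ c : K, c ≠ 0 ∧ ((fX F G h0)^[k] y).rep = c • (Phi F G)^[k] y.rep := by
  obtain ⟨h1, h2⟩ := iter_rep hF hG h0 y.rep y.rep_nonzero k
  rw [Projectivization.mk_rep] at h2
  obtain ⟨a, ha⟩ := Projectivization.exists_smul_eq_mk_rep K ((Phi F G)^[k] y.rep) h1
  refine ⟨(a : K), a.ne_zero, ?_⟩
  rw [h2, ← ha]
  rfl

lemma cop_one (h : ∀ x : Fin 2 → AlgebraicClosure K, x ≠ 0 →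
    ¬ (aeval x F = 0 ∧ aeval x G = 0)) : IsCoprime (uni F) (uni G) := by
  rw [Polynomial.isCoprime_iff_aeval_ne_zero_of_isAlgClosed K (AlgebraicClosure K)]
  intro a
  rw [uni_aeval, uni_aeval]
  by_contra hcon
  push Not at hcon
  have h1 : (![a, 1] : Fin 2 → AlgebraicClosure K) ≠ 0 := by
    intro h0
    have := congrFun h0 1
    simp at this
  exact h _ h1 hcon

lemma uni_sub_smul (a b : K) (F G : MvPolynomial (Fin 2) K) :
    uni (C a * F - C b * G) = Polynomial.C a * uni F - Polynomial.C b * uni G := by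
  unfold uni
  rw [map_sub, map_mul, map_mul]
  simp [MvPolynomial.algHom_C]

/-- the fibres have at most `d` elements -/
theorem fib_le (hd : 1 ≤ d) (hF : F.IsHomogeneous d) (hG : G.IsHomogeneous d)
    (h : ∀ x : Fin 2 → AlgebraicClosure K, x ≠ 0 → ¬ (aeval x F = 0 ∧ aeval x G = 0))
    (h0 : ∀ v : Fin 2 → K, v ≠ 0 → Phi F G v ≠ 0) (y : PP K) (T : Finset (PP K))
    (hT : ∀ x ∈ T, fX F G h0 x = y) : T.card ≤ d := by
  have hHom : (C (y.rep 1) * F - C (y.rep 0) * G).IsHomogeneous d := by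
    have h1 := (isHomogeneous_C (Fin 2) (y.rep 1)).mul hF
    have h2 := (isHomogeneous_C (Fin 2) (y.rep 0)).mul hG
    rw [zero_add] at h1 h2
    exact h1.sub h2
  apply zeros_le hHom
  · intro hz
    rw [uni_sub_smul, sub_eq_zero] at hz
    have hcop := cop_one h
    have hnat : ∀ p q : Polynomial K, ∀ a b : K, a ≠ 0 → IsCoprime p q →
        Polynomial.C a * p = Polynomial.C b * q → p.natDegree = 0 ∧ q.natDegree = 0 := by
      intro p q a b ha hpq he
      have hdvd : q ∣ p := by
        refine ⟨Polynomial.C (b / a), ?_⟩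
        have hCa : (Polynomial.C a : Polynomial K) ≠ 0 := Polynomial.C_ne_zero.2 ha
        apply mul_left_cancel₀ hCa
        rw [he, mul_left_comm, ← Polynomial.C_mul, mul_div_cancel₀ _ ha, mul_comm]
      have hu : IsUnit q := hpq.symm.isUnit_of_dvd hdvd
      have hq := Polynomial.natDegree_eq_zero_of_isUnit hu
      refine ⟨?_, hq⟩
      have h2 : (Polynomial.C a * p).natDegree = p.natDegree := Polynomial.natDegree_C_mul ha
      rw [← h2, he]
      have h3 := Polynomial.natDegree_C_mul_le b q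
      omega
    have hfin : (uni F).natDegree = 0 → (uni G).natDegree = 0 → False := by
      intro h1 h2
      have e1 : eval ![1, 0] F = 0 := by
        rw [← uni_coeff hF]
        exact Polynomial.coeff_eq_zero_of_natDegree_lt (by omega)
      have e2 : eval ![1, 0] G = 0 := by
        rw [← uni_coeff hG]
        exact Polynomial.coeff_eq_zero_of_natDegree_lt (by omega)
      have h3 : (![1, 0] : Fin 2 → K) ≠ 0 := by
        intro h0
        have := congrFun h0 0
        simp at this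
      apply h0 _ h3
      ext i
      fin_cases i
      · exact e1
      · exact e2
    by_cases h1 : y.rep 1 = 0
    · have h2 : y.rep 0 ≠ 0 := by
        intro h2
        apply y.rep_nonzero
        ext i
        fin_cases i
        · exact h2
        · exact h1
      obtain ⟨a1, a2⟩ := hnat _ _ _ _ h2 hcop.symm hz.symm
      exact hfin a2 a1
    · obtain ⟨a1, a2⟩ := hnat _ _ _ _ h1 hcop hz
      exact hfin a1 a2
  · intro x hx
    obtain ⟨c, hc, hrep⟩ := rep_iter hF hG h0 x 1
    rw [iterate_one, iterate_one, hT x hx] at hrep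
    have e0 : y.rep 0 = c * eval x.rep F := by rw [hrep]; rfl
    have e1 : y.rep 1 = c * eval x.rep G := by rw [hrep]; rfl
    rw [map_sub, map_mul, map_mul, eval_C, eval_C, e0, e1]
    ring

/-- the number of points on which `f^[m]` agrees with a given Möbius transformation -/
theorem moebius_count (hd : 2 ≤ d) (hF : F.IsHomogeneous d) (hG : G.IsHomogeneous d)
    (h : ∀ x : Fin 2 → AlgebraicClosure K, x ≠ 0 → ¬ (aeval x F = 0 ∧ aeval x G = 0))
    (h0 : ∀ v : Fin 2 → K, v ≠ 0 → Phi F G v ≠ 0) {m : ℕ} (hm : 0 < m)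
    {V : Type*} {av : V → AbsoluteValue K ℝ} (S : Sys K V av (PP K))
    (hc : ∀ x y, S.c x y = br x.rep y.rep) {a b e a' b' e' : PP K} (hab : a ≠ b) (hae : a ≠ e)
    (hbe : b ≠ e) (hab' : a' ≠ b') (hae' : a' ≠ e') (hbe' : b' ≠ e') (T : Finset (PP K))
    (hT : ∀ y ∈ T, y ≠ a ∧ (fX F G h0)^[m] y ≠ a' ∧
      S.co a b e y = S.co a' b' e' ((fX F G h0)^[m] y)) : T.card ≤ d ^ m + 2 := by
  have hne : ∀ x y : PP K, x ≠ y → br x.rep y.rep ≠ 0 := by
    intro x y hxy hz
    exact hxy ((S.c_zero x y).1 (by rw [hc]; exact hz))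
  set s : K := br b'.rep e'.rep * br e.rep a.rep with hs
  set t : K := -(br a'.rep e'.rep * br e.rep b.rep) with ht
  have hs0 : s ≠ 0 := mul_ne_zero (hne _ _ hbe') (hne _ _ hae.symm)
  have ht0 : t ≠ 0 := neg_ne_zero.2 (mul_ne_zero (hne _ _ hae') (hne _ _ hbe.symm))
  have hit := it_hom hF hG m
  set P := (it F G m).1 with hP
  set Q := (it F G m).2 with hQ
  let Fr : Fin 2 → MvPolynomial (Fin 2) K := fun i =>
    C (s * b.rep i) * (C (a'.rep 0) * Q - C (a'.rep 1) * P) +
      C (t * a.rep i) * (C (b'.rep 0) * Q - C (b'.rep 1) * P)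
  have hCm : ∀ (r : K) {H : MvPolynomial (Fin 2) K} {N : ℕ}, H.IsHomogeneous N →
      (C r * H).IsHomogeneous N := by
    intro r H N hH
    have h1 := (isHomogeneous_C (Fin 2) r).mul hH
    rwa [zero_add] at h1
  have hFr : ∀ i, (Fr i).IsHomogeneous (d ^ m) := by
    intro i
    exact (hCm _ ((hCm _ hit.2).sub (hCm _ hit.1))).add
      (hCm _ ((hCm _ hit.2).sub (hCm _ hit.1)))
  have hev : ∀ (i : Fin 2) (v : Fin 2 → K), eval v (Fr i) =
      s * b.rep i * (a'.rep 0 * eval v Q - a'.rep 1 * eval v P) +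
      t * a.rep i * (b'.rep 0 * eval v Q - b'.rep 1 * eval v P) := by
    intro i v
    simp only [Fr, map_add, map_mul, map_sub, eval_C]
  have hnz : ∀ x : Fin 2 → AlgebraicClosure K, x ≠ 0 →
      ¬ (aeval x (Fr 0) = 0 ∧ aeval x (Fr 1) = 0) := by
    intro x hx ⟨g0, g1⟩
    have hu := nz_iter h m x hx
    rw [← it_eval] at hu
    set ι := algebraMap K (AlgebraicClosure K) with hι
    have hinj : ∀ r : K, r ≠ 0 → ι r ≠ 0 := fun r hr => (map_ne_zero ι).2 hr
    have hae' : ∀ i : Fin 2, aeval x (Fr i) =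
        ι s * ι (b.rep i) * (ι (a'.rep 0) * aeval x Q - ι (a'.rep 1) * aeval x P) +
        ι t * ι (a.rep i) * (ι (b'.rep 0) * aeval x Q - ι (b'.rep 1) * aeval x P) := by
      intro i
      simp only [Fr, map_add, map_mul, map_sub, aeval_C]
      rfl
    rw [hae'] at g0 g1
    set α := ι (a'.rep 0) * aeval x Q - ι (a'.rep 1) * aeval x P with hα
    set β := ι (b'.rep 0) * aeval x Q - ι (b'.rep 1) * aeval x P with hβ
    have hD : ι (br b.rep a.rep) = ι (b.rep 0) * ι (a.rep 1) - ι (b.rep 1) * ι (a.rep 0) := by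
      unfold br
      rw [map_sub, map_mul, map_mul]
    have hD' : ι (br a'.rep b'.rep) =
        ι (a'.rep 0) * ι (b'.rep 1) - ι (a'.rep 1) * ι (b'.rep 0) := by
      unfold br
      rw [map_sub, map_mul, map_mul]
    have hα0 : α = 0 := by
      have h1 : ι s * α * ι (br b.rep a.rep) = 0 := by
        rw [hD]
        linear_combination ι (a.rep 1) * g0 - ι (a.rep 0) * g1
      have h2 := (mul_eq_zero.1 h1).resolve_right (hinj _ (hne _ _ hab.symm))
      exact (mul_eq_zero.1 h2).resolve_left (hinj _ hs0)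
    have hβ0 : β = 0 := by
      have h1 : ι t * β * ι (br b.rep a.rep) = 0 := by
        rw [hD]
        linear_combination ι (b.rep 0) * g1 - ι (b.rep 1) * g0
      have h2 := (mul_eq_zero.1 h1).resolve_right (hinj _ (hne _ _ hab.symm))
      exact (mul_eq_zero.1 h2).resolve_left (hinj _ ht0)
    have hQ0 : aeval x Q = 0 := by
      have h1 : ι (br a'.rep b'.rep) * aeval x Q = 0 := by
        rw [hD']
        linear_combination ι (b'.rep 1) * hα0 - ι (a'.rep 1) * hβ0
      exact (mul_eq_zero.1 h1).resolve_left (hinj _ (hne _ _ hab'))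
    have hP0 : aeval x P = 0 := by
      have h1 : ι (br a'.rep b'.rep) * aeval x P = 0 := by
        rw [hD']
        linear_combination ι (b'.rep 0) * hα0 - ι (a'.rep 0) * hβ0
      exact (mul_eq_zero.1 h1).resolve_left (hinj _ (hne _ _ hab'))
    apply hu
    rw [hP0, hQ0]
    ext i
    fin_cases i <;> rfl
  have hdm : 2 ≤ d ^ m := hd.trans (Nat.le_self_pow hm.ne' d)
  have hcount := count hdm (hFr 0) (hFr 1) hnz (m := 1) (n := 0) (by norm_num) T (by
    intro y hy
    obtain ⟨h1, h2, h3⟩ := hT y hy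
    obtain ⟨κ, hκ, hrep⟩ := rep_iter hF hG h0 y m
    have hu : (Phi F G)^[m] y.rep = ![eval y.rep P, eval y.rep Q] := by
      rw [← phiK_rat, ← it_eval, aev, aev]
    have hu0 : ((fX F G h0)^[m] y).rep 0 = κ * eval y.rep P := by rw [hrep, hu]; rfl
    have hu1 : ((fX F G h0)^[m] y).rep 1 = κ * eval y.rep Q := by rw [hrep, hu]; rfl
    have n1 := hne _ _ h1.symm
    have n2 := hne _ _ h2.symm
    have n3 := hne _ _ hbe
    have n4 := hne _ _ hbe'
    unfold Sys.co at h3
    rw [hc, hc, hc, hc, hc, hc, hc, hc, div_eq_div_iff (mul_ne_zero n1 n3) (mul_ne_zero n2 n4)] at h3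
    have key : κ * br (Phi (Fr 0) (Fr 1) y.rep) y.rep = 0 := by
      have e1 : br (Phi (Fr 0) (Fr 1) y.rep) y.rep =
          eval y.rep (Fr 0) * y.rep 1 - eval y.rep (Fr 1) * y.rep 0 := rfl
      rw [e1, hev, hev, hs, ht]
      unfold br at h3 ⊢
      rw [hu0, hu1] at h3
      linear_combination h3
    rw [iterate_one, iterate_zero, id]
    exact (mul_eq_zero.1 key).resolve_left hκ)
  calc T.card ≤ (d ^ m) ^ 1 + (d ^ m) ^ 0 + 1 := hcount
    _ = d ^ m + 2 := by rw [pow_one, pow_zero]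

/-- **The number of periodic points.** -/
theorem per_count (hd : 2 ≤ d) (hF : F.IsHomogeneous d) (hG : G.IsHomogeneous d)
    (h : ∀ x : Fin 2 → AlgebraicClosure K, x ≠ 0 → ¬ (aeval x F = 0 ∧ aeval x G = 0))
    (h0 : ∀ v : Fin 2 → K, v ≠ 0 → Phi F G v ≠ 0)
    {V : Type*} {av : V → AbsoluteValue K ℝ} {S : Sys K V av (PP K)}
    (hc : ∀ x y, S.c x y = br x.rep y.rep) {B : ℕ} (hB : ClsB av B)
    (hf : S.NonExp (fX F G h0)) (P : Finset (PP K))
    (hP : ∀ x ∈ P, x ∈ periodicPts (fX F G h0)) : P.card ≤ 3 + B ^ 2 * (d ^ B + 2) := by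
  classical
  by_cases hP3 : P.card ≤ 3
  · omega
  rw [not_le] at hP3
  obtain ⟨A₁, A₂, A₃, hA₁, hA₂, hA₃, h12, h13, h23⟩ := Finset.two_lt_card_iff.1
    (show 2 < P.card by omega)
  set f := fX F G h0 with hfdef
  have hne : ∀ x ∈ P, ∀ y ∈ P, x ≠ y → ∀ k, f^[k] x ≠ f^[k] y := fun x hx y hy hxy k hk =>
    hxy (per_inj (hP x hx) (hP y hy) k hk)
  let z : ℕ → PP K → K := fun k Q => S.co (f^[k] A₁) (f^[k] A₂) (f^[k] A₃) (f^[k] Q)
  set P' := P \ {A₁, A₂, A₃} with hP'
  have hmem : ∀ Q ∈ P', Q ∈ P ∧ Q ≠ A₁ ∧ Q ≠ A₂ ∧ Q ≠ A₃ := by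
    intro Q hQ
    obtain ⟨h1, h2⟩ := Finset.mem_sdiff.1 hQ
    simp only [Finset.mem_insert, Finset.mem_singleton, not_or] at h2
    exact ⟨h1, h2.1, h2.2.1, h2.2.2⟩
  have hcoin : ∀ Q ∈ P', ∃ i m, i < B ∧ m < B ∧ z i Q = z (i + (m + 1)) Q := by
    intro Q hQ
    obtain ⟨q0, q1, q2, q3⟩ := hmem Q hQ
    have hcard : ((Finset.range (B + 1)).image (fun k => z k Q)).card ≤ B := by
      apply hB
      · intro x hx
        obtain ⟨k, -, rfl⟩ := Finset.mem_image.1 hx
        refine ⟨?_, ?_⟩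
        · show S.co _ _ _ _ ≠ 0
          unfold Sys.co
          exact div_ne_zero (neg_ne_zero.2 (mul_ne_zero
            (S.c_ne (hne _ hA₁ _ hA₃ h13 k)) (S.c_ne (hne _ hA₂ _ q0 q2.symm k))))
            (mul_ne_zero (S.c_ne (hne _ hA₁ _ q0 q1.symm k)) (S.c_ne (hne _ hA₂ _ hA₃ h23 k)))
        · show S.co _ _ _ _ + 1 ≠ 0
          rw [S.co_add (hne _ q0 _ hA₁ q1 k) (hne _ hA₂ _ hA₃ h23 k)]
          exact div_ne_zero (neg_ne_zero.2 (mul_ne_zero
            (S.c_ne (hne _ hA₁ _ hA₂ h12 k)) (S.c_ne (hne _ hA₃ _ q0 q3.symm k))))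
            (mul_ne_zero (S.c_ne (hne _ hA₁ _ q0 q1.symm k)) (S.c_ne (hne _ hA₂ _ hA₃ h23 k)))
      · intro x hx y hy v
        obtain ⟨k, -, rfl⟩ := Finset.mem_image.1 hx
        obtain ⟨l, -, rfl⟩ := Finset.mem_image.1 hy
        show av v (S.co _ _ _ _) = av v (S.co _ _ _ _) ∧
          av v (S.co _ _ _ _ + 1) = av v (S.co _ _ _ _ + 1)
        rw [S.av_co, S.av_co, S.av_co_add v (hne _ q0 _ hA₁ q1 k) (hne _ hA₂ _ hA₃ h23 k),
          S.av_co_add v (hne _ q0 _ hA₁ q1 l) (hne _ hA₂ _ hA₃ h23 l)]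
        simp only [iso_iter hf (hP _ hA₁) (hP _ hA₂) v, iso_iter hf (hP _ hA₁) (hP _ hA₃) v,
          iso_iter hf (hP _ hA₂) (hP _ hA₃) v, iso_iter hf (hP _ hA₁) (hP _ q0) v,
          iso_iter hf (hP _ hA₂) (hP _ q0) v, iso_iter hf (hP _ hA₃) (hP _ q0) v]
        exact ⟨trivial, trivial⟩
    obtain ⟨i, hi, j, hj, hij, hz⟩ := Finset.exists_ne_map_eq_of_card_lt_of_maps_to
      (s := Finset.range (B + 1)) (t := (Finset.range (B + 1)).image (fun k => z k Q))
      (f := fun k => z k Q) (by rw [Finset.card_range]; omega)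
      (fun k hk => Finset.mem_image_of_mem _ hk)
    rw [Finset.mem_range] at hi hj
    rcases Nat.lt_or_gt_of_ne hij with h1 | h1
    · refine ⟨i, j - i - 1, by omega, by omega, ?_⟩
      rw [show i + (j - i - 1 + 1) = j by omega]
      exact hz
    · refine ⟨j, i - j - 1, by omega, by omega, ?_⟩
      rw [show j + (i - j - 1 + 1) = i by omega]
      exact hz.symm
  have hcov : P' ⊆ (Finset.range B ×ˢ Finset.range B).biUnion
      (fun r => P'.filter (fun Q => z r.1 Q = z (r.1 + (r.2 + 1)) Q)) := by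
    intro Q hQ
    obtain ⟨i, m, hi, hm, hz⟩ := hcoin Q hQ
    rw [Finset.mem_biUnion]
    exact ⟨(i, m), Finset.mem_product.2 ⟨Finset.mem_range.2 hi, Finset.mem_range.2 hm⟩,
      Finset.mem_filter.2 ⟨hQ, hz⟩⟩
  have hone : ∀ r ∈ Finset.range B ×ˢ Finset.range B,
      (P'.filter (fun Q => z r.1 Q = z (r.1 + (r.2 + 1)) Q)).card ≤ d ^ B + 2 := by
    rintro ⟨i, m⟩ hr
    rw [Finset.mem_product, Finset.mem_range, Finset.mem_range] at hr
    show (P'.filter (fun Q => z i Q = z (i + (m + 1)) Q)).card ≤ d ^ B + 2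
    have hinj : Set.InjOn (f^[i]) (P'.filter (fun Q => z i Q = z (i + (m + 1)) Q) :
        Set (PP K)) := by
      intro x hx y hy hxy
      rw [Finset.mem_coe, Finset.mem_filter] at hx hy
      exact per_inj (hP _ (hmem x hx.1).1) (hP _ (hmem y hy.1).1) i hxy
    rw [← Finset.card_image_of_injOn hinj]
    have hcomp : ∀ x : PP K, f^[m + 1] (f^[i] x) = f^[i + (m + 1)] x := by
      intro x
      rw [← iterate_add_apply, Nat.add_comm]
    have h4 := moebius_count hd hF hG h h0 (m := m + 1) (by omega) S hc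
      (hne _ hA₁ _ hA₂ h12 i) (hne _ hA₁ _ hA₃ h13 i) (hne _ hA₂ _ hA₃ h23 i)
      (hne _ hA₁ _ hA₂ h12 (i + (m + 1))) (hne _ hA₁ _ hA₃ h13 (i + (m + 1)))
      (hne _ hA₂ _ hA₃ h23 (i + (m + 1)))
      ((P'.filter (fun Q => z i Q = z (i + (m + 1)) Q)).image (f^[i])) (by
        intro y hy
        obtain ⟨Q, hQ, rfl⟩ := Finset.mem_image.1 hy
        obtain ⟨hQ1, hQ2⟩ := Finset.mem_filter.1 hQ
        obtain ⟨q0, q1, q2, q3⟩ := hmem Q hQ1
        refine ⟨hne _ q0 _ hA₁ q1 i, ?_, ?_⟩
        · rw [← hfdef, hcomp]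
          exact hne _ q0 _ hA₁ q1 _
        · rw [← hfdef, hcomp]
          exact hQ2)
    refine h4.trans (Nat.add_le_add_right ?_ 2)
    exact Nat.pow_le_pow_right (by omega) (by omega)
  have hP'c : P'.card ≤ B ^ 2 * (d ^ B + 2) := by
    calc P'.card ≤ _ := Finset.card_le_card hcov
      _ ≤ (Finset.range B ×ˢ Finset.range B).card * (d ^ B + 2) :=
        Finset.card_biUnion_le_card_mul _ _ _ hone
      _ = B ^ 2 * (d ^ B + 2) := by
        rw [Finset.card_product, Finset.card_range, pow_two]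
  have hPs : P ⊆ P' ∪ {A₁, A₂, A₃} := by
    intro x hx
    by_cases h1 : x ∈ ({A₁, A₂, A₃} : Finset (PP K))
    · exact Finset.mem_union_right _ h1
    · exact Finset.mem_union_left _ (Finset.mem_sdiff.2 ⟨hx, h1⟩)
  calc P.card ≤ (P' ∪ {A₁, A₂, A₃}).card := Finset.card_le_card hPs
    _ ≤ P'.card + ({A₁, A₂, A₃} : Finset (PP K)).card := Finset.card_union_le _ _
    _ ≤ B ^ 2 * (d ^ B + 2) + 3 := Nat.add_le_add hP'c Finset.card_le_three
    _ = 3 + B ^ 2 * (d ^ B + 2) := by ring

end Pool.Agent.K3h68.UP
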