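import Mathlib
import Pool.Agent.K3h68.UP.Abs

set_option autoImplicit false

/-!
# Cycles: every prime power dividing the length of a cycle is at most `(B + 3) ^ 3`
-/

namespace Pool.Agent.K3h68.UP

open Function

variable {K : Type*} [Field K] {V : Type*} {av : V → AbsoluteValue K ℝ} {X : Type*} {B : ℕ}
  {S : Sys K V av X}

/-- distance along the orbit -/
noncomputable def D (S : Sys K V av X) (f : X → X) (x : X) (p : V) (k : ℕ) : ℝ :=
  S.δ p x (f^[k] x)

lemma per_mul {f : X → X} {x : X} {n : ℕ} (hx : minimalPeriod f x = n) (i : ℕ) :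
    f^[n * i] x = x := by
  have h : IsPeriodicPt f n x := by rw [← hx]; exact isPeriodicPt_minimalPeriod f x
  exact (h.mul_const i)

lemma c1 {f : X → X} (hf : S.NonExp f) {x : X} {n : ℕ} (hx : minimalPeriod f x = n) (hn : 0 < n)
    (p : V) (i k : ℕ) : S.δ p (f^[i] x) (f^[i + k] x) = D S f x p k := by
  apply le_antisymm
  · rw [Function.iterate_add_apply]
    exact hf.iterate i p _ _
  · have h1 := hf.iterate (n * i - i) p (f^[i] x) (f^[i + k] x)
    have hle : i ≤ n * i := Nat.le_mul_of_pos_left i hn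
    rw [← Function.iterate_add_apply, ← Function.iterate_add_apply] at h1
    have e1 : n * i - i + i = n * i := by omega
    have e2 : n * i - i + (i + k) = k + n * i := by omega
    rw [e1, e2, Function.iterate_add_apply f k, per_mul hx i] at h1
    exact h1

lemma c2 {f : X → X} (hf : S.NonExp f) {x : X} {n : ℕ} (hx : minimalPeriod f x = n) (hn : 0 < n)
    (p : V) (m k : ℕ) : D S f x p (m * k) ≤ D S f x p k := by
  induction m with
  | zero =>
    have : D S f x p (0 * k) = 0 := by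
      unfold D; rw [zero_mul]; exact S.self p x
    rw [this]; exact S.nonneg p _ _
  | succ m ih =>
    have h1 := S.ultra' p x (f^[m * k] x) (f^[m * k + k] x)
    rw [c1 hf hx hn p (m * k) k] at h1
    rw [Nat.succ_mul]
    exact h1.trans (max_le ih (le_refl _))

lemma D_gcd {f : X → X} (hf : S.NonExp f) {x : X} {n : ℕ} (hx : minimalPeriod f x = n)
    (hn : 0 < n) (p : V) (k : ℕ) : D S f x p k = D S f x p (Nat.gcd k n) := by
  apply le_antisymm
  · obtain ⟨m, hm⟩ := Nat.gcd_dvd_left k n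
    have := c2 hf hx hn p m (Nat.gcd k n)
    rwa [mul_comm m, ← hm] at this
  · rcases lt_or_eq_of_le (Nat.le_of_dvd hn (Nat.gcd_dvd_right k n)) with h | h
    · obtain ⟨m, _, hm⟩ := Nat.exists_mul_mod_eq_gcd h
      have h1 := c2 hf hx hn p m k
      have h2 : D S f x p (m * k) = D S f x p (Nat.gcd k n) := by
        unfold D
        have h3 : f^[(m * k) % n] x = f^[m * k] x := by
          rw [← hx]; exact iterate_mod_minimalPeriod_eq
        rw [← h3, mul_comm m k, hm]
      rw [← h2]; exact h1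
    · rw [h]
      have h1 : D S f x p n = 0 := by
        unfold D
        have h3 := per_mul hx 1
        rw [mul_one] at h3
        rw [h3]
        exact S.self p x
      rw [h1]
      exact S.nonneg p _ _

lemma ne_of_lt' {f : X → X} {x : X} {n : ℕ} (hx : minimalPeriod f x = n) {i j : ℕ} (hij : i < j)
    (hj : j < n) : f^[i] x ≠ f^[j] x := by
  intro h
  have := iterate_injOn_Iio_minimalPeriod (f := f) (x := x) (x₁ := i) (x₂ := j)
    (by rw [Set.mem_Iio, hx]; omega) (by rw [Set.mem_Iio, hx]; exact hj) h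
  omega

lemma mp_iter {f : X → X} {x : X} {n r : ℕ} (hx : minimalPeriod f x = r * n) (hr : 0 < r) :
    minimalPeriod (f^[r]) x = n := by
  rw [minimalPeriod_iterate_eq_div_gcd (by omega), hx, Nat.gcd_eq_right (Dvd.intro _ rfl)]
  exact Nat.mul_div_cancel_left n hr

lemma gcd_aux {p : ℕ} (hp : p.Prime) (e a t : ℕ) (ha : ¬ p ^ 2 ∣ a) :
    Nat.gcd (a + p ^ 2 * t) (p ^ e) = Nat.gcd a (p ^ e) := by
  have key : ∀ b c : ℕ, ¬ p ^ 2 ∣ b → (∀ m, m ∣ p ^ 2 → m ∣ b → m ∣ c) →
      Nat.gcd b (p ^ e) ∣ Nat.gcd c (p ^ e) := by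
    intro b c hb hbc
    refine Nat.dvd_gcd ?_ (Nat.gcd_dvd_right _ _)
    obtain ⟨j, hj, hg⟩ := (Nat.dvd_prime_pow hp).1 (Nat.gcd_dvd_right b (p ^ e))
    have h1 : p ^ j ∣ b := by rw [← hg]; exact Nat.gcd_dvd_left _ _
    have h2 : j ≤ 2 := by
      by_contra h
      exact hb ((pow_dvd_pow p (by omega)).trans h1)
    rw [hg]
    exact hbc _ (pow_dvd_pow p h2) h1
  apply Nat.dvd_antisymm
  · apply key
    · intro h
      exact ha ((Nat.dvd_add_left (Dvd.intro t rfl)).1 h)
    · intro m hm hmb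
      exact (Nat.dvd_add_left (hm.mul_right t)).1 hmb
  · apply key _ _ ha
    intro m hm hmb
    exact (Nat.dvd_add_left (hm.mul_right t)).2 hmb

/-- the lengths of the cycles of prime length are at most `B + 3` -/
theorem prime_le (hB : ClsB av B) {f : X → X} (hf : S.NonExp f) {x : X} {p : ℕ} (hp : p.Prime)
    (hx : minimalPeriod f x = p) : p ≤ B + 3 := by
  classical
  by_contra hcon
  rw [not_le] at hcon
  have hD : ∀ v i, 0 < i → i < p → D S f x v i = D S f x v 1 := by
    intro v i h0 h1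
    rw [D_gcd hf hx hp.pos v i, Nat.Coprime.gcd_eq_one
      (Nat.Coprime.symm ((Nat.Prime.coprime_iff_not_dvd hp).2
        (Nat.not_dvd_of_pos_of_lt h0 h1)))]
  let T : Finset X := (Finset.Ico 3 p).image (fun i => f^[i] x)
  have hTc : T.card = p - 3 := by
    rw [Finset.card_image_of_injOn, Nat.card_Ico]
    intro i hi j hj hij
    rw [Finset.coe_Ico, Set.mem_Ico] at hi hj
    rcases lt_trichotomy i j with h | h | h
    · exact absurd hij (ne_of_lt' hx h hj.2)
    · exact h
    · exact absurd hij.symm (ne_of_lt' hx h hi.2)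
  have h1 := S.three_eq hB (a := f^[0] x) (b := f^[1] x) (e := f^[2] x)
    (ne_of_lt' hx (by omega) (by omega))
    (ne_of_lt' hx (by omega) (by omega)) (ne_of_lt' hx (by omega) (by omega)) T (by
      intro y hy
      obtain ⟨j, hj, rfl⟩ := Finset.mem_image.1 hy
      rw [Finset.mem_Ico] at hj
      exact ⟨(ne_of_lt' hx (by omega) hj.2).symm, (ne_of_lt' hx (by omega) hj.2).symm,
        (ne_of_lt' hx (by omega) hj.2).symm⟩) (by
      intro y hy v
      obtain ⟨j, hj, rfl⟩ := Finset.mem_image.1 hy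
      rw [Finset.mem_Ico] at hj
      have e0 := c1 hf hx hp.pos v 0 j
      have e1 := c1 hf hx hp.pos v 1 (j - 1)
      have e2 := c1 hf hx hp.pos v 2 (j - 2)
      rw [show 0 + j = j by omega, hD v j (by omega) hj.2] at e0
      rw [show 1 + (j - 1) = j by omega, hD v (j - 1) (by omega) (by omega)] at e1
      rw [show 2 + (j - 2) = j by omega, hD v (j - 2) (by omega) (by omega)] at e2
      show S.δ v (f^[0] x) (f^[j] x) = S.δ v (f^[1] x) (f^[j] x) ∧
        S.δ v (f^[0] x) (f^[j] x) = S.δ v (f^[2] x) (f^[j] x)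
      rw [e0, e1, e2]
      exact ⟨rfl, rfl⟩)
  omega

/-- the lengths of the cycles of length a prime power -/
theorem prime_pow_le (hB : ClsB av B) {f : X → X} (hf : S.NonExp f) {x : X} {p e : ℕ} (hp : p.Prime)
    (hx : minimalPeriod f x = p ^ (e + 2)) : p ^ e ≤ B := by
  classical
  have hn : 0 < p ^ (e + 2) := pow_pos hp.pos _
  have hp2 : 4 ≤ p ^ 2 := by have := hp.two_le; nlinarith
  have hsplit : p ^ (e + 2) = p ^ 2 * p ^ e := by rw [pow_add, mul_comm]
  have hlt : ∀ t, t < p ^ e → 3 + p ^ 2 * t < p ^ (e + 2) := by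
    intro t ht
    rw [hsplit]
    have h1 : p ^ 2 * (t + 1) ≤ p ^ 2 * p ^ e := Nat.mul_le_mul_left _ ht
    rw [Nat.mul_add, Nat.mul_one] at h1
    omega
  have hD : ∀ v a t, 0 < a → a < 4 → D S f x v (a + p ^ 2 * t) = D S f x v a := by
    intro v a t h0 h1
    rw [D_gcd hf hx hn v (a + p ^ 2 * t), D_gcd hf hx hn v a, gcd_aux hp]
    exact Nat.not_dvd_of_pos_of_lt h0 (by omega)
  let T : Finset X := (Finset.range (p ^ e)).image (fun t => f^[3 + p ^ 2 * t] x)
  have hTc : T.card = p ^ e := by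
    rw [Finset.card_image_of_injOn, Finset.card_range]
    intro i hi j hj hij
    rw [Finset.coe_range, Set.mem_Iio] at hi hj
    have hmono : ∀ a b : ℕ, a < b → 3 + p ^ 2 * a < 3 + p ^ 2 * b := by
      intro a b hab
      have := Nat.mul_lt_mul_of_pos_left hab (show 0 < p ^ 2 by omega)
      omega
    rcases lt_trichotomy i j with h | h | h
    · exact absurd hij (ne_of_lt' hx (hmono i j h) (hlt j hj))
    · exact h
    · exact absurd hij.symm (ne_of_lt' hx (hmono j i h) (hlt i hi))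
  have h3 : 3 + p ^ 2 * 0 < p ^ (e + 2) := hlt 0 (pow_pos hp.pos e)
  have h1 := S.three hB (a := f^[0] x) (b := f^[1] x) (e := f^[2] x)
    (ne_of_lt' hx (by omega) (by omega))
    (ne_of_lt' hx (by omega) (by omega)) (ne_of_lt' hx (by omega) (by omega)) T (by
      intro y hy
      obtain ⟨t, ht, rfl⟩ := Finset.mem_image.1 hy
      rw [Finset.mem_range] at ht
      have := hlt t ht
      exact ⟨(ne_of_lt' hx (by omega) this).symm, (ne_of_lt' hx (by omega) this).symm,
        (ne_of_lt' hx (by omega) this).symm⟩) (by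
      have e0 : ∀ t v, S.δ v (f^[0] x) (f^[3 + p ^ 2 * t] x) = D S f x v 3 := by
        intro t v
        have := c1 hf hx hn v 0 (3 + p ^ 2 * t)
        rwa [Nat.zero_add, hD v 3 t (by norm_num) (by norm_num)] at this
      have e1 : ∀ t v, S.δ v (f^[1] x) (f^[3 + p ^ 2 * t] x) = D S f x v 2 := by
        intro t v
        have := c1 hf hx hn v 1 (2 + p ^ 2 * t)
        rwa [← Nat.add_assoc, hD v 2 t (by norm_num) (by norm_num)] at this
      have e2 : ∀ t v, S.δ v (f^[2] x) (f^[3 + p ^ 2 * t] x) = D S f x v 1 := by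
        intro t v
        have := c1 hf hx hn v 2 (1 + p ^ 2 * t)
        rwa [← Nat.add_assoc, hD v 1 t (by norm_num) (by norm_num)] at this
      intro y hy z hz v
      obtain ⟨t, ht, rfl⟩ := Finset.mem_image.1 hy
      obtain ⟨u, hu, rfl⟩ := Finset.mem_image.1 hz
      show S.δ v (f^[0] x) (f^[3 + p ^ 2 * t] x) * S.δ v (f^[1] x) (f^[3 + p ^ 2 * u] x) =
          S.δ v (f^[0] x) (f^[3 + p ^ 2 * u] x) * S.δ v (f^[1] x) (f^[3 + p ^ 2 * t] x) ∧
        S.δ v (f^[0] x) (f^[3 + p ^ 2 * t] x) * S.δ v (f^[2] x) (f^[3 + p ^ 2 * u] x) =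
          S.δ v (f^[0] x) (f^[3 + p ^ 2 * u] x) * S.δ v (f^[2] x) (f^[3 + p ^ 2 * t] x)
      rw [e0, e0, e1, e1, e2, e2]
      exact ⟨rfl, rfl⟩)
  rwa [hTc] at h1

/-- **Every prime power which divides the length of a cycle is at most `(B + 3) ^ 3`.** -/
theorem prime_pow_dvd_le (hB : ClsB av B) {f : X → X} (hf : S.NonExp f) {x : X} {n : ℕ}
    (hx : minimalPeriod f x = n) (hn : 0 < n) {p e : ℕ} (hp : p.Prime) (hd : p ^ e ∣ n) :
    p ^ e ≤ (B + 3) ^ 3 := by
  have hstep : ∀ e, p ^ e ∣ n → ∃ r, 0 < r ∧ minimalPeriod (f^[r]) x = p ^ e := by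
    intro e hd
    obtain ⟨r, hr⟩ := hd
    have hr0 : 0 < r := by
      rcases Nat.eq_zero_or_pos r with h | h
      · rw [h] at hr; omega
      · exact h
    exact ⟨r, hr0, mp_iter (by rw [hx, hr, mul_comm]) hr0⟩
  have hp1 : 1 ≤ e → p ≤ B + 3 := by
    intro he
    obtain ⟨r, hr0, hr⟩ := hstep 1 ((pow_dvd_pow p he).trans hd)
    rw [pow_one] at hr
    exact prime_le hB (hf.iterate r) hp hr
  rcases Nat.lt_or_ge e 2 with he | he
  · rcases Nat.eq_zero_or_pos e with h0 | h0
    · rw [h0, pow_zero]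
      exact Nat.one_le_pow _ _ (by omega)
    · rw [show e = 1 by omega, pow_one]
      exact (hp1 h0).trans (Nat.le_self_pow (by norm_num) _)
  · obtain ⟨m, rfl⟩ : ∃ m, e = m + 2 := ⟨e - 2, by omega⟩
    obtain ⟨r, hr0, hr⟩ := hstep (m + 2) hd
    have h1 := prime_pow_le hB (hf.iterate r) hp hr
    have h2 := hp1 (by omega)
    calc p ^ (m + 2) = p ^ m * p ^ 2 := pow_add _ _ _
      _ ≤ (B + 3) * (B + 3) ^ 2 := Nat.mul_le_mul (h1.trans (by omega)) (Nat.pow_le_pow_left h2 2)
      _ = (B + 3) ^ 3 := by ring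

/-- the length of a cycle divides the factorial of `(B + 3) ^ 3` -/
theorem dvd_factorial (hB : ClsB av B) {f : X → X} (hf : S.NonExp f) {x : X} {n : ℕ}
    (hx : minimalPeriod f x = n) (hn : 0 < n) : n ∣ ((B + 3) ^ 3).factorial := by
  rw [Nat.dvd_iff_prime_pow_dvd_dvd]
  intro p e hp hd
  exact Nat.dvd_factorial (pow_pos hp.pos e) (prime_pow_dvd_le hB hf hx hn hp hd)

/-- **Tails.** A point whose orbit ends in a cycle of length `n` enters this cycle after at most
`n * (B + 2)` steps. -/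
theorem tail_le (hB : ClsB av B) {f : X → X} (hf : S.NonExp f) {x : X} {a n : ℕ}
    (hx : f^[n] (f^[a] x) = f^[a] x) : f^[n] (f^[n * (B + 2)] x) = f^[n * (B + 2)] x := by
  rcases Nat.eq_zero_or_pos n with h | h
  · rw [h]; rfl
  · have h1 : f^[n] ((f^[n])^[a] x) = (f^[n])^[a] x := by
      rw [← Function.iterate_mul]
      obtain ⟨r, hr⟩ := Nat.exists_eq_add_of_le (Nat.le_mul_of_pos_left a h)
      rw [hr, Nat.add_comm, Function.iterate_add_apply, ← Function.iterate_add_apply,
        Nat.add_comm n r, Function.iterate_add_apply, hx]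
    have h2 := tail hB (hf.iterate n) x a h1
    rwa [← Function.iterate_mul] at h2

/-- preperiodic points: one equation -/
theorem prep (hB : ClsB av B) {f : X → X} (hf : S.NonExp f) {x : X} {a b : ℕ} (hab : a < b)
    (h : f^[b] x = f^[a] x) :
    f^[((B + 3) ^ 3).factorial] (f^[((B + 3) ^ 3).factorial * (B + 2)] x) =
      f^[((B + 3) ^ 3).factorial * (B + 2)] x := by
  have hper : IsPeriodicPt f (b - a) (f^[a] x) := by
    show f^[b - a] (f^[a] x) = f^[a] x
    rw [← Function.iterate_add_apply, Nat.sub_add_cancel hab.le, h]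
  have hpos : 0 < minimalPeriod f (f^[a] x) := hper.minimalPeriod_pos (by omega)
  have hd := dvd_factorial hB hf rfl hpos
  have h1 : f^[((B + 3) ^ 3).factorial] (f^[a] x) = f^[a] x :=
    (isPeriodicPt_minimalPeriod f (f^[a] x)).trans_dvd hd
  exact tail_le hB hf h1

end Pool.Agent.K3h68.UP
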