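import Mathlib
import Pool.Agent.K3h68.UP.Cls
import Pool.Agent.K3h68.UP.Count
import Pool.Agent.K3h68.UP.Cyc

set_option autoImplicit false

/-!
# Number fields: the class bound and the dictionary between vectors and points
-/

namespace Pool.Agent.K3h68.UP

open MvPolynomial Function
open Pool.Agent.H892.PGR (br Phi br_smul)
open Pool.Agent.H892.PGK (PotGood PP fX fX_mk br_zero_iff aev nz_rat)
open NumberField IsDedekindDomain

lemma fv_eq {K : Type} [Field K] [NumberField K] (v : HeightOneSpectrum (𝓞 K)) (x : K) :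
    Pool.Agent.H691R3.fv v x = NumberField.HeightOneSpectrum.adicAbv K v x := by
  show FinitePlace.mk v x = _
  exact FinitePlace.norm_embedding v x

/-- **The class bound over number fields of degree `n`.** -/
theorem cls_nat (n : ℕ) :
    ∃ C : ℕ, 1 ≤ C ∧ ∀ (K : Type) [Field K] [NumberField K], Module.finrank ℚ K = n →
      ∀ S : Finset (HeightOneSpectrum (𝓞 K)),
      ClsB (fun v : {v : HeightOneSpectrum (𝓞 K) // v ∉ S} =>
        NumberField.HeightOneSpectrum.adicAbv K v.1) (C ^ (S.card + 1)) := by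
  obtain ⟨C, hC, h⟩ := class_count n
  refine ⟨⌈C⌉₊, ?_, ?_⟩
  · exact Nat.one_le_iff_ne_zero.2 (Nat.ceil_pos.2 (by linarith)).ne'
  · intro K _ _ hK S E hE hcl
    have h1 := h K hK S E hE (by
      intro x hx y hy v hv
      obtain ⟨a, b⟩ := hcl x hx y hy ⟨v, hv⟩
      rw [fv_eq, fv_eq, fv_eq, fv_eq]
      exact ⟨a, b⟩)
    have h2 : (E.card : ℝ) ≤ ((⌈C⌉₊ ^ (S.card + 1) : ℕ) : ℝ) := by
      refine h1.trans ?_
      rw [Nat.cast_pow]
      exact pow_le_pow_left₀ (by linarith) (Nat.le_ceil C) _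
    exact_mod_cast h2

section dict

variable {K : Type} [Field K]

/-- `x` is a periodic point of the map with the forms `F`, `G` -/
def PerPt (F G : MvPolynomial (Fin 2) K) (x : PP K) : Prop :=
  ∃ (v : Fin 2 → K) (hv : v ≠ 0), Projectivization.mk K v hv = x ∧ ∃ n : ℕ, 0 < n ∧
    ∃ c : K, c ≠ 0 ∧ (fun w : Fin 2 → K => ![eval w F, eval w G])^[n] v = c • v

/-- `x` is a preperiodic point of the map with the forms `F`, `G` -/
def PrePt (F G : MvPolynomial (Fin 2) K) (x : PP K) : Prop :=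
  ∃ (v : Fin 2 → K) (hv : v ≠ 0), Projectivization.mk K v hv = x ∧ ∃ m n : ℕ, m < n ∧
    ∃ c : K, c ≠ 0 ∧ (fun w : Fin 2 → K => ![eval w F, eval w G])^[n] v =
      c • (fun w : Fin 2 → K => ![eval w F, eval w G])^[m] v

variable {F G : MvPolynomial (Fin 2) K} {d : ℕ}

lemma h0_of (h : ∀ x : Fin 2 → AlgebraicClosure K, x ≠ 0 → ¬ (aeval x F = 0 ∧ aeval x G = 0)) :
    ∀ v : Fin 2 → K, v ≠ 0 → Phi F G v ≠ 0 := by
  intro v hv hz
  apply nz_rat h v hv
  rw [aev, aev]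
  exact ⟨congrFun hz 0, congrFun hz 1⟩

lemma perPt_iff (hF : F.IsHomogeneous d) (hG : G.IsHomogeneous d)
    (h0 : ∀ v : Fin 2 → K, v ≠ 0 → Phi F G v ≠ 0) (x : PP K) :
    PerPt F G x ↔ x ∈ periodicPts (fX F G h0) := by
  constructor
  · rintro ⟨v, hv, rfl, n, hn, c, hc, hcv⟩
    have hcv' : (Phi F G)^[n] v = c • v := hcv
    obtain ⟨h1, h2⟩ := iter_rep hF hG h0 v hv n
    refine mem_periodicPts.2 ⟨n, hn, ?_⟩
    show (fX F G h0)^[n] _ = _
    rw [h2, Projectivization.mk_eq_mk_iff']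
    exact ⟨c, hcv'.symm⟩
  · intro hx
    obtain ⟨n, hn, hp⟩ := mem_periodicPts.1 hx
    obtain ⟨c, hc, hr⟩ := rep_iter hF hG h0 x n
    rw [hp.eq] at hr
    refine ⟨x.rep, x.rep_nonzero, Projectivization.mk_rep x, n, hn, c⁻¹, inv_ne_zero hc, ?_⟩
    show (Phi F G)^[n] x.rep = c⁻¹ • x.rep
    conv_rhs => rw [hr]
    rw [smul_smul, inv_mul_cancel₀ hc, one_smul]

lemma prePt_iff (hF : F.IsHomogeneous d) (hG : G.IsHomogeneous d)
    (h0 : ∀ v : Fin 2 → K, v ≠ 0 → Phi F G v ≠ 0) (x : PP K) :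
    PrePt F G x ↔ ∃ k, (fX F G h0)^[k] x ∈ periodicPts (fX F G h0) := by
  constructor
  · rintro ⟨v, hv, rfl, m, n, hmn, c, hc, hcv⟩
    have hcv' : (Phi F G)^[n] v = c • (Phi F G)^[m] v := hcv
    obtain ⟨h1, h2⟩ := iter_rep hF hG h0 v hv n
    obtain ⟨g1, g2⟩ := iter_rep hF hG h0 v hv m
    refine ⟨m, mem_periodicPts.2 ⟨n - m, by omega, ?_⟩⟩
    show (fX F G h0)^[n - m] ((fX F G h0)^[m] _) = (fX F G h0)^[m] _
    rw [← iterate_add_apply, Nat.sub_add_cancel hmn.le, h2, g2, Projectivization.mk_eq_mk_iff']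
    exact ⟨c, hcv'.symm⟩
  · rintro ⟨k, hk⟩
    obtain ⟨n, hn, hp⟩ := mem_periodicPts.1 hk
    obtain ⟨c, hc, hr⟩ := rep_iter hF hG h0 x k
    obtain ⟨e, he, hs⟩ := rep_iter hF hG h0 x (n + k)
    have h1 : (fX F G h0)^[n + k] x = (fX F G h0)^[k] x := by
      rw [iterate_add_apply]
      exact hp.eq
    rw [h1] at hs
    refine ⟨x.rep, x.rep_nonzero, Projectivization.mk_rep x, k, n + k, by omega, e⁻¹ * c,
      mul_ne_zero (inv_ne_zero he) hc, ?_⟩
    show (Phi F G)^[n + k] x.rep = (e⁻¹ * c) • (Phi F G)^[k] x.rep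
    rw [mul_smul, ← hr, hs, smul_smul, inv_mul_cancel₀ he, one_smul]

lemma no_fix (hF : F.IsHomogeneous d) (hG : G.IsHomogeneous d)
    (h0 : ∀ v : Fin 2 → K, v ≠ 0 → Phi F G v ≠ 0) (x : PP K)
    (hx : ∀ (v : Fin 2 → K) (hv : v ≠ 0), Projectivization.mk K v hv = x → ∀ n : ℕ,
      ¬ ∃ c : K, c ≠ 0 ∧ (fun w : Fin 2 → K => ![eval w F, eval w G])^[n + 1] v =
      c • (fun w : Fin 2 → K => ![eval w F, eval w G])^[n] v) (k : ℕ) :
    fX F G h0 ((fX F G h0)^[k] x) ≠ (fX F G h0)^[k] x := by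
  intro h1
  rw [← iterate_succ_apply' (fX F G h0)] at h1
  obtain ⟨c, hc, hr⟩ := rep_iter hF hG h0 x k
  obtain ⟨e, he, hs⟩ := rep_iter hF hG h0 x (k + 1)
  rw [show (k + 1) = k.succ from rfl, h1] at hs
  apply hx x.rep x.rep_nonzero (Projectivization.mk_rep x) k
  refine ⟨e⁻¹ * c, mul_ne_zero (inv_ne_zero he) hc, ?_⟩
  show (Phi F G)^[k.succ] x.rep = (e⁻¹ * c) • (Phi F G)^[k] x.rep
  rw [mul_smul, ← hr, hs, smul_smul, inv_mul_cancel₀ he, one_smul]

end dict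

end Pool.Agent.K3h68.UP
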