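import Mathlib
import Pool.Agent.K3h68.UP.Aff
import Pool.Agent.K3h68.UP.Cyc

set_option autoImplicit false

/-!
# The lengths of cycles at one place of potentially good reduction
-/

namespace Pool.Agent.K3h68.UP

open Function Finset
open Pool.Agent.H892.PGK (PotGood PP fX fX_mk br_zero_iff)

section seq

variable {L : Type*} [Field L] {w : AbsoluteValue L ℝ}

/-- the shift by `m` multiplies differences by `μ`, approximately -/
def AA (w : AbsoluteValue L ℝ) (t : ℕ → L) (m : ℕ) (μ : L) : Prop :=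
  ∀ i j, t i ≠ t j → w ((t (i + m) - t (j + m)) - μ * (t i - t j)) < w (t i - t j)

variable {t : ℕ → L}

lemma AA.le (hna : ∀ x y : L, w (x + y) ≤ max (w x) (w y)) {m : ℕ} {μ : L} (h : AA w t m μ)
    (hμ : w μ ≤ 1) {i j : ℕ} (hij : t i ≠ t j) : w (t (i + m) - t (j + m)) ≤ w (t i - t j) := by
  have h1 := h i j hij
  have h2 := hna ((t (i + m) - t (j + m)) - μ * (t i - t j)) (μ * (t i - t j))
  rw [sub_add_cancel] at h2
  refine h2.trans (max_le h1.le ?_)
  rw [map_mul]
  calc w μ * w (t i - t j) ≤ 1 * w (t i - t j) := mul_le_mul_of_nonneg_right hμ (w.nonneg _)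
    _ = _ := one_mul _

lemma AA.add (hna : ∀ x y : L, w (x + y) ≤ max (w x) (w y))
    (hE : ∀ i j k, t i = t j → t (i + k) = t (j + k)) {m m' : ℕ} {μ μ' : L}
    (h : AA w t m μ) (h' : AA w t m' μ') (hμ : w μ ≤ 1) (hμ' : w μ' ≤ 1) :
    AA w t (m + m') (μ * μ') := by
  intro i j hij
  have h1 := h i j hij
  rw [← Nat.add_assoc, ← Nat.add_assoc]
  by_cases he : t (i + m) = t (j + m)
  · rw [hE _ _ m' he, sub_self, zero_sub, w.map_neg]
    rw [he, sub_self, zero_sub, w.map_neg] at h1
    rw [show μ * μ' * (t i - t j) = μ' * (μ * (t i - t j)) by ring, map_mul]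
    calc w μ' * w (μ * (t i - t j)) ≤ 1 * w (μ * (t i - t j)) :=
          mul_le_mul_of_nonneg_right hμ' (w.nonneg _)
      _ < _ := by rw [one_mul]; exact h1
  · have h2 := h' (i + m) (j + m) he
    have h3 := h.le hna hμ hij
    rw [show (t (i + m + m') - t (j + m + m')) - μ * μ' * (t i - t j) =
      ((t (i + m + m') - t (j + m + m')) - μ' * (t (i + m) - t (j + m))) +
      μ' * ((t (i + m) - t (j + m)) - μ * (t i - t j)) by ring]
    refine lt_of_le_of_lt (hna _ _) (max_lt (lt_of_lt_of_le h2 h3) ?_)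
    rw [map_mul]
    calc w μ' * w ((t (i + m) - t (j + m)) - μ * (t i - t j)) ≤
          1 * w ((t (i + m) - t (j + m)) - μ * (t i - t j)) :=
          mul_le_mul_of_nonneg_right hμ' (w.nonneg _)
      _ < _ := by rw [one_mul]; exact h1

lemma AA.zero (w : AbsoluteValue L ℝ) (t : ℕ → L) : AA w t 0 1 := by
  intro i j hij
  rw [one_mul, Nat.add_zero, Nat.add_zero, sub_self, map_zero]
  exact w.pos (sub_ne_zero.2 hij)

lemma AA.pow (hna : ∀ x y : L, w (x + y) ≤ max (w x) (w y))
    (hE : ∀ i j k, t i = t j → t (i + k) = t (j + k)) {m : ℕ} {μ : L}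
    (h : AA w t m μ) (hμ : w μ ≤ 1) (k : ℕ) : AA w t (k * m) (μ ^ k) := by
  induction k with
  | zero =>
    rw [Nat.zero_mul, pow_zero]
    exact AA.zero w t
  | succ k ih =>
    rw [Nat.succ_mul, pow_succ]
    exact ih.add hna hE h (by rw [map_pow]; exact pow_le_one₀ (w.nonneg _) hμ) hμ

lemma AA.close (hna : ∀ x y : L, w (x + y) ≤ max (w x) (w y)) {m : ℕ} {μ : L}
    (h : AA w t m μ) (hμ : w (μ - 1) < 1) : AA w t m 1 := by
  intro i j hij
  rw [show (t (i + m) - t (j + m)) - 1 * (t i - t j) =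
    ((t (i + m) - t (j + m)) - μ * (t i - t j)) + (μ - 1) * (t i - t j) by ring]
  refine lt_of_le_of_lt (hna _ _) (max_lt (h i j hij) ?_)
  rw [map_mul]
  have hpos : 0 < w (t i - t j) := w.pos (sub_ne_zero.2 hij)
  calc w (μ - 1) * w (t i - t j) < 1 * w (t i - t j) := mul_lt_mul_of_pos_right hμ hpos
    _ = _ := one_mul _

lemma nat_le_one (hna : ∀ x y : L, w (x + y) ≤ max (w x) (w y)) (n : ℕ) : w (n : L) ≤ 1 := by
  induction n with
  | zero => rw [Nat.cast_zero, map_zero]; exact zero_le_one
  | succ n ih =>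
    rw [Nat.cast_succ]
    exact (hna _ _).trans (max_le ih (by rw [map_one]))

lemma nat_eq_one (hna : ∀ x y : L, w (x + y) ≤ max (w x) (w y)) {p : ℕ} (hp : p.Prime)
    (hpw : w (p : L) < 1) {n : ℕ} (hn : ¬ p ∣ n) : w (n : L) = 1 := by
  have hcop : Nat.Coprime n p := ((Nat.Prime.coprime_iff_not_dvd hp).2 hn).symm
  obtain ⟨m, _, hm⟩ := Nat.exists_mul_mod_eq_one_of_coprime hcop hp.one_lt
  have h1 : n * m = p * (n * m / p) + 1 := by
    have := Nat.div_add_mod (n * m) p
    rw [hm] at this
    exact this.symm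
  have h2 : (n : L) * (m : L) - (p : L) * ((n * m / p : ℕ) : L) = 1 := by
    have h3 : ((n * m : ℕ) : L) = ((p * (n * m / p) + 1 : ℕ) : L) := by rw [← h1]
    rw [Nat.cast_mul, Nat.cast_add, Nat.cast_mul, Nat.cast_one] at h3
    rw [h3]
    ring
  apply le_antisymm (nat_le_one hna n)
  by_contra hcon
  rw [not_le] at hcon
  have h3 : w ((n : L) * (m : L)) < 1 := by
    rw [map_mul]
    calc w (n : L) * w (m : L) ≤ w (n : L) * 1 :=
          mul_le_mul_of_nonneg_left (nat_le_one hna m) (w.nonneg _)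
      _ < 1 := by rw [mul_one]; exact hcon
  have h4 : w (-((p : L) * ((n * m / p : ℕ) : L))) < 1 := by
    rw [w.map_neg, map_mul]
    calc w (p : L) * w ((n * m / p : ℕ) : L) ≤ w (p : L) * 1 :=
          mul_le_mul_of_nonneg_left (nat_le_one hna _) (w.nonneg _)
      _ < 1 := by rw [mul_one]; exact hpw
  have h5 := hna ((n : L) * (m : L)) (-((p : L) * ((n * m / p : ℕ) : L)))
  rw [← sub_eq_add_neg, h2, map_one] at h5
  exact absurd h5 (not_le.2 (max_lt h3 h4))

/-- a finite sum of small terms is small -/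
lemma sum_lt (hna : ∀ x y : L, w (x + y) ≤ max (w x) (w y)) {c : ℝ} (hc : 0 < c) (g : ℕ → L)
    (n : ℕ) (h : ∀ k < n, w (g k) < c) : w (∑ k ∈ range n, g k) < c := by
  induction n with
  | zero => rw [sum_range_zero, map_zero]; exact hc
  | succ n ih =>
    rw [sum_range_succ]
    exact lt_of_le_of_lt (hna _ _) (max_lt (ih fun k hk => h k (by omega)) (h n (by omega)))

/-- if the shift by `m` is close to the identity, the period is a power of `p` -/
theorem ppow (hna : ∀ x y : L, w (x + y) ≤ max (w x) (w y)) {p : ℕ} (hp : p.Prime)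
    (hpw : w (p : L) < 1) (hE : ∀ i j k, t i = t j → t (i + k) = t (j + k)) :
    ∀ n m : ℕ, 0 < n → AA w t m 1 → t (n * m) = t 0 →
      (∀ k, 0 < k → k < n → t (k * m) ≠ t 0) → ∃ b, n = p ^ b := by
  intro n
  induction n using Nat.strong_induction_on with
  | _ n ih =>
    intro m hn hA h0 hmin
    rcases Nat.lt_or_ge n 2 with h2 | h2
    · exact ⟨0, by rw [pow_zero]; omega⟩
    · have hne : t m ≠ t 0 := by
        have := hmin 1 (by omega) (by omega)
        rwa [one_mul] at this
      have hpos : 0 < w (t m - t 0) := w.pos (sub_ne_zero.2 hne)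
      have h1 : ∀ k < n, w ((t ((k + 1) * m) - t (k * m)) - (t m - t 0)) < w (t m - t 0) := by
        intro k _
        have h3 := hA.pow hna hE (by rw [map_one]) k m 0 hne
        rw [one_pow, one_mul, Nat.zero_add, show m + k * m = (k + 1) * m by ring] at h3
        exact h3
      have h3 := sum_lt hna hpos (fun k => (t ((k + 1) * m) - t (k * m)) - (t m - t 0)) n h1
      rw [sum_sub_distrib, sum_range_sub (fun k => t (k * m)), h0, Nat.zero_mul, sub_self,
        sum_const, card_range, nsmul_eq_mul, zero_sub, w.map_neg, map_mul] at h3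
      have h4 : w (n : L) < 1 := by
        by_contra hcon
        rw [not_lt] at hcon
        have := mul_le_mul_of_nonneg_right hcon hpos.le
        rw [one_mul] at this
        exact absurd h3 (not_lt.2 this)
      have hd : p ∣ n := by
        by_contra hcon
        rw [nat_eq_one hna hp hpw hcon] at h4
        exact lt_irrefl _ h4
      obtain ⟨n', rfl⟩ := hd
      have hn' : 0 < n' := Nat.pos_of_mul_pos_left hn
      have hlt : n' < p * n' := by
        have := hp.two_le
        nlinarith
      obtain ⟨b, hb⟩ := ih n' hlt (p * m) hn' (by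
          have h5 := hA.pow hna hE (by rw [map_one]) p
          rwa [one_pow] at h5)
        (by rw [show n' * (p * m) = p * n' * m by ring]; exact h0)
        (by
          intro k hk hkn
          rw [show k * (p * m) = (p * k) * m by ring]
          exact hmin (p * k) (Nat.mul_pos hp.pos hk) (Nat.mul_lt_mul_of_pos_left hkn hp.pos))
      exact ⟨b + 1, by rw [hb, pow_succ, mul_comm]⟩

end seq

variable {K : Type} [Field K]

/-- **The length of a cycle at one place of potentially good reduction.** -/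
theorem local_cycle {a : AbsoluteValue K ℝ} {S : Sys K Unit (fun _ => a) (PP K)}
    {f : PP K → PP K} (hne : S.NonExp f) (hle : S.LeOne) (haff : AffP a (S.δ ()) f) {p : ℕ}
    (hp : p.Prime) (hpa : a (p : K) < 1) {Q : ℕ}
    (hQ : ∀ (T : Finset (PP K)) (ρ : ℝ), 0 < ρ →
      (∀ x ∈ T, ∀ y ∈ T, x ≠ y → S.δ () x y = ρ) → T.card ≤ Q)
    {x : PP K} {n : ℕ} (hx : minimalPeriod f x = n) (hn : 0 < n) :
    ∃ m r b, n = m * r * p ^ b ∧ m ≤ Q ∧ r ≤ Q := by
  classical
  have hperD : D S f x () n = 0 := by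
    unfold D
    have h3 := per_mul hx 1
    rw [mul_one] at h3
    rw [h3]
    exact S.self _ x
  -- equidistant points
  have hcard : ∀ (g : PP K → PP K) (y : PP K) (N k : ℕ) (ρ : ℝ), 0 < ρ → S.NonExp g →
      minimalPeriod g y = N → 0 < N → k ≤ N → (∀ i, 0 < i → i < k → D S g y () i = ρ) →
      k ≤ Q := by
    intro g y N k ρ hρ hg hy hN hk hD
    have h1 := hQ ((range k).image (fun i => g^[i] y)) ρ hρ (by
      have key : ∀ i j, i < j → j < k → S.δ () (g^[i] y) (g^[j] y) = ρ := by
        intro i j hij hj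
        have h2 := c1 hg hy hN () i (j - i)
        rw [Nat.add_sub_cancel' hij.le] at h2
        rw [h2]
        exact hD (j - i) (by omega) (by omega)
      intro u hu v hv huv
      obtain ⟨i, hi, rfl⟩ := mem_image.1 hu
      obtain ⟨j, hj, rfl⟩ := mem_image.1 hv
      rw [mem_range] at hi hj
      rcases lt_trichotomy i j with h | h | h
      · exact key i j h hj
      · exact absurd (by rw [h]) huv
      · rw [S.symm]
        exact key j i h hi)
    rwa [card_image_of_injOn, card_range] at h1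
    intro i hi j hj hij
    rw [coe_range, Set.mem_Iio] at hi hj
    rcases lt_trichotomy i j with h | h | h
    · exact absurd hij (ne_of_lt' hy h (by omega))
    · exact h
    · exact absurd hij.symm (ne_of_lt' hy h (by omega))
  -- the first level
  have hex : ∃ k, 0 < k ∧ D S f x () k < 1 := ⟨n, hn, by rw [hperD]; exact zero_lt_one⟩
  set m := Nat.find hex with hm
  obtain ⟨hm0, hm1⟩ := Nat.find_spec hex
  have hmmin : ∀ k, 0 < k → k < m → D S f x () k = 1 := by
    intro k hk hkm
    apply le_antisymm (hle () _ _)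
    by_contra hcon
    rw [not_le] at hcon
    exact Nat.find_min hex hkm ⟨hk, hcon⟩
  have hmn : m ∣ n := by
    have h1 : m ≤ Nat.gcd m n := Nat.find_min' hex ⟨Nat.gcd_pos_of_pos_left _ hm0, by
      rw [← D_gcd hne hx hn]; exact hm1⟩
    have h2 : Nat.gcd m n = m := le_antisymm (Nat.le_of_dvd hm0 (Nat.gcd_dvd_left m n)) h1
    rw [← h2]
    exact Nat.gcd_dvd_right m n
  have hmQ : m ≤ Q := hcard f x n m 1 one_pos hne hx hn (Nat.le_of_dvd hn hmn) hmmin
  obtain ⟨n₁, hn₁⟩ := hmn
  have hn₁0 : 0 < n₁ := by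
    rcases Nat.eq_zero_or_pos n₁ with h | h
    · rw [h] at hn₁; omega
    · exact h
  have hx₁ : minimalPeriod (f^[m]) x = n₁ := mp_iter (by rw [hx, hn₁]) hm0
  rcases Nat.lt_or_ge n₁ 2 with h2 | h2
  · refine ⟨m, 1, 0, ?_, hmQ, by omega⟩
    rw [hn₁, show n₁ = 1 by omega]
    ring
  · have hDm : ∀ k, D S (f^[m]) x () k = D S f x () (m * k) := by
      intro k
      unfold D
      rw [← Function.iterate_mul]
    have hneI : S.NonExp (f^[m]) := hne.iterate m
    have hDm0 : 0 < D S f x () m := by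
      have h3 := ne_of_lt' hx₁ (i := 0) (j := 1) (by omega) (by omega)
      have h4 : x ≠ f^[m] x := h3
      exact S.pos () h4
    have hperD₁ : D S (f^[m]) x () n₁ = 0 := by rw [hDm, ← hn₁, hperD]
    -- the second level
    have hex₁ : ∃ k, 0 < k ∧ D S (f^[m]) x () k < D S f x () m :=
      ⟨n₁, hn₁0, by rw [hperD₁]; exact hDm0⟩
    set r := Nat.find hex₁ with hr
    obtain ⟨hr0, hr1⟩ := Nat.find_spec hex₁
    have hrmin : ∀ k, 0 < k → k < r → D S (f^[m]) x () k = D S f x () m := by
      intro k hk hkr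
      apply le_antisymm
      · have h3 := c2 hneI hx₁ hn₁0 () k 1
        rw [mul_one, hDm 1, mul_one] at h3
        exact h3
      · by_contra hcon
        rw [not_le] at hcon
        exact Nat.find_min hex₁ hkr ⟨hk, hcon⟩
    have hrn : r ∣ n₁ := by
      have h1 : r ≤ Nat.gcd r n₁ := Nat.find_min' hex₁ ⟨Nat.gcd_pos_of_pos_left _ hr0, by
        rw [← D_gcd hneI hx₁ hn₁0]; exact hr1⟩
      have h3 : Nat.gcd r n₁ = r := le_antisymm (Nat.le_of_dvd hr0 (Nat.gcd_dvd_left r n₁)) h1
      rw [← h3]
      exact Nat.gcd_dvd_right r n₁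
    have hrQ : r ≤ Q := hcard (f^[m]) x n₁ r _ hDm0 hneI hx₁ hn₁0 (Nat.le_of_dvd hn₁0 hrn) hrmin
    obtain ⟨n₂, hn₂⟩ := hrn
    have hn₂0 : 0 < n₂ := by
      rcases Nat.eq_zero_or_pos n₂ with h | h
      · rw [h] at hn₂; omega
      · exact h
    -- the affine coordinate
    obtain ⟨L, _, w, t, lam, hna, hwn, hlam, hd, hl⟩ := haff x m hm1
    have hAA : AA w t 1 lam := hl
    have htq : ∀ i j, t i = t j ↔ f^[m * i] x = f^[m * j] x := by
      intro i j
      constructor
      · intro h
        have h3 := hd i j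
        rw [h, sub_self, map_zero] at h3
        by_contra hcon
        exact absurd h3 (S.pos () hcon).ne
      · intro h
        have h3 := hd i j
        rw [h, S.self] at h3
        exact sub_eq_zero.1 ((w.eq_zero).1 h3)
    have hE : ∀ i j k, t i = t j → t (i + k) = t (j + k) := by
      intro i j k h
      rw [htq] at h ⊢
      rw [show m * (i + k) = m * k + m * i by ring, show m * (j + k) = m * k + m * j by ring,
        iterate_add_apply, iterate_add_apply, h]
    have ht1 : w (t 1 - t 0) = D S f x () m := by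
      rw [w.map_sub, hd 0 1, Nat.mul_zero, Nat.mul_one]
      rfl
    have ht10 : t 1 ≠ t 0 := by
      intro h
      rw [h, sub_self, map_zero] at ht1
      exact absurd ht1 hDm0.ne
    have hpos : 0 < w (t 1 - t 0) := w.pos (sub_ne_zero.2 ht10)
    have hSum : w (∑ k ∈ range r, lam ^ k) < 1 := by
      have h3 : ∀ k < r, w ((t (k + 1) - t k) - lam ^ k * (t 1 - t 0)) < w (t 1 - t 0) := by
        intro k _
        have h4 := hAA.pow hna hE hlam k 1 0 ht10
        rw [Nat.mul_one, Nat.zero_add, Nat.add_comm 1 k] at h4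
        exact h4
      have h4 := sum_lt hna hpos _ r h3
      rw [sum_sub_distrib, sum_range_sub, ← sum_mul] at h4
      have h5 : w (t r - t 0) < w (t 1 - t 0) := by
        rw [w.map_sub, hd 0 r, Nat.mul_zero, ht1]
        have := hr1
        rw [hDm] at this
        exact this
      have h6 : w ((∑ k ∈ range r, lam ^ k) * (t 1 - t 0)) < w (t 1 - t 0) := by
        have h7 := hna (-(t r - t 0 - (∑ k ∈ range r, lam ^ k) * (t 1 - t 0))) (t r - t 0)
        rw [w.map_neg, show -(t r - t 0 - (∑ k ∈ range r, lam ^ k) * (t 1 - t 0)) + (t r - t 0) =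
          (∑ k ∈ range r, lam ^ k) * (t 1 - t 0) by ring] at h7
        exact lt_of_le_of_lt h7 (max_lt h4 h5)
      rw [map_mul] at h6
      by_contra hcon
      rw [not_lt] at hcon
      have := mul_le_mul_of_nonneg_right hcon hpos.le
      rw [one_mul] at this
      exact absurd h6 (not_lt.2 this)
    have hlamr : w (lam ^ r - 1) < 1 := by
      rw [← geom_sum_mul, map_mul]
      have h3 : w (lam - 1) ≤ 1 := by
        rw [sub_eq_add_neg]
        refine (hna _ _).trans (max_le hlam ?_)
        rw [w.map_neg, map_one]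
      calc w (∑ k ∈ range r, lam ^ k) * w (lam - 1) ≤ w (∑ k ∈ range r, lam ^ k) * 1 :=
            mul_le_mul_of_nonneg_left h3 (w.nonneg _)
        _ < 1 := by rw [mul_one]; exact hSum
    have hAr : AA w t r 1 := by
      have h3 := hAA.pow hna hE hlam r
      rw [Nat.mul_one] at h3
      exact h3.close hna hlamr
    obtain ⟨b, hb⟩ := ppow hna hp (by rw [hwn]; exact hpa) hE n₂ r hn₂0 hAr
      (by
        rw [htq, show m * (n₂ * r) = n * 1 by rw [hn₁, hn₂]; ring, per_mul hx 1, Nat.mul_zero]
        rfl)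
      (by
        intro k hk hkn h
        rw [htq, Nat.mul_zero] at h
        have h3 : IsPeriodicPt f (m * (k * r)) x := h
        have h4 := h3.minimalPeriod_dvd
        rw [hx, hn₁, hn₂, Nat.mul_dvd_mul_iff_left hm0, mul_comm k r,
          Nat.mul_dvd_mul_iff_left hr0] at h4
        exact absurd (Nat.le_of_dvd hk h4) (not_le.2 hkn))
    refine ⟨m, r, b, ?_, hmQ, hrQ⟩
    rw [hn₁, hn₂, hb, mul_assoc]

end Pool.Agent.K3h68.UP
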