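import Mathlib
import Pool.Agent.K3h68.UP.LocCyc

set_option autoImplicit false

/-!
# Equidistant points at a finite place of a number field, cycle lengths from two places
-/

namespace Pool.Agent.K3h68.UP

open Function Finset
open NumberField IsDedekindDomain
open Pool.Agent.H892.PGR (br Phi)
open Pool.Agent.H892.PGK (PotGood PP fX fX_mk br_zero_iff)

section diff

variable {K : Type*} [Field K] {V : Type*} {av : V → AbsoluteValue K ℝ} {X : Type*}
  (S : Sys K V av X)

lemma Sys.co_sub {a b e x y : X} (hbe : b ≠ e) (hx : x ≠ a) (hy : y ≠ a) :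
    S.co a b e x - S.co a b e y =
      (S.c a e * S.c a b * S.c x y) / (S.c b e * S.c a x * S.c a y) := by
  unfold Sys.co
  have h1 : S.c a x ≠ 0 := S.c_ne hx.symm
  have h2 : S.c b e ≠ 0 := S.c_ne hbe
  have h3 : S.c a y ≠ 0 := S.c_ne hy.symm
  have h8 := S.pl a b x y
  field_simp
  linear_combination (-(S.c a e)) * h8

lemma Sys.av_co_sub (p : V) {a b e x y : X} (hbe : b ≠ e) (hx : x ≠ a) (hy : y ≠ a) :
    av p (S.co a b e x - S.co a b e y) =
      (S.δ p a e * S.δ p a b * S.δ p x y) / (S.δ p b e * S.δ p a x * S.δ p a y) := by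
  rw [S.co_sub hbe hx hy, map_div₀, map_mul, map_mul, map_mul, map_mul, S.norm_eq, S.norm_eq,
    S.norm_eq, S.norm_eq, S.norm_eq, S.norm_eq]
  have h1 := S.N_pos p a
  have h2 := S.N_pos p b
  have h3 := S.N_pos p e
  have h4 := S.N_pos p x
  have h5 := S.N_pos p y
  rw [show S.δ p a e * (S.N p a * S.N p e) * (S.δ p a b * (S.N p a * S.N p b)) *
      (S.δ p x y * (S.N p x * S.N p y)) = (S.δ p a e * S.δ p a b * S.δ p x y) *
      (S.N p a * S.N p a * S.N p b * S.N p e * S.N p x * S.N p y) by ring,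
    show S.δ p b e * (S.N p b * S.N p e) * (S.δ p a x * (S.N p a * S.N p x)) *
      (S.δ p a y * (S.N p a * S.N p y)) = (S.δ p b e * S.δ p a x * S.δ p a y) *
      (S.N p a * S.N p a * S.N p b * S.N p e * S.N p x * S.N p y) by ring]
  exact mul_div_mul_right _ _ (by positivity)

end diff

variable {K : Type} [Field K] [NumberField K]

lemma abv_le_one_iff (v : HeightOneSpectrum (𝓞 K)) (x : K) :
    NumberField.HeightOneSpectrum.adicAbv K v x ≤ 1 ↔ v.valuation K x ≤ 1 := by
  rw [NumberField.HeightOneSpectrum.adicAbv_def]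
  rw [← WithZeroMulInt.toNNReal_le_one_iff (HeightOneSpectrum.one_lt_absNorm_nnreal v)
    (m := v.valuation K x)]
  exact_mod_cast Iff.rfl

lemma abv_lt_one_iff (v : HeightOneSpectrum (𝓞 K)) (x : K) :
    NumberField.HeightOneSpectrum.adicAbv K v x < 1 ↔ v.valuation K x < 1 := by
  rw [NumberField.HeightOneSpectrum.adicAbv_def]
  rw [← WithZeroMulInt.toNNReal_lt_one_iff (HeightOneSpectrum.one_lt_absNorm_nnreal v)
    (m := v.valuation K x)]
  exact_mod_cast Iff.rfl

/-- pairwise incongruent integral elements -/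
theorem residue_count (v : HeightOneSpectrum (𝓞 K)) (Z : Finset K)
    (h1 : ∀ x ∈ Z, NumberField.HeightOneSpectrum.adicAbv K v x ≤ 1)
    (h2 : ∀ x ∈ Z, ∀ y ∈ Z, x ≠ y → NumberField.HeightOneSpectrum.adicAbv K v (x - y) = 1) :
    Z.card ≤ Ideal.absNorm v.asIdeal := by
  classical
  have hch : ∀ x : K, ∃ a : 𝓞 K, x ∈ Z →
      NumberField.HeightOneSpectrum.adicAbv K v (algebraMap (𝓞 K) K a - x) < 1 := by
    intro x
    by_cases hx : x ∈ Z
    · obtain ⟨a, ha⟩ := v.exists_valuation_sub_lt_of_integer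
        ((abv_le_one_iff v x).1 (h1 x hx)) 1
      refine ⟨a, fun _ => ?_⟩
      rw [abv_lt_one_iff]
      exact ha
    · exact ⟨0, fun h => absurd h hx⟩
  choose a ha using hch
  have hinj : Set.InjOn (fun x => Ideal.Quotient.mk v.asIdeal (a x)) (Z : Set K) := by
    intro x hx y hy hxy
    by_contra hne
    have h3 : a x - a y ∈ v.asIdeal := (Ideal.Quotient.mk_eq_mk_iff_sub_mem _ _).1 hxy
    have h4 : NumberField.HeightOneSpectrum.adicAbv K v (algebraMap (𝓞 K) K (a x - a y)) < 1 :=
      (HeightOneSpectrum.adicAbv_coe_lt_one_iff (K := K) (v := v)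
        (HeightOneSpectrum.one_lt_absNorm_nnreal v) (a x - a y)).mpr h3
    have h5 := ha x hx
    have h6 := ha y hy
    have h7 := h2 x hx y hy hne
    have hna := NumberField.HeightOneSpectrum.adicAbv_add_le_max (K := K) v
    have e : x - y = -(algebraMap (𝓞 K) K (a x) - x) +
        (algebraMap (𝓞 K) K (a x - a y) + (algebraMap (𝓞 K) K (a y) - y)) := by
      rw [map_sub]; ring
    have h8 : NumberField.HeightOneSpectrum.adicAbv K v (x - y) < 1 := by
      rw [e]
      refine lt_of_le_of_lt (hna _ _) (max_lt ?_ (lt_of_le_of_lt (hna _ _) (max_lt h4 h6)))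
      rw [AbsoluteValue.map_neg]
      exact h5
    rw [h7] at h8
    exact lt_irrefl _ h8
  have hfin : Finite (𝓞 K ⧸ v.asIdeal) := by
    rw [← Ideal.absNorm_ne_zero_iff]
    have := HeightOneSpectrum.one_lt_absNorm v
    omega
  have hft := Fintype.ofFinite (𝓞 K ⧸ v.asIdeal)
  calc Z.card = (Z.image (fun x => Ideal.Quotient.mk v.asIdeal (a x))).card :=
        (card_image_of_injOn hinj).symm
    _ ≤ Fintype.card (𝓞 K ⧸ v.asIdeal) := Finset.card_le_univ _
    _ = Nat.card (𝓞 K ⧸ v.asIdeal) := Nat.card_eq_fintype_card.symm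
    _ = Ideal.absNorm v.asIdeal := by
      rw [Ideal.absNorm_apply, Submodule.cardQuot_apply]

/-- **Equidistant points**: at most `q + 1` -/
theorem equi (v : HeightOneSpectrum (𝓞 K))
    (S : Sys K Unit (fun _ => NumberField.HeightOneSpectrum.adicAbv K v) (PP K))
    (T : Finset (PP K)) (ρ : ℝ) (hρ : 0 < ρ)
    (hT : ∀ x ∈ T, ∀ y ∈ T, x ≠ y → S.δ () x y = ρ) :
    T.card ≤ Ideal.absNorm v.asIdeal + 1 := by
  classical
  have hq := HeightOneSpectrum.one_lt_absNorm v
  rcases Nat.lt_or_ge 2 T.card with h3 | h3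
  · obtain ⟨a, b, e, ha, hb, he, hab, hae, hbe⟩ := Finset.two_lt_card_iff.1 h3
    set T' := T \ {a, b, e} with hT'
    have hmem : ∀ x ∈ T', x ∈ T ∧ x ≠ a ∧ x ≠ b ∧ x ≠ e := by
      intro x hx
      obtain ⟨h1, h2⟩ := Finset.mem_sdiff.1 hx
      simp only [Finset.mem_insert, Finset.mem_singleton, not_or] at h2
      exact ⟨h1, h2.1, h2.2.1, h2.2.2⟩
    have hco : ∀ x ∈ T', NumberField.HeightOneSpectrum.adicAbv K v (S.co a b e x) = 1 := by
      intro x hx
      obtain ⟨h0, h1, h2, h4⟩ := hmem x hx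
      have := S.av_co () a b e x
      rw [hT a ha e he hae, hT b hb x h0 h2.symm, hT a ha x h0 h1.symm, hT b hb e he hbe,
        div_self (by positivity)] at this
      exact this
    have hco1 : ∀ x ∈ T', NumberField.HeightOneSpectrum.adicAbv K v (S.co a b e x + 1) = 1 := by
      intro x hx
      obtain ⟨h0, h1, h2, h4⟩ := hmem x hx
      have := S.av_co_add () h1 hbe
      rw [hT a ha b hb hab, hT e he x h0 h4.symm, hT a ha x h0 h1.symm, hT b hb e he hbe,
        div_self (by positivity)] at this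
      exact this
    have hco2 : ∀ x ∈ T', ∀ y ∈ T', x ≠ y →
        NumberField.HeightOneSpectrum.adicAbv K v (S.co a b e x - S.co a b e y) = 1 := by
      intro x hx y hy hxy
      obtain ⟨h0, h1, h2, h4⟩ := hmem x hx
      obtain ⟨g0, g1, g2, g4⟩ := hmem y hy
      have := S.av_co_sub () hbe h1 g1
      rw [hT a ha e he hae, hT a ha b hb hab, hT x h0 y g0 hxy, hT b hb e he hbe,
        hT a ha x h0 h1.symm, hT a ha y g0 g1.symm, div_self (by positivity)] at this
      exact this
    have hinj : Set.InjOn (S.co a b e) (T' : Set (PP K)) := by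
      intro x hx y hy hxy
      exact S.co_inj hab hae hbe (hmem x hx).2.1 (hmem y hy).2.1 hxy
    set Z : Finset K := insert 0 (insert (-1) (T'.image (S.co a b e))) with hZ
    have hone : NumberField.HeightOneSpectrum.adicAbv K v (1 : K) = 1 := map_one _
    have hnot0 : (0 : K) ∉ insert (-1 : K) (T'.image (S.co a b e)) := by
      rw [Finset.mem_insert, not_or]
      refine ⟨by intro h; exact one_ne_zero (neg_eq_zero.1 h.symm), ?_⟩
      intro h
      obtain ⟨x, hx, h5⟩ := Finset.mem_image.1 h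
      have := hco x hx
      rw [h5, map_zero] at this
      exact zero_ne_one this
    have hnot1 : (-1 : K) ∉ T'.image (S.co a b e) := by
      intro h
      obtain ⟨x, hx, h5⟩ := Finset.mem_image.1 h
      have := hco1 x hx
      rw [h5, neg_add_cancel, map_zero] at this
      exact zero_ne_one this
    have hZc : Z.card = T'.card + 2 := by
      rw [hZ, Finset.card_insert_of_notMem hnot0, Finset.card_insert_of_notMem hnot1,
        Finset.card_image_of_injOn hinj]
    have hZq : Z.card ≤ Ideal.absNorm v.asIdeal := by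
      apply residue_count v Z
      · intro z hz
        rw [hZ, Finset.mem_insert, Finset.mem_insert] at hz
        rcases hz with rfl | rfl | hz
        · rw [map_zero]; exact zero_le_one
        · rw [AbsoluteValue.map_neg, hone]
        · obtain ⟨x, hx, rfl⟩ := Finset.mem_image.1 hz
          exact (hco x hx).le
      · intro z hz z' hz' hne
        rw [hZ, Finset.mem_insert, Finset.mem_insert] at hz hz'
        rcases hz with rfl | rfl | hz
        · rcases hz' with rfl | rfl | hz'
          · exact absurd rfl hne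
          · rw [sub_neg_eq_add, zero_add, hone]
          · obtain ⟨x, hx, rfl⟩ := Finset.mem_image.1 hz'
            rw [zero_sub, AbsoluteValue.map_neg]
            exact hco x hx
        · rcases hz' with rfl | rfl | hz'
          · rw [sub_zero, AbsoluteValue.map_neg, hone]
          · exact absurd rfl hne
          · obtain ⟨x, hx, rfl⟩ := Finset.mem_image.1 hz'
            rw [show (-1 : K) - S.co a b e x = -(S.co a b e x + 1) by ring,
              AbsoluteValue.map_neg]
            exact hco1 x hx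
        · obtain ⟨x, hx, rfl⟩ := Finset.mem_image.1 hz
          rcases hz' with rfl | rfl | hz'
          · rw [sub_zero]
            exact hco x hx
          · rw [sub_neg_eq_add]
            exact hco1 x hx
          · obtain ⟨y, hy, rfl⟩ := Finset.mem_image.1 hz'
            exact hco2 x hx y hy fun h => hne (by rw [h])
    have hTs : T ⊆ T' ∪ {a, b, e} := by
      intro x hx
      by_cases h1 : x ∈ ({a, b, e} : Finset (PP K))
      · exact Finset.mem_union_right _ h1
      · exact Finset.mem_union_left _ (Finset.mem_sdiff.2 ⟨hx, h1⟩)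
    have h5 : T.card ≤ T'.card + 3 := (Finset.card_le_card hTs).trans
      ((Finset.card_union_le _ _).trans (Nat.add_le_add_left Finset.card_le_three _))
    omega
  · omega

/-- **The length of a cycle, at one place.** -/
theorem cycle_one_place {F G : MvPolynomial (Fin 2) K} {d : ℕ} (v : HeightOneSpectrum (𝓞 K))
    {p : ℕ} (hp : p.Prime) (hpv : (p : 𝓞 K) ∈ v.asIdeal)
    (h : ∀ u : Fin 2 → K, u ≠ 0 → Phi F G u ≠ 0)
    (hg : PotGood (NumberField.HeightOneSpectrum.adicAbv K v) F G d) {x : PP K} {n : ℕ}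
    (hx : minimalPeriod (fX F G h) x = n) (hn : 0 < n) :
    ∃ m r b, n = m * r * p ^ b ∧ m ≤ Ideal.absNorm v.asIdeal + 1 ∧
      r ≤ Ideal.absNorm v.asIdeal + 1 := by
  obtain ⟨S, h1, h2, h3⟩ := exists_local h hg
  refine local_cycle h1 h2 h3 hp ?_ (equi v S) hx hn
  have h4 := (HeightOneSpectrum.adicAbv_coe_lt_one_iff (K := K) (v := v)
    (HeightOneSpectrum.one_lt_absNorm_nnreal v) (p : 𝓞 K)).mpr hpv
  rwa [map_natCast] at h4

/-- **The length of a cycle, from two places of different residue characteristics.** -/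
theorem cycle_two_places {F G : MvPolynomial (Fin 2) K} {d : ℕ}
    (v v' : HeightOneSpectrum (𝓞 K)) {p p' : ℕ} (hp : p.Prime) (hp' : p'.Prime) (hne : p ≠ p')
    (hpv : (p : 𝓞 K) ∈ v.asIdeal) (hpv' : (p' : 𝓞 K) ∈ v'.asIdeal)
    (h : ∀ u : Fin 2 → K, u ≠ 0 → Phi F G u ≠ 0)
    (hg : PotGood (NumberField.HeightOneSpectrum.adicAbv K v) F G d)
    (hg' : PotGood (NumberField.HeightOneSpectrum.adicAbv K v') F G d) {x : PP K} {n : ℕ}
    (hx : minimalPeriod (fX F G h) x = n) (hn : 0 < n) :
    n ≤ (Ideal.absNorm v.asIdeal + 1) ^ 2 * (Ideal.absNorm v'.asIdeal + 1) ^ 2 := by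
  obtain ⟨m, r, b, e1, h1, h2⟩ := cycle_one_place v hp hpv h hg hx hn
  obtain ⟨m', r', b', e2, h1', h2'⟩ := cycle_one_place v' hp' hpv' h hg' hx hn
  have hcop : Nat.Coprime (p ^ b) (p' ^ b') :=
    Nat.Coprime.pow b b' ((Nat.coprime_primes hp hp').2 hne)
  have hd : p ^ b ∣ m' * r' := by
    apply hcop.dvd_of_dvd_mul_right
    rw [← e2, e1]
    exact Dvd.intro_left _ rfl
  have hpos : 0 < m' * r' := by
    rcases Nat.eq_zero_or_pos (m' * r') with h0 | h0
    · rw [h0, Nat.zero_mul] at e2; omega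
    · exact h0
  calc n = m * r * p ^ b := e1
    _ ≤ (Ideal.absNorm v.asIdeal + 1) * (Ideal.absNorm v.asIdeal + 1) *
        ((Ideal.absNorm v'.asIdeal + 1) * (Ideal.absNorm v'.asIdeal + 1)) :=
        Nat.mul_le_mul (Nat.mul_le_mul h1 h2)
          ((Nat.le_of_dvd hpos hd).trans (Nat.mul_le_mul h1' h2'))
    _ = _ := by ring

end Pool.Agent.K3h68.UP
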