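import Mathlib
import Pool.Agent.K3h68.UP.Res

set_option autoImplicit false

/-!
# Two small places outside `S`
-/

namespace Pool.Agent.K3h68.UP

open Finset
open NumberField IsDedekindDomain

/-- `m` primes up to `17 m log m` -/
theorem many_primes (m : ℕ) (hm : 2 ≤ m) :
    ∃ N : ℕ, (N : ℝ) ≤ 17 * ((m : ℝ) * Real.log m) ∧ m ≤ Nat.primeCounting N := by
  have hm' : (2 : ℝ) ≤ m := by exact_mod_cast hm
  have hl2 : (0.6931471803 : ℝ) < Real.log 2 := Real.log_two_gt_d9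
  have hlm : Real.log 2 ≤ Real.log m := Real.log_le_log (by norm_num) hm'
  have hy1 : 1 ≤ (m : ℝ) * Real.log m := by nlinarith
  set y : ℝ := 16 * ((m : ℝ) * Real.log m) with hy
  refine ⟨⌈y⌉₊, ?_, ?_⟩
  · have h1 := Nat.ceil_lt_add_one (show (0 : ℝ) ≤ y by positivity)
    linarith
  · set N := ⌈y⌉₊ with hN
    have hNy : y ≤ N := Nat.le_ceil y
    have hNle : (N : ℝ) ≤ 17 * ((m : ℝ) * Real.log m) := by
      have h1 := Nat.ceil_lt_add_one (show (0 : ℝ) ≤ y by positivity)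
      linarith
    have hN16 : (16 : ℝ) ≤ N := by linarith
    have hlogm : Real.log m ≤ m := by
      have := Real.log_le_sub_one_of_pos (show (0 : ℝ) < m by linarith)
      linarith
    have hNm : (N : ℝ) ≤ 17 * (m : ℝ) ^ 2 := by nlinarith
    have hN32 : (N : ℝ) ≤ 32 * (m : ℝ) ^ 2 := by nlinarith
    have hlogN : Real.log N ≤ 7 * Real.log m := by
      have h1 : Real.log N ≤ Real.log (32 * (m : ℝ) ^ 2) :=
        Real.log_le_log (by linarith) hN32
      have h2 : Real.log (32 * (m : ℝ) ^ 2) = 5 * Real.log 2 + 2 * Real.log m := by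
        rw [Real.log_mul (by norm_num) (by positivity), Real.log_pow,
          show (32 : ℝ) = 2 ^ 5 by norm_num, Real.log_pow]
        push_cast
        ring
      linarith
    have hlogN1 : Real.log ((N : ℝ) + 1) ≤ 8 * Real.log m := by
      have h1 : Real.log ((N : ℝ) + 1) ≤ Real.log (2 * N) :=
        Real.log_le_log (by linarith) (by linarith)
      rw [Real.log_mul (by norm_num) (by linarith)] at h1
      linarith
    have hlogNpos : 0 < Real.log N := Real.log_pos (by linarith)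
    have h3 := Chebyshev.pi_ge N
    rw [div_le_iff₀ hlogNpos] at h3
    by_contra hcon
    rw [not_le] at hcon
    have h4 : ((Nat.primeCounting N : ℕ) : ℝ) ≤ (m : ℝ) - 1 := by
      have : (Nat.primeCounting N : ℕ) + 1 ≤ m := hcon
      have h5 : ((Nat.primeCounting N : ℕ) : ℝ) + 1 ≤ (m : ℝ) := by exact_mod_cast this
      linarith
    have h5 : ((Nat.primeCounting N : ℕ) : ℝ) * Real.log N ≤ ((m : ℝ) - 1) * (7 * Real.log m) := by
      apply mul_le_mul h4 hlogN hlogNpos.le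
      linarith
    have h6 : 16 * ((m : ℝ) * Real.log m) * 0.6931471803 ≤ (N : ℝ) * Real.log 2 := by
      apply mul_le_mul hNy hl2.le (by norm_num)
      linarith
    nlinarith

variable {K : Type} [Field K] [NumberField K]

/-- a place above `p` -/
lemma place_above {D : ℕ} (hD : Module.finrank ℚ K = D) {p : ℕ} (hp : p.Prime) :
    ∃ v : HeightOneSpectrum (𝓞 K), (p : 𝓞 K) ∈ v.asIdeal ∧ Ideal.absNorm v.asIdeal ≤ p ^ D := by
  have hnorm : Ideal.absNorm (Ideal.span {((p : ℕ) : 𝓞 K)}) = p ^ D := by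
    rw [Ideal.absNorm_span_natCast, RingOfIntegers.rank, hD]
  have hDpos : 0 < D := by rw [← hD]; exact Module.finrank_pos
  have hne : Ideal.span {((p : ℕ) : 𝓞 K)} ≠ ⊤ := by
    intro h
    rw [← Ideal.absNorm_eq_one_iff, hnorm] at h
    have := Nat.one_lt_pow hDpos.ne' hp.one_lt
    omega
  obtain ⟨P, hP, hle⟩ := Ideal.exists_le_maximal _ hne
  have hmem : (p : 𝓞 K) ∈ P := hle (Ideal.subset_span rfl)
  have hPne : P ≠ ⊥ := by
    rintro rfl
    rw [Ideal.mem_bot] at hmem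
    exact hp.ne_zero (by exact_mod_cast hmem)
  refine ⟨⟨P, hP.isPrime, hPne⟩, hmem, ?_⟩
  have h1 := Ideal.absNorm_dvd_absNorm_of_le hle
  rw [hnorm] at h1
  exact Nat.le_of_dvd (pow_pos hp.pos D) h1

lemma prime_unique (v : HeightOneSpectrum (𝓞 K)) {p p' : ℕ} (hp : p.Prime) (hp' : p'.Prime)
    (h : (p : 𝓞 K) ∈ v.asIdeal) (h' : (p' : 𝓞 K) ∈ v.asIdeal) : p = p' := by
  by_contra hne
  have hcop : IsCoprime (p : ℤ) (p' : ℤ) :=
    Nat.isCoprime_iff_coprime.2 ((Nat.coprime_primes hp hp').2 hne)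
  obtain ⟨a, b, hab⟩ := hcop
  have h1 : (1 : 𝓞 K) ∈ v.asIdeal := by
    have h2 : ((a * (p : ℤ) + b * (p' : ℤ) : ℤ) : 𝓞 K) = 1 := by rw [hab]; exact Int.cast_one
    rw [← h2]
    push_cast
    exact v.asIdeal.add_mem (v.asIdeal.mul_mem_left _ h) (v.asIdeal.mul_mem_left _ h')
  exact v.isPrime.ne_top ((Ideal.eq_top_iff_one _).2 h1)

/-- **Two places of small norm and different characteristics outside `S`.** -/
theorem two_small {D : ℕ} (hD : Module.finrank ℚ K = D) (S : Finset (HeightOneSpectrum (𝓞 K))) :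
    ∃ (v v' : HeightOneSpectrum (𝓞 K)) (p p' : ℕ), p.Prime ∧ p'.Prime ∧ p ≠ p' ∧
      (p : 𝓞 K) ∈ v.asIdeal ∧ (p' : 𝓞 K) ∈ v'.asIdeal ∧ v ∉ S ∧ v' ∉ S ∧
      (Ideal.absNorm v.asIdeal : ℝ) ≤
        (17 * (((S.card : ℝ) + 2) * Real.log ((S.card : ℝ) + 2))) ^ D ∧
      (Ideal.absNorm v'.asIdeal : ℝ) ≤
        (17 * (((S.card : ℝ) + 2) * Real.log ((S.card : ℝ) + 2))) ^ D := by
  classical
  obtain ⟨N, hN1, hN2⟩ := many_primes (S.card + 2) (by omega)
  push_cast at hN1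
  set P := (range (N + 1)).filter Nat.Prime with hP
  have hPc : P.card = Nat.primeCounting N := by
    rw [Nat.primeCounting, Nat.primeCounting', Nat.count_eq_card_filter_range]
  set bad : Finset ℕ := P.filter (fun p : ℕ => ∃ v ∈ S, ((p : ℕ) : 𝓞 K) ∈ v.asIdeal) with hbad
  have hbc : bad.card ≤ S.card := by
    have hch : ∀ p : ℕ, ∃ v : HeightOneSpectrum (𝓞 K), p ∈ bad → v ∈ S ∧ (p : 𝓞 K) ∈ v.asIdeal := by
      intro p
      by_cases h : p ∈ bad
      · obtain ⟨v, h1, h2⟩ := (mem_filter.1 h).2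
        exact ⟨v, fun _ => ⟨h1, h2⟩⟩
      · obtain ⟨v, -, -⟩ := place_above (K := K) hD Nat.prime_two
        exact ⟨v, fun h' => absurd h' h⟩
    choose g hg using hch
    apply Finset.card_le_card_of_injOn g (fun p hp => (hg p hp).1)
    intro p hp q hq hpq
    have hp1 := (mem_filter.1 (mem_filter.1 hp).1).2
    have hq1 := (mem_filter.1 (mem_filter.1 hq).1).2
    have h1 := (hg p hp).2
    have h2 := (hg q hq).2
    rw [← hpq] at h2
    exact prime_unique (g p) hp1 hq1 h1 h2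
  have hgood : 1 < (P \ bad).card := by
    have h1 := Finset.le_card_sdiff bad P
    omega
  obtain ⟨p, hp, p', hp', hne⟩ := Finset.one_lt_card.1 hgood
  have hfin : ∀ p ∈ P \ bad, p.Prime ∧ ∃ v : HeightOneSpectrum (𝓞 K), (p : 𝓞 K) ∈ v.asIdeal ∧
      v ∉ S ∧ (Ideal.absNorm v.asIdeal : ℝ) ≤
        (17 * (((S.card : ℝ) + 2) * Real.log ((S.card : ℝ) + 2))) ^ D := by
    intro p hp
    obtain ⟨h1, h2⟩ := Finset.mem_sdiff.1 hp
    obtain ⟨h3, h4⟩ := mem_filter.1 h1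
    refine ⟨h4, ?_⟩
    obtain ⟨v, hv1, hv2⟩ := place_above (K := K) hD h4
    refine ⟨v, hv1, fun hS => h2 (mem_filter.2 ⟨h1, v, hS, hv1⟩), ?_⟩
    have h5 : (Ideal.absNorm v.asIdeal : ℝ) ≤ (p : ℝ) ^ D := by exact_mod_cast hv2
    refine h5.trans (pow_le_pow_left₀ (Nat.cast_nonneg p) ?_ D)
    have h6 : (p : ℝ) ≤ (N : ℝ) := by
      rw [mem_range] at h3
      exact_mod_cast Nat.lt_succ_iff.1 h3
    exact h6.trans hN1
  obtain ⟨hp1, v, hv1, hv2, hv3⟩ := hfin p hp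
  obtain ⟨hp1', v', hv1', hv2', hv3'⟩ := hfin p' hp'
  exact ⟨v, v', p, p', hp1, hp1', hne, hv1, hv1', hv2, hv2', hv3, hv3'⟩

end Pool.Agent.K3h68.UP
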