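import Mathlib
import Pool.Agent.K3h68.UP.Primes
import Pool.Agent.K3h68.UP.Glob

set_option autoImplicit false

/-!
# The lengths of cycles and tails, potentially good reduction outside `S`
-/

namespace Pool.Agent.K3h68.UP

open MvPolynomial Function
open Pool.Agent.H892.PGR (br Phi br_smul)
open Pool.Agent.H892.PGK (PotGood PP fX fX_mk br_zero_iff aev nz_rat)
open NumberField IsDedekindDomain

variable {K : Type} [Field K] [NumberField K] {F G : MvPolynomial (Fin 2) K} {d : ℕ}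

/-- cycle lengths outside `S` -/
theorem cycle_le {D : ℕ} (hD : Module.finrank ℚ K = D) (S : Finset (HeightOneSpectrum (𝓞 K)))
    (h : ∀ u : Fin 2 → K, u ≠ 0 → Phi F G u ≠ 0)
    (hg : ∀ v : HeightOneSpectrum (𝓞 K), v ∉ S →
      PotGood (NumberField.HeightOneSpectrum.adicAbv K v) F G d) {x : PP K} {n : ℕ}
    (hx : minimalPeriod (fX F G h) x = n) (hn : 0 < n) :
    (n : ℝ) ≤ (34 * (((S.card : ℝ) + 2) * Real.log ((S.card : ℝ) + 2))) ^ (4 * D) := by
  obtain ⟨v, v', p, p', hp, hp', hne, hpv, hpv', hv, hv', hq, hq'⟩ := two_small hD S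
  have h1 := cycle_two_places v v' hp hp' hne hpv hpv' h (hg v hv) (hg v' hv') hx hn
  have hDpos : 0 < D := by rw [← hD]; exact Module.finrank_pos
  set s : ℝ := (S.card : ℝ) with hs
  have hs0 : 0 ≤ s := Nat.cast_nonneg _
  have hl2 : (0.6931471803 : ℝ) < Real.log 2 := Real.log_two_gt_d9
  have hlm : Real.log 2 ≤ Real.log (s + 2) := Real.log_le_log (by norm_num) (by linarith)
  have hL1 : 1 ≤ (s + 2) * Real.log (s + 2) := by nlinarith
  set l : ℝ := (s + 2) * Real.log (s + 2) with hl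
  set M : ℝ := (17 * l) ^ D with hM
  have hM1 : 1 ≤ M := one_le_pow₀ (by linarith)
  have h2 : (n : ℝ) ≤ ((Ideal.absNorm v.asIdeal : ℝ) + 1) ^ 2 *
      ((Ideal.absNorm v'.asIdeal : ℝ) + 1) ^ 2 := by exact_mod_cast h1
  have h3 : ((Ideal.absNorm v.asIdeal : ℝ) + 1) ^ 2 ≤ (2 * M) ^ 2 :=
    pow_le_pow_left₀ (by positivity) (by linarith) 2
  have h4 : ((Ideal.absNorm v'.asIdeal : ℝ) + 1) ^ 2 ≤ (2 * M) ^ 2 :=
    pow_le_pow_left₀ (by positivity) (by linarith) 2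
  have h5 : (n : ℝ) ≤ (2 * M) ^ 2 * (2 * M) ^ 2 :=
    h2.trans (mul_le_mul h3 h4 (by positivity) (by positivity))
  have h6 : (2 : ℝ) ≤ 2 ^ D := le_self_pow₀ (by norm_num) hDpos.ne'
  have h7 : 2 * M ≤ (34 * l) ^ D := by
    rw [show (34 : ℝ) * l = 2 * (17 * l) by ring, mul_pow]
    exact mul_le_mul_of_nonneg_right h6 (by positivity)
  calc (n : ℝ) ≤ (2 * M) ^ 2 * (2 * M) ^ 2 := h5
    _ = (2 * M) ^ 4 := by ring
    _ ≤ ((34 * l) ^ D) ^ 4 := pow_le_pow_left₀ (by positivity) h7 4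
    _ = (34 * l) ^ (4 * D) := by rw [← pow_mul, mul_comm D 4]

/-- tails outside `S` -/
theorem tail_le_nat (D : ℕ) : ∃ C : ℕ, 1 ≤ C ∧ ∀ (K : Type) [Field K] [NumberField K],
    Module.finrank ℚ K = D → ∀ (S : Finset (HeightOneSpectrum (𝓞 K))) (d : ℕ)
    (F G : MvPolynomial (Fin 2) K) (h : ∀ u : Fin 2 → K, u ≠ 0 → Phi F G u ≠ 0),
    (∀ v : HeightOneSpectrum (𝓞 K), v ∉ S →
      PotGood (NumberField.HeightOneSpectrum.adicAbv K v) F G d) →
    ∀ (x : PP K) (a n : ℕ), (fX F G h)^[n] ((fX F G h)^[a] x) = (fX F G h)^[a] x →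
      (fX F G h)^[n] ((fX F G h)^[n * C ^ (S.card + 1)] x) =
        (fX F G h)^[n * C ^ (S.card + 1)] x := by
  obtain ⟨C, hC, hcls⟩ := cls_nat D
  refine ⟨C + 2, by omega, ?_⟩
  intro K _ _ hK S d F G h hg x a n hx
  obtain ⟨Y, hne, -, -, -⟩ := exists_sys
    (fun v : {v : HeightOneSpectrum (𝓞 K) // v ∉ S} =>
      NumberField.HeightOneSpectrum.adicAbv K v.1) h (fun v => hg v.1 v.2)
  have h1 := tail_le (hcls K hK S) hne hx
  have h2 : C ^ (S.card + 1) + 2 ≤ (C + 2) ^ (S.card + 1) := by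
    rw [pow_succ, pow_succ]
    have h3 : C ^ S.card ≤ (C + 2) ^ S.card := Nat.pow_le_pow_left (by omega) _
    have h4 : 1 ≤ (C + 2) ^ S.card := Nat.one_le_pow _ _ (by omega)
    calc C ^ S.card * C + 2 ≤ (C + 2) ^ S.card * C + (C + 2) ^ S.card * 2 := by
          have := Nat.mul_le_mul_right C h3
          omega
      _ = (C + 2) ^ S.card * (C + 2) := by ring
  obtain ⟨r, hr⟩ := Nat.exists_eq_add_of_le (Nat.mul_le_mul_left n h2)
  rw [hr, Nat.add_comm (n * (C ^ (S.card + 1) + 2)) r, iterate_add_apply,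
    ← iterate_add_apply _ n r, Nat.add_comm n r, iterate_add_apply _ r n, h1]

end Pool.Agent.K3h68.UP
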